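import Pool.Agent.Lib.MP_5c0a0e_nt.Coef

/-! The algebraic conditions have no rational solution. -/

namespace NahmCE

lemma seven_dvd (s : ℚ) (h1 : ((s.num : ℤ) : ZMod 7) = 0) (h2 : (((s.den : ℕ) : ℤ) : ZMod 7) = 0) :
    False := by
  have a1 : (7:ℤ) ∣ s.num := (ZMod.intCast_zmod_eq_zero_iff_dvd _ 7).1 h1
  have a2 : (7:ℤ) ∣ (s.den : ℤ) := (ZMod.intCast_zmod_eq_zero_iff_dvd _ 7).1 h2
  have := Int.isUnit_iff.1 (s.isCoprime_num_den.isUnit_of_dvd' a1 a2)
  omega

def RH {K : Type} [CommRing K] (a b : K) : K := (-292846134375) * a^0 * b^19 + (-143886010500) * a^1 * b^18 + (-6229726235640) * a^2 * b^17 + (-3529645320960) * a^3 * b^16 + (-93894778549440) * a^4 * b^15 + (168877850985216) * a^5 * b^14 + (-742911015360000) * a^6 * b^13 + (1264446479482880) * a^7 * b^12 + (1202190736097280) * a^8 * b^11 + (-2248358264045568) * a^9 * b^10 + (10608438765158400) * a^10 * b^9 + (5567356726149120) * a^11 * b^8 + (2295661445775360) * a^12 * b^7 + (4796667593228288)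 * a^13 * b^6 + (-7206398790205440) * a^14 * b^5 + (-7917836634685440) * a^15 * b^4 + (1173814561996800) * a^16 * b^3 + (2022001883480064) * a^17 * b^2 + (94832877895680) * a^18 * b^1 + (-109951162777600) * a^19 * b^0

lemma RH_mod : ∀ a b : ZMod 7, RH a b = 0 → a = 0 ∧ b = 0 := by
  unfold RH
  decide +kernel

lemma no_root (s : ℚ) : RH s 1 ≠ 0 := by
  intro h
  have h1 : RH (s.num : ℚ) ((s.den : ℤ) : ℚ) = 0 := by
    rw [← Rat.mul_den_eq_num, Int.cast_natCast]
    unfold RH at h ⊢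
    linear_combination (s.den : ℚ)^19 * h
  have h2 : RH s.num (s.den : ℤ) = 0 := by
    unfold RH at h1 ⊢
    exact_mod_cast h1
  have h3 := congrArg (Int.cast : ℤ → ZMod 7) h2
  have h4 : RH ((s.num : ℤ) : ZMod 7) (((s.den : ℕ) : ℤ) : ZMod 7) = 0 := by
    unfold RH at h3 ⊢
    simpa only [Int.cast_add, Int.cast_mul, Int.cast_pow, Int.cast_neg, Int.cast_ofNat,
      Int.cast_zero] using h3
  exact seven_dvd s (RH_mod _ _ h4).1 (RH_mod _ _ h4).2

lemma not_sq_seven (x : ℚ) : x^2 ≠ 7 := by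
  intro h
  have h1 : Irrational (Real.sqrt 7) := by
    simpa using (show Nat.Prime 7 by norm_num).irrational_sqrt
  refine h1 ⟨|x|, ?_⟩
  have : ((x:ℝ))^2 = 7 := by exact_mod_cast h
  rw [← this, Real.sqrt_sq_eq_abs]; push_cast; rfl

lemma case_zero (s l D : ℚ) (o2 : (21 - 192 * l^2 + 80 * s - 96 * s * D - 32 * s^3) = 0)
    (o3 : (-9 + 16 * l + 96 * l^2 - 64 * D * l - 24 * s - 64 * s^2 * l) = 0)
    (o4 : (38145 - 34560 * l - 478080 * l^2 + 430080 * l^4 + 11520 * D + 138240 * D * l - 23040 * D^2 + 225056 * s - 706560 * s * l^2 - 173760 * s * D + 184320 * s * D * l^2 + 30720 * s * D^2 + 112640 * s^2 + 138240 * s^2 * l - 122880 * s^2 * D + 46080 * s^2 * D^2 - 57920 * s^3 + 61440 * s^3 * l^2 + 61440 * s^3 * D - 48640 * s^4 + 30720 * s^4 * D + 6144 * s^5 + 5120 * s^6) = 0) : False := by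
  have g : (42 * l - 384 * l^3 + 27 * s + 112 * s * l - 288 * s * l^2 + 72 * s^2 + 128 * s^3 * l) = 0 := by
    linear_combination (1/32) * ((-96 * s) * o3 - (-64 * l) * o2)
  have h0 : (-6615 + 60480 * l^2 - 26460 * s + 6480 * s * l + 80640 * s * l^2 - 44640 * s^2 + 8640 * s^2 * l - 88320 * s^2 * l^2 + 297056 * s^3 - 40320 * s^3 * l - 2288640 * s^3 * l^2 + 179520 * s^4 + 92160 * s^4 * l + 583680 * s^4 * l^2 - 2560 * s^5 - 184320 * s^5 * l + 491520 * s^5 * l^2 - 61440 * s^6 - 368640 * s^6 * l - 65536 * s^7) = 0 := by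
    linear_combination (1/1536) * ((9216 * s^2) * o4 - (483840 - 4423680 * l^2 + 92160 * s - 13271040 * s * l + 5898240 * s * l^2 + 2211840 * s * D + 13255680 * s^2 - 8847360 * s^2 * l^2 - 2949120 * s^2 * D + 7372800 * s^3 - 4423680 * s^3 * D - 4915200 * s^4 - 1474560 * s^5) * o2 - (2211840 * l + 4976640 * s - 2949120 * s * l + 2211840 * s^2 - 5898240 * s^2 * l + 4423680 * s^3) * g)
  have h1 : (8505 * s - 77760 * s * l^2 + 34020 * s^2 - 61560 * s^2 * l - 103680 * s^2 * l^2 + 17820 * s^3 + 82272 * s^3 * l + 51840 * s^3 * l^2 - 354960 * s^4 - 794560 * s^4 * l + 3617280 * s^4 * l^2 - 776160 * s^5 + 384000 * s^5 * l - 1244160 * s^5 * l^2 + 288000 * s^6 - 1361920 * s^6 * l - 1474560 * s^6 * l^2 + 184320 * s^7 + 258048 * s^7 * l + 327680 * s^8 * l) = 0 := by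
    linear_combination (2) * (l * h0 - (-315/2 - 210 * s + 230 * s^2 + 5960 * s^3 - 1520 * s^4 - 1280 * s^5) * g)
  have h2 : (-10935 * s^2 - 6480 * s^2 * l^2 - 43740 * s^3 - 13500 * s^3 * l + 320064 * s^3 * l^2 - 31590 * s^4 + 59760 * s^4 * l - 1666880 * s^4 * l^2 + 528120 * s^5 + 216480 * s^5 * l - 4657920 * s^5 * l^2 + 1181520 * s^6 - 437760 * s^6 * l - 857600 * s^6 * l^2 - 673920 * s^7 + 1920000 * s^7 * l + 2727936 * s^7 * l^2 - 552960 * s^8 - 829440 * s^8 * l + 655360 * s^8 * l^2 - 983040 * s^9 * l) = 0 := by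
    linear_combination (2) * (l * h1 - (405/2 * s + 270 * s^2 - 135 * s^3 - 9420 * s^4 + 3240 * s^5 + 3840 * s^6) * g)
  have hR : s^4 * RH s 1 = 0 := by
    unfold RH
    linear_combination (1/128) * ((-650851200 * s^4 - 16989004800 * s^5 + 157823428608 * s^6 - 73054617600 * s^7 + 985468559360 * s^8 + 1813490565120 * s^9 + 3106473508864 * s^10 - 3653983272960 * s^11 + 4741178327040 * s^12 + 143948513280 * s^13 - 2915745923072 * s^14 - 386547056640 * s^15 + 214748364800 * s^16) * h0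
      + (-774489600 * s^3 + 507617280 * s^4 + 26878832640 * s^5 + 74687201280 * s^6 - 135046103040 * s^7 - 311721984000 * s^8 + 1039317073920 * s^9 - 5838974484480 * s^10 + 790458531840 * s^11 + 2835685048320 * s^12 + 144955146240 * s^13 - 241591910400 * s^14) * h1
      + (3219264000 * s^2 - 1355304960 * s^3 + 38559006720 * s^4 - 71871528960 * s^5 + 231328481280 * s^6 - 1821691084800 * s^7 + 1540714659840 * s^8 - 3695223767040 * s^9 - 14344519680 * s^10 + 1999173058560 * s^11 + 225485783040 * s^12 - 161061273600 * s^13) * h2)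
  rcases mul_eq_zero.1 hR with h | h
  · have hs : s = 0 := pow_eq_zero_iff (by norm_num) |>.1 h
    rw [hs] at o2
    exact not_sq_seven (8 * l) (by linear_combination (-1/3) * o2)
  · exact no_root s h

theorem no_rational (k s d a0 a1 : ℚ)
    (A1 : L1 a0 a1 (mA k) = 0) (B1 : L1 a0 a1 (mB k) = 0)
    (A2 : L2 a0 a1 (pv0 s d) (pv1 k s d) (pv2 s) (mA k) = 0)
    (B2 : L2 a0 a1 (pv0 s d) (pv1 k s d) (pv2 s) (mB k) = 0)
    (A3 : L3 a0 a1 (pv0 s d) (pv1 k s d) (pv2 s) (mA k) = 0)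
    (B3 : L3 a0 a1 (pv0 s d) (pv1 k s d) (pv2 s) (mB k) = 0)
    (A4 : L4 a0 a1 (pv0 s d) (pv1 k s d) (pv2 s) (pg0 s d) (pg1 k s d) (pg2 s d) (pg3 k s d)
      (pg4 s) (mA k) = 0) : False := by
  simp only [L1, L2, L3, L4, mA, mB, pv0, pv1, pv2, pg0, pg1, pg2, pg3, pg4]
    at A1 B1 A2 B2 A3 B3 A4
  by_cases hk : k = 0
  · subst hk
    obtain ⟨l, rfl⟩ : ∃ l, a1 = l + 1/8 := ⟨a1 - 1/8, by ring⟩
    obtain ⟨t, rfl⟩ : ∃ t, s = t - 1/2 := ⟨s + 1/2, by ring⟩
    obtain rfl : a0 = (l + 1/8)/4 + 1/64 := by linear_combination A1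
    exact case_zero t l (d^2) (by linear_combination (3072) * A2) (by linear_combination (8192) * A3)
      (by linear_combination (94371840) * A4)
  · obtain rfl : a1 = 1/16 := by
      have : k * (a1 - 1/16) = 0 := by linear_combination B1
      linear_combination (mul_eq_zero.1 this).resolve_left hk
    obtain rfl : a0 = 1/32 - k^2/8 := by linear_combination A1
    have e21 : d^2 = -19/12*k^2 - s^2 - 1/2*s + 67/192 := by
      have : k * (d^2 - (-19/12*k^2 - s^2 - 1/2*s + 67/192)) = 0 := by linear_combination 16 * B2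
      linear_combination (mul_eq_zero.1 this).resolve_left hk
    have e31 : (16*k^2 - 1) * (32*s + 27) = 0 := by
      have : k * ((16*k^2 - 1) * (32*s + 27)) = 0 := by
        linear_combination (-32768) * B3 - 192 * k * e21
      exact (mul_eq_zero.1 this).resolve_left hk
    have f20 : -5/384*k^2*s - 79/1536*k^2 + 1/48*s^3 + 1/64*s^2 + 31/2048*s + 79/6144 = 0 := by
      linear_combination A2 + (1/32*s + 1/64) * e21
    have f30 : -1/3072*k^4 + 7/512*k^2*s + 587/49152*k^2 - 11/4096*s - 923/393216 = 0 := by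
      linear_combination A3 - (1/256*k^2 + 1/2048) * e21
    rcases mul_eq_zero.1 e31 with h | h
    · have h1 : k^2 = 1/16 := by linear_combination (1/16) * h
      have h2 : k^4 = 1/256 := by linear_combination (k^2 + 1/16) * h1
      rw [h1] at f20
      rw [h1, h2] at f30
      obtain rfl : s = -7/8 := by linear_combination (-8192/15) * f30
      norm_num at f20
    · obtain rfl : s = -27/32 := by linear_combination (1/32) * h
      nlinarith [sq_nonneg k]

end NahmCE
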