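import Pool.Agent.Lib.MP_5c0a0e_nt.QSeries

/-! Identification of the constant term `J` with the Gamma function. -/

namespace NahmCE

open MeasureTheory Filter Topology Set Complex

lemma Lq_tendsto {x : ℂ} (hx : 0 < x.re) :
    Tendsto (fun ε : ℝ => Lq ε x - Lmain ε x) (𝓝[>] 0) (𝓝 0) := by
  obtain ⟨C, -, h⟩ := master hx
  have t : Tendsto (fun ε : ℝ => C * ε^5 * (1 + ‖x‖)^7) (𝓝[>] 0) (𝓝 (C * 0^5 * (1 + ‖x‖)^7)) :=
    ((by fun_prop : Continuous fun ε : ℝ => C * ε^5 * (1 + ‖x‖)^7).tendsto 0).mono_left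
      nhdsWithin_le_nhds
  refine squeeze_zero_norm' ?_ (by simpa using t)
  filter_upwards [h] with ε h using h x le_rfl

lemma J_rec {x : ℂ} (hx : 0 < x.re) : exp (J (x+1)) = x * exp (J x) := by
  have hx1 : 0 < (x+1).re := by simp; linarith
  have c1 : Continuous fun ε : ℝ => J (x+1) - J x - (b2 (x+1) - b2 x) * ε / 4
      + (b3 (x+1) - b3 x) * ε^2 / 72 - (b5 (x+1) - b5 x) * ε^4 / 14400 := by fun_prop
  have t1 := (continuous_exp.tendsto _).comp (((Lq_tendsto hx1).sub (Lq_tendsto hx)).add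
    ((c1.tendsto 0).mono_left nhdsWithin_le_nhds))
  have c2 : Continuous fun ε : ℝ => x * hh (ε * x) := by
    have := hh_diff.continuous; fun_prop
  have t2 := (c2.tendsto 0).mono_left (nhdsWithin_le_nhds (s := Ioi 0))
  have e : exp (J (x+1) - J x) = x := by
    have := tendsto_nhds_unique_of_eventuallyEq t1 t2 ?_
    · simpa [hh] using this
    filter_upwards [self_mem_nhdsWithin] with ε hε
    have hε : 0 < ε := hε
    have hε' : (ε:ℂ) ≠ 0 := by exact_mod_cast hε.ne'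
    have h1 := P_rec hε (norm_exp_lt hε hx)
    rw [← exp_add, ← mul_hh] at h1
    have e1 : -(ε:ℂ) + -(ε * x) = -(ε * (x+1)) := by ring
    rw [e1] at h1
    have e2 : Lq ε (x+1) - Lmain ε (x+1) - (Lq ε x - Lmain ε x) + (J (x+1) - J x
      - (b2 (x+1) - b2 x) * ε / 4 + (b3 (x+1) - b3 x) * ε^2 / 72 - (b5 (x+1) - b5 x) * ε^4 / 14400)
      = -Lq ε x + Lq ε (x+1) + -(Real.log ε : ℂ) := by simp only [Lmain]; ring
    simp only [Function.comp]
    rw [e2, exp_add, exp_add, exp_neg (Real.log ε), ← ofReal_exp, Real.exp_log hε]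
    have h2 : exp (-Lq ε x) = ε * x * hh (ε * x) * exp (-Lq ε (x+1)) := h1
    rw [h2, exp_neg]
    field_simp
  rw [exp_sub, div_eq_iff (exp_ne_zero _)] at e
  exact e

lemma J_iter {x : ℂ} (hx : 0 < x.re) (n : ℕ) :
    exp (J (x+n)) = (∏ j ∈ Finset.range n, (x + j)) * exp (J x) := by
  induction n with
  | zero => simp
  | succ n ih =>
    have : 0 < (x+n).re := by simp; positivity
    rw [Finset.prod_range_succ, Nat.cast_succ, ← add_assoc, J_rec this, ih]; ring

lemma exp_neg_lip {a b : ℂ} (ha : 0 ≤ a.re) (hb : 0 ≤ b.re) :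
    ‖exp (-b) - exp (-a)‖ ≤ ‖b - a‖ := by
  have := (convex_halfSpace_re_ge 0).norm_image_sub_le_of_norm_hasDerivWithin_le
    (f := fun z : ℂ => exp (-z)) (f' := fun z => -exp (-z)) (C := 1)
    (fun z _ => by simpa using (hasDerivAt_neg' z).cexp.hasDerivWithinAt)
    (fun z hz => by
      rw [norm_neg, norm_exp, Real.exp_le_one_iff]; simpa using hz) ha hb
  simpa using this

lemma Phi_integrable {x : ℂ} (hx : 0 < x.re) : IntegrableOn (fun t : ℝ => Phi x t) (Ioi 0) := by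
  obtain ⟨C, -, hC⟩ := Phi_deriv_bound hx
  refine integrableOn_of_bound _ _ (fun t _ => ?_)
    (fun t ht => by simpa using hC x le_rfl 0 (by norm_num) t ht)
  simpa using (Phi_hasDerivAt x 0 t).continuousAt.continuousWithinAt

lemma J_balanced {a b : ℂ} (ha : 0 < a.re) (hb : 0 < b.re) :
    Tendsto (fun n : ℕ => J (a + (n+1:ℕ)) + J (b + 1 + (n+1:ℕ)) - J (a + b + (n+1:ℕ))
      - J (1 + (n+1:ℕ))) atTop (𝓝 0) := by
  have t : Tendsto (fun n : ℕ => ‖a - 1‖ * ‖b‖ / (n:ℝ)) atTop (𝓝 0) :=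
    tendsto_const_div_atTop_nhds_zero_nat _
  refine squeeze_zero_norm' ?_ t
  filter_upwards [eventually_gt_atTop 0] with n hn
  have hn' : (0:ℝ) < n := by exact_mod_cast hn
  have p1 : 0 < (a + (n+1:ℕ)).re := by simp; positivity
  have p2 : 0 < (b + 1 + (n+1:ℕ)).re := by simp; positivity
  have p3 : 0 < (a + b + (n+1:ℕ)).re := by simp; positivity
  have p4 : 0 < ((1:ℂ) + (n+1:ℕ)).re := by simp; positivity
  simp only [J]
  have i2 : IntegrableOn (fun t : ℝ => Phi (a + (n+1:ℕ)) t + Phi (b + 1 + (n+1:ℕ)) t) (Ioi 0) :=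
    (Phi_integrable p1).add (Phi_integrable p2)
  have i3 : IntegrableOn (fun t : ℝ => Phi (a + (n+1:ℕ)) t + Phi (b + 1 + (n+1:ℕ)) t
      - Phi (a + b + (n+1:ℕ)) t) (Ioi 0) := i2.sub (Phi_integrable p3)
  rw [← integral_add (Phi_integrable p1) (Phi_integrable p2),
    ← integral_sub i2 (Phi_integrable p3), ← integral_sub i3 (Phi_integrable p4)]
  have hi := (integrableOn_exp_mul_Ioi (a := -(n:ℝ)) (by linarith) 0).const_mul (‖a - 1‖ * ‖b‖)
  refine (norm_integral_le_of_norm_le hi ?_).trans (le_of_eq ?_)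
  · refine (ae_restrict_iff' measurableSet_Ioi).2 (Eventually.of_forall fun s hs => ?_)
    have hs : 0 < s := hs
    have hs' : (s:ℂ) ≠ 0 := by exact_mod_cast hs.ne'
    have hh0 : hh s ≠ 0 := hh_ne (by simp)
    have hp := one_sub_exp_pos hs
    have e1 : (1 - exp (-(s:ℂ))) = ((1 - Real.exp (-s) : ℝ) : ℂ) := by push_cast; rfl
    have hp' : 1 - exp (-(s:ℂ)) ≠ 0 := by rw [e1]; exact_mod_cast hp.ne'
    have e : Phi (a + (n+1:ℕ)) s + Phi (b + 1 + (n+1:ℕ)) s - Phi (a + b + (n+1:ℕ)) s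
        - Phi (1 + (n+1:ℕ)) s = ((Real.exp (-((n+1) * s)) : ℝ) : ℂ) *
          ((exp (-(a*s)) - exp (-(s:ℂ))) * (exp (-0) - exp (-(b*s))) / (s * (1 - exp (-(s:ℂ))))) := by
      rw [Phi_eq _ hs' hh0, Phi_eq _ hs' hh0, Phi_eq _ hs' hh0, Phi_eq _ hs' hh0]
      push_cast
      have f1 : exp (-((a + (n+1)) * s)) = exp (-((n+1) * s)) * exp (-(a*s)) := by
        rw [← exp_add]; congr 1; ring
      have f2 : exp (-((b + 1 + (n+1)) * s)) = exp (-((n+1) * s)) * exp (-(b*s)) * exp (-(s:ℂ)) := by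
        rw [← exp_add, ← exp_add]; congr 1; ring
      have f3 : exp (-((a + b + (n+1)) * s)) = exp (-((n+1) * s)) * exp (-(a*s)) * exp (-(b*s)) := by
        rw [← exp_add, ← exp_add]; congr 1; ring
      have f4 : exp (-((1 + (n+1)) * s)) = exp (-((n+1) * s)) * exp (-(s:ℂ)) := by
        rw [← exp_add]; congr 1; ring
      rw [f1, f2, f3, f4, neg_zero, exp_zero]
      field_simp
      ring
    rw [e, norm_mul, norm_div, norm_mul, norm_mul, e1, norm_real, norm_real, norm_real,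
      Real.norm_eq_abs, Real.norm_eq_abs, Real.norm_eq_abs, abs_of_pos (Real.exp_pos _),
      abs_of_pos hs, abs_of_pos hp]
    have l1 : ‖exp (-(a*s)) - exp (-(s:ℂ))‖ ≤ ‖a - 1‖ * s := by
      refine (exp_neg_lip (by simpa using hs.le) (by simp; positivity)).trans (le_of_eq ?_)
      rw [show a * s - s = (a - 1) * s by ring, norm_mul, norm_real, Real.norm_eq_abs, abs_of_pos hs]
    have l2 : ‖exp (-0) - exp (-(b*s))‖ ≤ ‖b‖ * s := by
      refine (exp_neg_lip (by simp; positivity) (by simp)).trans (le_of_eq ?_)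
      rw [zero_sub, norm_neg, norm_mul, norm_real, Real.norm_eq_abs, abs_of_pos hs]
    have l3 : s ≤ Real.exp s * (1 - Real.exp (-s)) := by
      rw [mul_sub, ← Real.exp_add]; simp; linarith [Real.add_one_le_exp s]
    have l4 : ‖exp (-(a*s)) - exp (-(s:ℂ))‖ * ‖exp (-0) - exp (-(b*s))‖ / (s * (1 - Real.exp (-s)))
        ≤ ‖a - 1‖ * ‖b‖ * Real.exp s := by
      rw [div_le_iff₀ (by positivity)]
      calc _ ≤ ‖a - 1‖ * s * (‖b‖ * s) := mul_le_mul l1 l2 (norm_nonneg _) (by positivity)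
        _ = ‖a - 1‖ * ‖b‖ * s * s := by ring
        _ ≤ ‖a - 1‖ * ‖b‖ * s * (Real.exp s * (1 - Real.exp (-s))) :=
          mul_le_mul_of_nonneg_left l3 (by positivity)
        _ = _ := by ring
    calc _ ≤ Real.exp (-((n+1) * s)) * (‖a - 1‖ * ‖b‖ * Real.exp s) :=
          mul_le_mul_of_nonneg_left l4 (by positivity)
      _ = ‖a - 1‖ * ‖b‖ * (Real.exp (-((n+1) * s)) * Real.exp s) := by ring
      _ = _ := by rw [← Real.exp_add]; congr 2; ring
  · rw [integral_const_mul, integral_exp_mul_Ioi (by linarith)]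
    simp [div_eq_mul_inv]

theorem J_beta {a b : ℂ} (ha : 0 < a.re) (hb : 0 < b.re) :
    exp (J a + J b - J (a+b)) = exp (J 1) * betaIntegral a b := by
  have hb1 : 0 < (b+1).re := by simp; linarith
  have hab : 0 < (a+b).re := by simp; linarith
  have h1 : 0 < (1:ℂ).re := by simp
  have t1 := (continuous_exp.tendsto _).comp (J_balanced ha hb)
  have t2 := (((GammaSeq_tendsto_Gamma (a+b)).mul (GammaSeq_tendsto_Gamma 1)).div
    ((GammaSeq_tendsto_Gamma a).mul (GammaSeq_tendsto_Gamma (b+1)))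
    (mul_ne_zero (Gamma_ne_zero_of_re_pos ha) (Gamma_ne_zero_of_re_pos hb1))).mul_const
      (exp (J a) * exp (J (b+1)) / (exp (J (a+b)) * exp (J 1)))
  have e := tendsto_nhds_unique_of_eventuallyEq t1 t2 ?_
  · rw [exp_zero, Gamma_one, Gamma_add_one b (by rintro rfl; simp at hb), J_rec hb] at e
    have hb0 : b ≠ 0 := by rintro rfl; simp at hb
    have g1 := Gamma_ne_zero_of_re_pos ha
    have g2 := Gamma_ne_zero_of_re_pos hb
    have g3 := Gamma_ne_zero_of_re_pos hab
    rw [betaIntegral_eq_Gamma_mul_div a b ha hb, exp_sub, exp_add]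
    have := exp_ne_zero (J (a+b))
    have := exp_ne_zero (J 1)
    field_simp at e ⊢
    linear_combination -e
  · filter_upwards [eventually_gt_atTop 0] with n hn
    have hn' : (n:ℂ) ≠ 0 := by exact_mod_cast hn.ne'
    have pn : ∀ x : ℂ, 0 < x.re → ∏ j ∈ Finset.range (n+1), (x + j) ≠ 0 := fun x hx =>
      Finset.prod_ne_zero_iff.2 fun j _ h => by
        have := congrArg re h
        simp at this
        linarith [Nat.cast_nonneg (α := ℝ) j]
    simp only [Function.comp, Pi.div_apply]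
    rw [exp_sub, exp_sub, exp_add, J_iter ha, J_iter hb1, J_iter hab, J_iter h1]
    simp only [GammaSeq]
    rw [cpow_add _ _ hn', cpow_add _ _ hn', cpow_one]
    have := pn _ ha
    have := pn _ hb1
    have := pn _ hab
    have := pn _ h1
    have := exp_ne_zero (J (a+b))
    have := exp_ne_zero (J 1)
    have : (n:ℂ)^a ≠ 0 := by simp [cpow_eq_zero_iff, hn']
    have : (n:ℂ)^b ≠ 0 := by simp [cpow_eq_zero_iff, hn']
    have : (n.factorial : ℂ) ≠ 0 := by exact_mod_cast n.factorial_ne_zero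
    field_simp

end NahmCE
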