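import Pool.Agent.Lib.MP_5c0a0e_nt.QSeries

/-! The real Nahm sum of the example: summability, recursion, integral representation. -/

namespace NahmCE

open MeasureTheory Filter Topology Set Complex

noncomputable def QF (x : Fin 4 → ℝ) : ℝ :=
  x 0 * x 1 + x 2^2/2 + x 3^2/2 + (x 0 - 2 * x 1 - x 2 - x 3)^2/3

lemma QF_lower (x : Fin 4 → ℝ) : (x 0^2 + x 1^2 + x 2^2 + x 3^2)/30 ≤ QF x := by
  have : QF x - (x 0^2 + x 1^2 + x 2^2 + x 3^2)/30
      = 3/10 * (x 0 - 5/9 * x 1 - 10/9 * x 2 - 10/9 * x 3)^2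
        + 163/135 * (x 1 + 65/163 * x 2 + 65/163 * x 3)^2
        + 581/2445 * (x 2 - 80/83 * x 3)^2 + 7/415 * x 3^2 := by
    simp only [QF]; ring
  have h : 0 ≤ 3/10 * (x 0 - 5/9 * x 1 - 10/9 * x 2 - 10/9 * x 3)^2
        + 163/135 * (x 1 + 65/163 * x 2 + 65/163 * x 3)^2
        + 581/2445 * (x 2 - 80/83 * x 3)^2 + 7/415 * x 3^2 := by positivity
  linarith

noncomputable def expo (B : Fin 4 → ℝ) (C : ℝ) (n : Fin 4 → ℕ) : ℝ :=
  QF (fun i => n i) + (B 0 * n 0 + B 1 * n 1 + B 2 * n 2 + B 3 * n 3) + C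

noncomputable def term (ε : ℝ) (B : Fin 4 → ℝ) (C : ℝ) (n : Fin 4 → ℕ) : ℝ :=
  Real.exp (-(ε * expo B C n)) / (qp ε (n 0) * qp ε (n 1) * qp ε (n 2) * qp ε (n 3))

noncomputable def FF (ε : ℝ) (B : Fin 4 → ℝ) (C : ℝ) : ℝ := ∑' n, term ε B C n

def eqv : (ℕ × ℕ) × ℕ × ℕ ≃ (Fin 4 → ℕ) where
  toFun p := ![p.1.1, p.1.2, p.2.1, p.2.2]
  invFun n := ((n 0, n 1), (n 2, n 3))
  left_inv p := by simp
  right_inv n := by funext i; fin_cases i <;> simp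

lemma expo_lower (B : Fin 4 → ℝ) (C : ℝ) : ∃ K : ℝ, 0 ≤ K ∧ ∀ n : Fin 4 → ℕ,
    (n 0 + n 1 + n 2 + n 3 : ℝ) - K ≤ expo B C n := by
  refine ⟨15/2 * ((B 0 - 1)^2 + (B 1 - 1)^2 + (B 2 - 1)^2 + (B 3 - 1)^2) + |C|, by positivity,
    fun n => ?_⟩
  have h := QF_lower (fun i => n i)
  simp only [expo]
  nlinarith [sq_nonneg ((n 0:ℝ) + 15 * (B 0 - 1)), sq_nonneg ((n 1:ℝ) + 15 * (B 1 - 1)),
    sq_nonneg ((n 2:ℝ) + 15 * (B 2 - 1)), sq_nonneg ((n 3:ℝ) + 15 * (B 3 - 1)), neg_abs_le C]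

lemma qp_mono {δ ε : ℝ} (hδ : 0 < δ) (h : δ ≤ ε) (n : ℕ) : qp δ n ≤ qp ε n := by
  refine Finset.prod_le_prod (fun j _ => (one_sub_pos' hδ j).le) fun j _ => ?_
  have : Real.exp (-(ε * ((j:ℝ)+1))) ≤ Real.exp (-(δ * ((j:ℝ)+1))) :=
    Real.exp_le_exp.2 (by nlinarith [Nat.cast_nonneg (α := ℝ) j])
  linarith

lemma term_pos {ε : ℝ} (hε : 0 < ε) (B : Fin 4 → ℝ) (C : ℝ) (n : Fin 4 → ℕ) :
    0 < term ε B C n := by
  have := qp_pos hε
  exact div_pos (Real.exp_pos _) (mul_pos (mul_pos (mul_pos (this _) (this _)) (this _)) (this _))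

lemma term_bound {δ : ℝ} (hδ : 0 < δ) (M : ℝ) (B : Fin 4 → ℝ) (C : ℝ) :
    ∃ u : (Fin 4 → ℕ) → ℝ, Summable u ∧ ∀ ε, δ ≤ ε → ε ≤ M → ∀ n, term ε B C n ≤ u n := by
  obtain ⟨K, hK, h⟩ := expo_lower B C
  obtain ⟨c, hc, hq⟩ := qp_lower hδ
  set x := Real.exp (-δ) with hx
  have hx0 : 0 ≤ x := (Real.exp_pos _).le
  have hx1 : x < 1 := by simpa [hx] using hδ
  refine ⟨fun n => Real.exp (M * K) / c^4 * ((x^(n 0) * x^(n 1)) * (x^(n 2) * x^(n 3))), ?_, ?_⟩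
  · rw [← eqv.summable_iff]
    exact ((summable_geo2 hx0 hx1 hx0 hx1).mul_of_nonneg (summable_geo2 hx0 hx1 hx0 hx1)
      (fun _ => by positivity) (fun _ => by positivity)).mul_left _
  · intro ε h1 h2 n
    have hq' : ∀ k, c ≤ qp ε k := fun k => (hq k).trans (qp_mono hδ h1 k)
    beta_reduce
    rw [term, div_mul_eq_mul_div]
    refine div_le_div₀ (by positivity) ?_ (by positivity) ?_
    · rw [hx, ← Real.exp_nat_mul, ← Real.exp_nat_mul, ← Real.exp_nat_mul, ← Real.exp_nat_mul,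
        ← Real.exp_add, ← Real.exp_add, ← Real.exp_add, ← Real.exp_add, Real.exp_le_exp]
      have h3 : 0 ≤ (n 0 + n 1 + n 2 + n 3 : ℝ) := by positivity
      nlinarith [mul_le_mul_of_nonneg_left (h n) (hδ.le.trans h1),
        mul_le_mul_of_nonneg_right h1 h3, mul_le_mul_of_nonneg_right h2 hK]
    · calc c^4 = c * c * c * c := by ring
        _ ≤ _ := by
          have := fun k => (hc.le.trans (hq' k))
          exact mul_le_mul (mul_le_mul (mul_le_mul (hq' _) (hq' _) hc.le (this _)) (hq' _) hc.le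
            (mul_nonneg (this _) (this _))) (hq' _) hc.le
            (mul_nonneg (mul_nonneg (this _) (this _)) (this _))

lemma term_summable {ε : ℝ} (hε : 0 < ε) (B : Fin 4 → ℝ) (C : ℝ) : Summable (term ε B C) := by
  obtain ⟨u, hu, h⟩ := term_bound hε ε B C
  exact Summable.of_nonneg_of_le (fun n => (term_pos hε B C n).le) (h ε le_rfl le_rfl) hu

lemma FF_pos {ε : ℝ} (hε : 0 < ε) (B : Fin 4 → ℝ) (C : ℝ) : 0 < FF ε B C :=
  (term_summable hε B C).tsum_pos (fun n => (term_pos hε B C n).le) 0 (term_pos hε B C 0)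

noncomputable def AR : Fin 4 → Fin 4 → ℝ :=
  ![![2/3, -1/3, -2/3, -2/3], ![-1/3, 8/3, 4/3, 4/3], ![-2/3, 4/3, 5/3, 2/3], ![-2/3, 4/3, 2/3, 5/3]]

lemma qp_succ' (ε : ℝ) (n : ℕ) : qp ε (n+1) = qp ε n * (1 - Real.exp (-(ε * ((n:ℝ)+1)))) := by
  rw [qp, Finset.prod_range_succ, ← qp]

lemma expo_shift1 (B : Fin 4 → ℝ) (C : ℝ) (i : Fin 4) (n : Fin 4 → ℕ) :
    expo (B + Pi.single i 1) C n = expo B C n + n i := by
  fin_cases i <;> simp [expo] <;> ring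

lemma expo_shift2 (B : Fin 4 → ℝ) (C : ℝ) (i : Fin 4) (n : Fin 4 → ℕ) :
    expo B C (n + Pi.single i 1) = expo (B + AR i) (C + AR i i / 2 + B i) n := by
  fin_cases i <;> simp [expo, QF, AR] <;> ring

theorem FF_rec {ε : ℝ} (hε : 0 < ε) (B : Fin 4 → ℝ) (C : ℝ) (i : Fin 4) :
    FF ε B C = FF ε (B + Pi.single i 1) C + FF ε (B + AR i) (C + AR i i / 2 + B i) := by
  have h1 := (term_summable hε B C).hasSum.sub (term_summable hε (B + Pi.single i 1) C).hasSum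
  have h2 := (term_summable hε (B + AR i) (C + AR i i / 2 + B i)).hasSum
  have hinj : Function.Injective (fun n : Fin 4 → ℕ => n + Pi.single i 1) := add_left_injective _
  have e : ∀ n, term ε B C n - term ε (B + Pi.single i 1) C n
      = term ε B C n * (1 - Real.exp (-(ε * n i))) := by
    intro n
    simp only [term, expo_shift1]
    rw [mul_add, neg_add, Real.exp_add]; ring
  have := h1.unique ((hinj.hasSum_iff ?_).1 (h2.congr_fun ?_))
  · simp only [FF]; linarith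
  · intro n hn
    have : n i = 0 := by
      by_contra h0
      refine hn ⟨n - Pi.single i 1, ?_⟩
      funext j
      by_cases hj : j = i
      · subst hj; simp; omega
      · simp [hj]
    rw [e, this]; simp
  · intro n
    have hq := fun k => (qp_pos hε k).ne'
    have h0 := (one_sub_pos' hε (n i)).ne'
    simp only [Function.comp, e]
    simp only [term, expo_shift2]
    fin_cases i <;> simp [qp_succ'] at h0 ⊢ <;> field_simp

/-- The integrand, term by term. -/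
noncomputable def Gt (ε : ℝ) (B : Fin 4 → ℝ) (C b y : ℝ) (p : (ℕ × ℕ) × ℕ × ℕ) : ℂ :=
  exp (3 * ε * (((B 1 - b)/2 : ℝ) + y * I)^2 / 4 - ε * C)
    * (Ht ε (exp (-(ε * ((B 0 + B 1/2 - b/2 : ℝ) + y * I)))) (exp (-(ε * (b - 2 * y * I)))) p.1
    * (Ot ε (exp (-(ε * ((B 2 - B 1/2 + 1/2 + b/2 : ℝ) - y * I)))) p.2.1
    * Ot ε (exp (-(ε * ((B 3 - B 1/2 + 1/2 + b/2 : ℝ) - y * I)))) p.2.2))

noncomputable def mm (p : (ℕ × ℕ) × ℕ × ℕ) : ℝ := p.1.1 - 2 * p.1.2 - p.2.1 - p.2.2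

lemma Gt_eq (ε : ℝ) (B : Fin 4 → ℝ) (C b y : ℝ) (p : (ℕ × ℕ) × ℕ × ℕ) :
    Gt ε B C b y p = ((term ε B C (eqv p) * Real.exp (ε * (mm p - 3 * (B 1 - b) / 4)^2 / 3) : ℝ) : ℂ)
      * exp (((-(3 * ε / 4) : ℝ) : ℂ) * y^2
        + (I * ((3 * ε * (B 1 - b) / 4 - ε * mm p : ℝ) : ℂ)) * y + 0) := by
  simp only [Gt, Ht, Ot, term, ← exp_nat_mul, eqv, Equiv.coe_fn_mk, expo, QF, mm,
    Matrix.cons_val_zero, Matrix.cons_val_one, Matrix.cons_val]
  push_cast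
  simp only [div_eq_mul_inv, mul_inv]
  have : ∀ a1 a2 a3 a4 a5 a6 a7 a8 c1 c2 c3 q1 q2 q3 q4 : ℂ,
      a1 + a2 + a3 + a4 + a5 + a6 + a7 + a8 = c1 + c2 + c3 →
      exp a1 * (exp a2 * exp a3 * exp a4 * (q1 * q2) * (exp a5 * exp a6 * q3 * (exp a7 * exp a8 * q4)))
      = exp c1 * (q1 * q2 * q3 * q4) * exp c2 * exp c3 := by
    intro a1 a2 a3 a4 a5 a6 a7 a8 c1 c2 c3 q1 q2 q3 q4 h
    have := congrArg exp h
    simp only [exp_add] at this
    linear_combination (q1 * q2 * q3 * q4) * this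
  refine this _ _ _ _ _ _ _ _ _ _ _ _ _ _ _ ?_
  linear_combination (3 * ε * y^2 / 4) * I_sq

lemma Gt_norm {ε : ℝ} (B : Fin 4 → ℝ) (C b y : ℝ) (p : (ℕ × ℕ) × ℕ × ℕ) :
    ‖Gt ε B C b y p‖ = ‖Gt ε B C b 0 p‖ * Real.exp (-(3 * ε / 4) * y^2) := by
  rw [Gt_eq, Gt_eq, norm_mul, norm_mul, norm_exp, norm_exp]
  simp [← ofReal_pow]

lemma Gt_zero {ε : ℝ} (hε : 0 < ε) (B : Fin 4 → ℝ) (C b : ℝ) (p : (ℕ × ℕ) × ℕ × ℕ) :
    Gt ε B C b 0 p = (‖Gt ε B C b 0 p‖ : ℝ) := by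
  have := term_pos hε B C (eqv p)
  rw [Gt_eq, norm_mul, norm_real, Real.norm_eq_abs, abs_of_pos (by positivity)]
  simp

/-- The admissible range of the contour parameter. -/
structure Adm (B : Fin 4 → ℝ) (b : ℝ) : Prop where
  h0 : 0 < B 0 + B 1/2 - b/2
  h1 : 0 < b
  h2 : 0 < B 2 - B 1/2 + 1/2 + b/2
  h3 : 0 < B 3 - B 1/2 + 1/2 + b/2

noncomputable def II (ε : ℝ) (B : Fin 4 → ℝ) (C b y : ℝ) : ℂ := ∑' p, Gt ε B C b y p

lemma Gt_aux {ε : ℝ} (hε : 0 < ε) {B : Fin 4 → ℝ} {b : ℝ} (h : Adm B b) (C y : ℝ) :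
    (Summable fun p => ‖Gt ε B C b y p‖) ∧ II ε B C b y =
      exp (3 * ε * (((B 1 - b)/2 : ℝ) + y * I)^2 / 4 - ε * C
        + (Lq ε ((B 0 + B 1/2 - b/2 : ℝ) + y * I) + Lq ε (b - 2 * y * I)
          - Lq ε (((B 0 + B 1/2 - b/2 : ℝ) + y * I) + (b - 2 * y * I)))
        + ((Lq ε ((B 2 - B 1/2 + 1/2 + b/2 : ℝ) - y * I)
          - Lq (2*ε) ((B 2 - B 1/2 + 1/2 + b/2 : ℝ) - y * I))
        + (Lq ε ((B 3 - B 1/2 + 1/2 + b/2 : ℝ) - y * I)
          - Lq (2*ε) ((B 3 - B 1/2 + 1/2 + b/2 : ℝ) - y * I)))) := by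
  have r0 : 0 < (((B 0 + B 1/2 - b/2 : ℝ):ℂ) + y * I).re := by
    simpa only [add_re, ofReal_re, mul_re, I_re, ofReal_im, I_im, mul_zero, mul_one, sub_zero,
      add_zero] using h.h0
  have r1 : 0 < ((b:ℂ) - 2 * y * I).re := by simpa using h.h1
  have r2 : 0 < (((B 2 - B 1/2 + 1/2 + b/2 : ℝ):ℂ) - y * I).re := by
    simpa only [sub_re, ofReal_re, mul_re, I_re, ofReal_im, I_im, mul_zero, mul_one, sub_zero,
      add_zero] using h.h2
  have r3 : 0 < (((B 3 - B 1/2 + 1/2 + b/2 : ℝ):ℂ) - y * I).re := by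
    simpa only [sub_re, ofReal_re, mul_re, I_re, ofReal_im, I_im, mul_zero, mul_one, sub_zero,
      add_zero] using h.h3
  have s1 := Ht_summable hε (norm_exp_lt hε r0) (norm_exp_lt hε r1)
  have s2 := Ot_summable hε (norm_exp_lt hε r2)
  have s3 := Ot_summable hε (norm_exp_lt hε r3)
  constructor
  · simp only [Gt]
    simp only [norm_mul (exp _)]
    exact (s1.mul_norm (s2.mul_norm s3)).mul_left _
  · rw [exp_add, exp_add, exp_add, ← H_exp hε r0 r1, ← O_exp hε r2, ← O_exp hε r3, O, O, H,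
      tsum_mul_tsum_of_summable_norm s2 s3, mul_assoc,
      tsum_mul_tsum_of_summable_norm s1 (s2.mul_norm s3), ← tsum_mul_left]
    rfl

lemma II_bound {ε : ℝ} (hε : 0 < ε) {B : Fin 4 → ℝ} {b : ℝ} (h : Adm B b) (C y : ℝ) :
    ‖II ε B C b y‖ ≤ ‖II ε B C b 0‖ * Real.exp (-(3 * ε / 4) * y^2) := by
  refine (norm_tsum_le_tsum_norm (Gt_aux hε h C y).1).trans (le_of_eq ?_)
  simp only [Gt_norm B C b y]
  rw [tsum_mul_right]
  congr 1
  have : II ε B C b 0 = ((∑' p, ‖Gt ε B C b 0 p‖ : ℝ) : ℂ) := by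
    rw [ofReal_tsum, II]; exact tsum_congr (Gt_zero hε B C b)
  rw [this, norm_real, Real.norm_eq_abs, abs_of_nonneg (tsum_nonneg fun _ => norm_nonneg _)]

theorem FF_integral {ε : ℝ} (hε : 0 < ε) {B : Fin 4 → ℝ} {b : ℝ} (h : Adm B b) (C : ℝ) :
    Integrable (II ε B C b) ∧
    ∫ y, II ε B C b y = (Real.sqrt (4 * Real.pi / (3 * ε)) * FF ε B C : ℝ) := by
  have hb : ((-(3 * ε / 4) : ℝ) : ℂ).re < 0 := by rw [ofReal_re]; linarith
  have i1 : ∀ p, Integrable fun y => Gt ε B C b y p := fun p => by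
    simp only [Gt_eq]
    exact (integrable_cexp_quadratic' hb _ _).const_mul _
  have i2 : Summable fun p => ∫ y, ‖Gt ε B C b y p‖ := by
    refine ((Gt_aux hε h C 0).1.mul_right (∫ y : ℝ, Real.exp (-(3 * ε / 4) * y^2))).congr
      fun p => ?_
    rw [← integral_const_mul]
    exact integral_congr_ae (Eventually.of_forall fun y => (Gt_norm B C b y p).symm)
  have hs := hasSum_integral_of_summable_integral_norm i1 i2
  have e : ∀ p, ∫ y, Gt ε B C b y p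
      = ((Real.sqrt (4 * Real.pi / (3 * ε)) * term ε B C (eqv p) : ℝ) : ℂ) := by
    intro p
    simp only [Gt_eq]
    rw [integral_const_mul, integral_cexp_quadratic hb]
    have e1 : ((Real.pi:ℂ) / -((-(3 * ε / 4) : ℝ) : ℂ)) ^ (1 / 2 : ℂ)
        = (Real.sqrt (4 * Real.pi / (3 * ε)) : ℝ) := by
      rw [Real.sqrt_eq_rpow, ofReal_cpow (by positivity)]
      congr 1
      · push_cast; field_simp
      · push_cast; rfl
    have e2 : (0:ℂ) - (I * ((3 * ε * (B 1 - b) / 4 - ε * mm p : ℝ) : ℂ))^2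
        / (4 * ((-(3 * ε / 4) : ℝ) : ℂ)) = ((-(ε * (mm p - 3 * (B 1 - b) / 4)^2 / 3) : ℝ) : ℂ) := by
      have : (ε:ℂ) ≠ 0 := by exact_mod_cast hε.ne'
      rw [mul_pow, I_sq]; push_cast; field_simp; ring
    rw [e1, e2, ← ofReal_exp, Real.exp_neg]
    have := Real.exp_pos (ε * (mm p - 3 * (B 1 - b) / 4)^2 / 3)
    norm_cast
    field_simp
  simp only [e] at hs
  have hs2 := hasSum_ofReal.2
    ((eqv.hasSum_iff.2 (term_summable hε B C).hasSum).mul_left (Real.sqrt (4 * Real.pi / (3 * ε))))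
  have e3 : ∫ y, II ε B C b y = (Real.sqrt (4 * Real.pi / (3 * ε)) * FF ε B C : ℝ) :=
    hs.unique hs2
  refine ⟨?_, e3⟩
  by_contra hn
  rw [integral_undef hn] at e3
  have : 0 < Real.sqrt (4 * Real.pi / (3 * ε)) * FF ε B C :=
    mul_pos (by positivity) (FF_pos hε B C)
  exact this.ne' (by exact_mod_cast e3.symm)

end NahmCE
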