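import Pool.Agent.Lib.MP_5c0a0e_nt.Coef
import Pool.Agent.Lib.MP_5c0a0e_nt.Sum
import Pool.Agent.Lib.MP_5c0a0e_nt.GammaJ

/-! The asymptotic expansion of the Nahm sum in the admissible region. -/

namespace NahmCE

open MeasureTheory Filter Topology Set Complex Asymptotics

noncomputable def UU (B : Fin 4 → ℝ) (c : ℝ) (z : ℂ) : ℂ :=
  (pa0 (ss B) (dd B) (B 1) c : ℝ) + (pa1 (kap B) (ss B) (B 1) : ℝ) * z + 1/4 * z^2

noncomputable def VV (B : Fin 4 → ℝ) (z : ℂ) : ℂ :=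
  (pv0 (ss B) (dd B) : ℝ) + (pv1 (kap B) (ss B) (dd B) : ℝ) * z + (pv2 (ss B) : ℝ) * z^2

noncomputable def ZZ (B : Fin 4 → ℝ) (z : ℂ) : ℂ :=
  (pg0 (ss B) (dd B) : ℝ) + (pg1 (kap B) (ss B) (dd B) : ℝ) * z + (pg2 (ss B) (dd B) : ℝ) * z^2
    + (pg3 (kap B) (ss B) (dd B) : ℝ) * z^3 + (pg4 (ss B) : ℝ) * z^4

noncomputable def nrm (ε : ℝ) : ℝ := Real.exp (-(Real.pi^2/3/ε) + Real.log ε / 2)

noncomputable def EE (B : Fin 4 → ℝ) (b : ℝ) : ℂ :=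
  exp (J 1) * Real.exp (-((ss B + b) * Real.log 2))

noncomputable def Rm (ε : ℝ) (x : ℂ) : ℂ := Lq ε x - Lmain ε x

noncomputable def RR (ε : ℝ) (B : Fin 4 → ℝ) (b y : ℝ) : ℂ :=
  Rm ε ((B 0 + B 1/2 - b/2 : ℝ) + y * I) + Rm ε (b - 2 * y * I)
    - Rm ε (((B 0 + B 1/2 - b/2 : ℝ) + y * I) + (b - 2 * y * I))
    + Rm ε ((B 2 - B 1/2 + 1/2 + b/2 : ℝ) - y * I) - Rm (2*ε) ((B 2 - B 1/2 + 1/2 + b/2 : ℝ) - y * I)
    + Rm ε ((B 3 - B 1/2 + 1/2 + b/2 : ℝ) - y * I) - Rm (2*ε) ((B 3 - B 1/2 + 1/2 + b/2 : ℝ) - y * I)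

lemma II_eq {ε : ℝ} (hε : 0 < ε) {B : Fin 4 → ℝ} {b : ℝ} (h : Adm B b) (c y : ℝ) :
    II ε B c b y * nrm ε = EE B b * F0 (B 0 + B 1/2 - b/2) b y
      * exp (ε * UU B c (-b/2 + y * I) + ε^2 * VV B (-b/2 + y * I) + ε^4 * ZZ B (-b/2 + y * I)
        + RR ε B b y) := by
  have r0 : 0 < (((B 0 + B 1/2 - b/2 : ℝ):ℂ) + y * I).re := by
    simpa only [add_re, ofReal_re, mul_re, I_re, ofReal_im, I_im, mul_zero, mul_one, sub_zero,
      add_zero] using h.h0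
  have r1 : 0 < ((b:ℂ) - 2 * y * I).re := by simpa using h.h1
  have hb := J_beta r0 r1
  have e : EE B b * F0 (B 0 + B 1/2 - b/2) b y
      = exp (J ((B 0 + B 1/2 - b/2 : ℝ) + y * I) + J (b - 2 * y * I)
        - J (((B 0 + B 1/2 - b/2 : ℝ) + y * I) + (b - 2 * y * I))
        + ((-((ss B + b) * Real.log 2) : ℝ) + y * Real.log 4 * I)) := by
    rw [exp_add, hb, exp_add, EE, F0, ofReal_exp]; ring
  rw [e, (Gt_aux hε h c y).2, nrm, ofReal_exp, ← exp_add, ← exp_add]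
  congr 1
  have l4 : Real.log 4 = 2 * Real.log 2 := by
    rw [show (4:ℝ) = 2^2 by norm_num, Real.log_pow]; norm_num
  simp only [RR, Rm, Lmain, UU, VV, ZZ, Real.log_mul two_ne_zero hε.ne', l4, b2, b3, b5, pa0, pa1,
    pv0, pv1, pv2, pg0, pg1, pg2, pg3, pg4, kap, ss, dd]
  push_cast
  ring

lemma norm_line_le (r t y : ℝ) (ht : |t| ≤ 2) :
    1 + ‖(r:ℂ) + t * y * I‖ ≤ (3 + |r|) * (1 + |y|) := by
  have : ‖(r:ℂ) + t * y * I‖ ≤ |r| + |t| * |y| := by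
    refine (norm_add_le _ _).trans (le_of_eq ?_); simp
  nlinarith [abs_nonneg r, abs_nonneg y, mul_nonneg (abs_nonneg r) (abs_nonneg y)]

lemma Rm_bound {r : ℝ} (hr : 0 < r) : ∃ K : ℝ, 0 ≤ K ∧ ∀ᶠ ε : ℝ in 𝓝[>] 0, ∀ t y : ℝ, |t| ≤ 2 →
    ‖Rm ε (r + t * y * I)‖ ≤ K * ε^5 * (1 + |y|)^7 ∧
    ‖Rm (2*ε) (r + t * y * I)‖ ≤ K * ε^5 * (1 + |y|)^7 := by
  obtain ⟨C, hC, h⟩ := master hr
  have t2 : Tendsto (fun ε : ℝ => 2 * ε) (𝓝[>] 0) (𝓝[>] 0) := by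
    refine tendsto_nhdsWithin_of_tendsto_nhds_of_eventually_within _ ?_ ?_
    · simpa using ((continuous_const_mul (2:ℝ)).tendsto 0).mono_left nhdsWithin_le_nhds
    · filter_upwards [self_mem_nhdsWithin] with ε hε using mul_pos two_pos (show 0 < ε from hε)
  refine ⟨32 * C * (3 + |r|)^7, by positivity, ?_⟩
  filter_upwards [h, t2.eventually h, self_mem_nhdsWithin] with ε h1 h2 hε t y ht
  have hε : 0 < ε := hε
  have hp := pow_le_pow_left₀ (by positivity) (norm_line_le r t y ht) 7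
  rw [mul_pow] at hp
  have h3 : C * ε^5 * (1 + ‖(r:ℂ) + t * y * I‖)^7 ≤ C * ε^5 * ((3 + |r|)^7 * (1 + |y|)^7) :=
    mul_le_mul_of_nonneg_left hp (by positivity)
  have h4 : 0 ≤ C * ε^5 * ((3 + |r|)^7 * (1 + |y|)^7) := by positivity
  constructor
  · refine (h1 _ (by simp)).trans ?_
    linarith
  · refine (h2 _ (by simp)).trans ?_
    linarith

lemma RR_bound {B : Fin 4 → ℝ} {b : ℝ} (h : Adm B b) : ∃ K : ℝ, ∀ᶠ ε : ℝ in 𝓝[>] 0,
    ∀ y : ℝ, ‖RR ε B b y‖ ≤ K * ε^5 * (1 + |y|)^7 := by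
  obtain ⟨K0, -, h0⟩ := Rm_bound h.h0
  obtain ⟨K1, -, h1⟩ := Rm_bound h.h1
  obtain ⟨K4, -, h4⟩ := Rm_bound (add_pos h.h0 h.h1)
  obtain ⟨K2, -, h2⟩ := Rm_bound h.h2
  obtain ⟨K3, -, h3⟩ := Rm_bound h.h3
  refine ⟨K0 + K1 + K4 + K2 + K2 + K3 + K3, ?_⟩
  filter_upwards [h0, h1, h4, h2, h3] with ε h0 h1 h4 h2 h3 y
  have a0 := (h0 1 y (by norm_num)).1
  have a1 := (h1 (-2) y (by norm_num)).1
  have a4 := (h4 (-1) y (by norm_num)).1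
  have a2 := h2 (-1) y (by norm_num)
  have a3 := h3 (-1) y (by norm_num)
  have e0 : ((B 0 + B 1/2 - b/2 : ℝ):ℂ) + (1:ℝ) * y * I = (B 0 + B 1/2 - b/2 : ℝ) + y * I := by
    push_cast; ring
  have e1 : (b:ℂ) + (-2:ℝ) * y * I = b - 2 * y * I := by push_cast; ring
  have e4 : ((B 0 + B 1/2 - b/2 + b : ℝ):ℂ) + (-1:ℝ) * y * I
      = ((B 0 + B 1/2 - b/2 : ℝ) + y * I) + (b - 2 * y * I) := by push_cast; ring
  have e2 : ∀ r : ℝ, (r:ℂ) + (-1:ℝ) * y * I = r - y * I := fun r => by push_cast; ring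
  rw [e0] at a0; rw [e1] at a1; rw [e4] at a4; rw [e2] at a2 a3
  refine le_trans (norm_sub_le_of_le (norm_add_le_of_le (norm_sub_le_of_le (norm_add_le_of_le
    (norm_sub_le_of_le (norm_add_le_of_le a0 a1) a4) a2.1) a2.2) a3.1) a3.2) (le_of_eq (by ring))

lemma poly4_bound (b : ℝ) (c0 c1 c2 c3 c4 : ℂ) : ∃ K : ℝ, ∀ y : ℝ,
    ‖c0 + c1 * (-b/2 + y * I) + c2 * (-b/2 + y * I)^2‖ ≤ K * (1 + |y|)^2 ∧
    ‖c0 + c1 * (-b/2 + y * I) + c2 * (-b/2 + y * I)^2 + c3 * (-b/2 + y * I)^3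
      + c4 * (-b/2 + y * I)^4‖ ≤ K * (1 + |y|)^4 := by
  set M := 3 + |(-b/2)| with hM
  have hM1 : 1 ≤ M := by linarith [abs_nonneg (-b/2)]
  refine ⟨(‖c0‖ + ‖c1‖ + ‖c2‖ + ‖c3‖ + ‖c4‖) * M^4, fun y => ?_⟩
  have hY : 1 ≤ 1 + |y| := by linarith [abs_nonneg y]
  have hz : ‖-(b:ℂ)/2 + y * I‖ ≤ M * (1 + |y|) := by
    have := norm_line_le (-b/2) 1 y (by norm_num)
    push_cast at this
    rw [one_mul] at this
    linarith
  generalize -(b:ℂ)/2 + y * I = z at hz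
  have p := fun c j n (h : j ≤ n) => poly_bound hM1 hY hz c (j := j) (n := n) h
  constructor
  · have := norm_add_le_of_le (norm_add_le_of_le (p c0 0 2 (by norm_num)) (p c1 1 2 (by norm_num)))
      (p c2 2 2 le_rfl)
    simp only [pow_zero, mul_one, pow_one] at this
    refine this.trans ?_
    have h2 : M^2 ≤ M^4 := pow_le_pow_right₀ hM1 (by norm_num)
    have : (‖c0‖ + ‖c1‖ + ‖c2‖) * M^2 ≤ (‖c0‖ + ‖c1‖ + ‖c2‖ + ‖c3‖ + ‖c4‖) * M^4 :=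
      mul_le_mul (by linarith [norm_nonneg c3, norm_nonneg c4]) h2 (by positivity) (by positivity)
    nlinarith [mul_le_mul_of_nonneg_right this (by positivity : 0 ≤ (1 + |y|)^2)]
  · have := norm_add_le_of_le (norm_add_le_of_le (norm_add_le_of_le (norm_add_le_of_le
      (p c0 0 4 (by norm_num)) (p c1 1 4 (by norm_num))) (p c2 2 4 (by norm_num)))
      (p c3 3 4 (by norm_num))) (p c4 4 4 le_rfl)
    simp only [pow_zero, mul_one, pow_one] at this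
    exact this.trans (le_of_eq (by ring))

lemma UVZ_bound (B : Fin 4 → ℝ) (c b K0 : ℝ) : ∃ K : ℝ, 1 ≤ K ∧ K0 ≤ K ∧ ∀ y : ℝ,
    ‖UU B c (-b/2 + y * I)‖ ≤ K * (1 + |y|)^2 ∧ (UU B c (-b/2 + y * I)).re ≤ K ∧
    ‖VV B (-b/2 + y * I)‖ ≤ K * (1 + |y|)^2 ∧ ‖ZZ B (-b/2 + y * I)‖ ≤ K * (1 + |y|)^4 := by
  obtain ⟨K1, h1⟩ := poly4_bound b (pa0 (ss B) (dd B) (B 1) c : ℝ) (pa1 (kap B) (ss B) (B 1) : ℝ)
    (1/4) 0 0
  obtain ⟨K2, h2⟩ := poly4_bound b (pv0 (ss B) (dd B) : ℝ) (pv1 (kap B) (ss B) (dd B) : ℝ)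
    (pv2 (ss B) : ℝ) 0 0
  obtain ⟨K3, h3⟩ := poly4_bound b (pg0 (ss B) (dd B) : ℝ) (pg1 (kap B) (ss B) (dd B) : ℝ)
    (pg2 (ss B) (dd B) : ℝ) (pg3 (kap B) (ss B) (dd B) : ℝ) (pg4 (ss B) : ℝ)
  set K4 := pa0 (ss B) (dd B) (B 1) c - pa1 (kap B) (ss B) (B 1) * b/2 + b^2/16 with hK4
  set K := 1 + |K0| + |K1| + |K2| + |K3| + |K4| with hK
  have := abs_nonneg K0; have := abs_nonneg K1; have := abs_nonneg K2
  have := abs_nonneg K3; have := abs_nonneg K4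
  refine ⟨K, by linarith, by linarith [le_abs_self K0], fun y => ⟨(h1 y).1.trans ?_, ?_,
    (h2 y).1.trans ?_, (h3 y).2.trans ?_⟩⟩
  · exact mul_le_mul_of_nonneg_right (by linarith [le_abs_self K1]) (by positivity)
  · have : (UU B c (-b/2 + y * I)).re = K4 - y^2/4 := by
      simp [UU, hK4, pow_two]; ring
    rw [this]; nlinarith [le_abs_self K4, sq_nonneg y]
  · exact mul_le_mul_of_nonneg_right (by linarith [le_abs_self K2]) (by positivity)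
  · exact mul_le_mul_of_nonneg_right (by linarith [le_abs_self K3]) (by positivity)

lemma pointwise {B : Fin 4 → ℝ} {b : ℝ} (h : Adm B b) (c : ℝ) : ∃ M : ℝ, ∀ᶠ ε : ℝ in 𝓝[>] 0,
    ∀ y : ℝ, ‖II ε B c b y * nrm ε - EE B b * (Wp ε (UU B c (-b/2 + y * I)) (VV B (-b/2 + y * I))
      (ZZ B (-b/2 + y * I)) * F0 (B 0 + B 1/2 - b/2) b y)‖
      ≤ M * ε^5 * (‖F0 (B 0 + B 1/2 - b/2) b y‖ * (1 + |y|)^10 + (1 + y^2)⁻¹) := by
  obtain ⟨K0, hR⟩ := RR_bound h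
  obtain ⟨K, hK1, hK0, hU⟩ := UVZ_bound B c b K0
  obtain ⟨M1, hM1, h1⟩ := core hK1
  obtain ⟨M2, hM2, h2⟩ := Wp_far hK1
  obtain ⟨M3, hM3, h3⟩ := gauss_far
  set a := B 0 + B 1/2 - b/2 with ha
  set N := ‖EE B b * F0 a b 0‖ * Real.exp (4 * K) with hN
  have hN0 : 0 ≤ N := by positivity
  refine ⟨‖EE B b‖ * (M1 + M2) + N * M3, ?_⟩
  filter_upwards [hR, self_mem_nhdsWithin, nhdsWithin_le_nhds (eventually_le_nhds one_pos)]
    with ε hR hε hε1 y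
  have hε : 0 < ε := hε
  have hY : ∀ y : ℝ, 1 ≤ 1 + |y| := fun y => by linarith [abs_nonneg y]
  have hR' : ∀ y : ℝ, ‖RR ε B b y‖ ≤ K * ε^5 * (1 + |y|)^7 := fun y => (hR y).trans (by gcongr)
  have q1 : 0 ≤ ε^5 * (‖F0 a b y‖ * (1 + |y|)^10) := by positivity
  have q2 : 0 ≤ ε^5 * (1 + y^2)⁻¹ := by positivity
  have q3 := norm_nonneg (EE B b)
  by_cases hy : ε^2 * (1 + |y|)^3 ≤ 1
  · have := h1 ε _ hε (hY y) hy _ _ _ _ (hU y).1 (hU y).2.1 (hU y).2.2.1 (hU y).2.2.2 (hR' y)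
    rw [II_eq hε h, ← ha, mul_comm (Wp _ _ _ _), ← mul_assoc, ← mul_sub, norm_mul, norm_mul]
    calc _ ≤ ‖EE B b‖ * ‖F0 a b y‖ * (M1 * ε^5 * (1 + |y|)^10) :=
          mul_le_mul_of_nonneg_left this (by positivity)
      _ = ‖EE B b‖ * M1 * (ε^5 * (‖F0 a b y‖ * (1 + |y|)^10)) := by ring
      _ ≤ _ := by
        nlinarith [mul_nonneg (mul_nonneg q3 hM2) q1, mul_nonneg (mul_nonneg hN0 hM3) q1,
          mul_nonneg (mul_nonneg q3 hM2) q2, mul_nonneg (mul_nonneg hN0 hM3) q2,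
          mul_nonneg (mul_nonneg q3 hM1) q2]
  · push Not at hy
    have hw : 1 ≤ ε * (1 + |y|)^2 := by
      have : ε^2 * (1 + |y|)^3 * 1 ≤ ε^2 * (1 + |y|)^3 * (1 + |y|) :=
        mul_le_mul_of_nonneg_left (hY y) (by positivity)
      have h5 : 1 ≤ (ε * (1 + |y|)^2)^2 := by nlinarith
      exact (one_le_sq_iff₀ (by positivity)).1 h5
    have a1 := h2 ε _ (hY y) hw _ _ _ (hU y).1 (hU y).2.2.1 (hU y).2.2.2
    have a2 : ‖II ε B c b 0 * nrm ε‖ ≤ N := by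
      rw [II_eq hε h, ← ha, norm_mul]
      refine mul_le_mul_of_nonneg_left (exp_mid (by linarith) hε (hY 0) ?_ (hU 0).2.1
        (hU 0).2.2.1 (hU 0).2.2.2 (hR' 0)) (norm_nonneg _)
      simp only [abs_zero, add_zero, one_pow, mul_one]; nlinarith
    have a3 : ‖II ε B c b y * nrm ε‖ ≤ N * (M3 * ε^5 * (1 + y^2)⁻¹) := by
      rw [norm_mul] at a2 ⊢
      calc _ ≤ ‖II ε B c b 0‖ * Real.exp (-(3 * ε / 4) * y^2) * ‖(nrm ε : ℂ)‖ :=
            mul_le_mul_of_nonneg_right (II_bound hε h c y) (norm_nonneg _)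
        _ = ‖II ε B c b 0‖ * ‖(nrm ε : ℂ)‖ * Real.exp (-(3 * ε / 4) * y^2) := by ring
        _ ≤ _ := mul_le_mul a2 (h3 ε y hε hε1 hy.le) (by positivity) hN0
    have a4 : ‖EE B b * (Wp ε (UU B c (-b/2 + y * I)) (VV B (-b/2 + y * I))
      (ZZ B (-b/2 + y * I)) * F0 a b y)‖ ≤ ‖EE B b‖ * (M2 * ε^5 * (1 + |y|)^10 * ‖F0 a b y‖) := by
      rw [norm_mul, norm_mul]; gcongr
    refine (norm_sub_le_of_le a3 a4).trans ?_
    nlinarith [mul_nonneg (mul_nonneg q3 hM1) q1, mul_nonneg (mul_nonneg hN0 hM3) q1,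
      mul_nonneg (mul_nonneg q3 hM2) q2, mul_nonneg (mul_nonneg q3 hM1) q2]

/-- The polynomial in `ε` appearing in the expansion. -/
noncomputable def polyE (B : Fin 4 → ℝ) (c ε : ℝ) : ℝ := 1 + ε * c1 B c (mom (kap B))
  + ε^2 * c2 B c (mom (kap B)) + ε^3 * c3 B c (mom (kap B)) + ε^4 * c4 B c (mom (kap B))

lemma Wp_integral {B : Fin 4 → ℝ} {b : ℝ} (h : Adm B b) (c ε : ℝ) :
    Integrable (fun y : ℝ => Wp ε (UU B c (-b/2 + y * I)) (VV B (-b/2 + y * I))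
      (ZZ B (-b/2 + y * I)) * F0 (B 0 + B 1/2 - b/2) b y) ∧
    ∫ y : ℝ, Wp ε (UU B c (-b/2 + y * I)) (VV B (-b/2 + y * I))
      (ZZ B (-b/2 + y * I)) * F0 (B 0 + B 1/2 - b/2) b y
      = 2 * Real.pi * psi (B 0 + B 1/2 - b/2) b 0 * polyE B c ε := by
  simp only [UU, VV, ZZ, Wp_eq, Finset.sum_mul, mul_assoc]
  have hi := fun (j : Fin 9) (r : ℝ) => (F0_moment_integrable h.h0 h.h1 j).const_mul (r:ℂ)
  refine ⟨integrable_finsetSum _ fun j _ => hi j _, ?_⟩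
  rw [integral_finsetSum _ fun j _ => hi j _]
  have e : 1 - 2 * (B 0 + B 1/2 - b/2) - b = 2 * kap B := by simp only [kap]; ring
  simp only [integral_const_mul, F0_moment h.h0 h.h1, e, QQ_eval]
  have := cw_sum ε (pa0 (ss B) (dd B) (B 1) c) (pa1 (kap B) (ss B) (B 1)) (pv0 (ss B) (dd B))
    (pv1 (kap B) (ss B) (dd B)) (pv2 (ss B)) (pg0 (ss B) (dd B)) (pg1 (kap B) (ss B) (dd B))
    (pg2 (ss B) (dd B)) (pg3 (kap B) (ss B) (dd B)) (pg4 (ss B)) (mom (kap B))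
  have m0 : mom (kap B) 0 = 1 := by simp [mom, mA, mB]
  rw [m0] at this
  rw [polyE, c1, c2, c3, c4, ← this]
  push_cast
  simp only [Finset.mul_sum]
  exact Finset.sum_congr rfl fun j _ => by ring

noncomputable def pre (B : Fin 4 → ℝ) : ℝ :=
  Real.exp ((B 0 + B 1/2) * Real.log (uu 0) - ss B * Real.log 2)

noncomputable def K00 : ℂ :=
  exp (J 1) * ((2 * Real.pi / (1 + uu 0) / Real.sqrt (4 * Real.pi / 3) : ℝ) : ℂ)

lemma K00_ne : K00 ≠ 0 := by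
  have := uu_pos 0
  have : 2 * Real.pi / (1 + uu 0) / Real.sqrt (4 * Real.pi / 3) ≠ 0 := by positivity
  exact mul_ne_zero (exp_ne_zero _) (by exact_mod_cast this)

def Asym (B : Fin 4 → ℝ) (c : ℝ) : Prop :=
  (fun ε : ℝ => ((FF ε B c * Real.exp (-(Real.pi^2/3/ε)) : ℝ) : ℂ)
    - K00 * ((pre B * polyE B c ε : ℝ) : ℂ)) =O[𝓝[>] 0] fun ε : ℝ => ε^5

theorem asym_adm {B : Fin 4 → ℝ} {b : ℝ} (h : Adm B b) (c : ℝ) : Asym B c := by
  obtain ⟨M, hM⟩ := pointwise h c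
  set a := B 0 + B 1/2 - b/2 with ha
  have hi : Integrable fun y : ℝ => ‖F0 a b y‖ * (1 + |y|)^10 + (1 + y^2)⁻¹ :=
    (F0_integrable_pow h.h0 h.h1 10).add integrable_inv_one_add_sq
  set D := Real.sqrt (4 * Real.pi / 3) with hD
  have hD0 : 0 < D := by positivity
  refine IsBigO.of_bound (D⁻¹ * (M * ∫ y : ℝ, (‖F0 a b y‖ * (1 + |y|)^10 + (1 + y^2)⁻¹))) ?_
  filter_upwards [hM, self_mem_nhdsWithin] with ε hM hε
  have hε : 0 < ε := hε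
  have h1 := norm_integral_le_of_norm_le (hi.const_mul (M * ε^5)) (Eventually.of_forall hM)
  obtain ⟨i1, e1⟩ := FF_integral hε h c
  obtain ⟨i2, e2⟩ := Wp_integral h c ε
  rw [integral_sub (i1.mul_const _) (i2.const_mul _), integral_mul_const, integral_const_mul,
    integral_const_mul, e1, e2] at h1
  have e3 : Real.sqrt (4 * Real.pi / (3 * ε)) * nrm ε = D * Real.exp (-(Real.pi^2/3/ε)) := by
    have : Real.exp (Real.log ε / 2) = Real.sqrt ε := by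
      rw [Real.sqrt_eq_rpow, Real.rpow_def_of_pos hε]; congr 1; ring
    rw [nrm, Real.exp_add, this, mul_left_comm, ← Real.sqrt_mul (by positivity), mul_comm, hD]
    congr 2; field_simp
  have e4 : Real.exp (-((ss B + b) * Real.log 2)) * psi a b 0 = pre B / (1 + uu 0) := by
    have l4 : Real.log 4 = 2 * Real.log 2 := by
      rw [show (4:ℝ) = 2^2 by norm_num, Real.log_pow]; norm_num
    have := log_uu 0
    rw [psi, ← mul_div_assoc, ← Real.exp_add, pre]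
    congr 2
    rw [ha]
    linear_combination (-b/2) * this + (b/2) * l4
  have e5 : ((FF ε B c * Real.exp (-(Real.pi^2/3/ε)) : ℝ) : ℂ)
      - K00 * ((pre B * polyE B c ε : ℝ) : ℂ) = ((D⁻¹ : ℝ) : ℂ) *
      (((Real.sqrt (4 * Real.pi / (3 * ε)) * FF ε B c : ℝ) : ℂ) * nrm ε
        - EE B b * (2 * Real.pi * psi a b 0 * polyE B c ε)) := by
    have f3 := congrArg (fun x : ℝ => (x:ℂ)) e3
    have f4 := congrArg (fun x : ℝ => (x:ℂ)) e4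
    have hD' : (D:ℂ) ≠ 0 := by exact_mod_cast hD0.ne'
    simp only [K00, EE, ← hD, ofReal_mul, ofReal_div, ofReal_inv, ofReal_ofNat] at f3 f4 ⊢
    have g : (D:ℂ)⁻¹ * D = 1 := inv_mul_cancel₀ hD'
    linear_combination (-(D:ℂ)⁻¹ * FF ε B c) * f3
      + ((D:ℂ)⁻¹ * exp (J 1) * 2 * Real.pi * polyE B c ε) * f4
      - (FF ε B c * Real.exp (-(Real.pi^2/3/ε))) * g
  rw [e5, norm_mul, norm_real, Real.norm_eq_abs, abs_of_pos (inv_pos.2 hD0), Real.norm_eq_abs,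
    abs_of_pos (by positivity), mul_assoc D⁻¹]
  exact mul_le_mul_of_nonneg_left (h1.trans (le_of_eq (by ring))) (by positivity)

end NahmCE
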