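import Mathlib

/-! Moments of the Beta function along a vertical line, via Fourier inversion. -/

namespace NahmCE

open MeasureTheory Filter Topology Set Polynomial
open scoped FourierTransform

noncomputable def tau (m : ℝ) : ℝ := (Real.sqrt (1 + Real.exp (-m)))⁻¹

lemma tau_pos (m : ℝ) : 0 < tau m := by unfold tau; positivity

lemma tau_sq (m : ℝ) : tau m ^ 2 = (1 + Real.exp (-m))⁻¹ := by
  rw [tau, inv_pow, Real.sq_sqrt (by positivity)]

lemma tau_lt (m : ℝ) : tau m < 1 := by
  have h := tau_sq m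
  have : (1 + Real.exp (-m))⁻¹ < 1 := inv_lt_one_of_one_lt₀ (by linarith [Real.exp_pos (-m)])
  nlinarith [tau_pos m]

lemma exp_eq_tau (m : ℝ) : Real.exp (-m) = (1 - tau m ^ 2) / tau m ^ 2 := by
  rw [tau_sq]; field_simp; ring

lemma tau_deriv (m : ℝ) : HasDerivAt tau (tau m * (1 - tau m ^ 2) / 2) m := by
  have h0 : 0 < 1 + Real.exp (-m) := by positivity
  have h1 : HasDerivAt (fun m => 1 + Real.exp (-m)) (-Real.exp (-m)) m := by
    simpa using ((hasDerivAt_neg' m).exp).const_add 1
  have h2 := (h1.sqrt h0.ne').inv (by positivity)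
  refine h2.congr_deriv ?_
  rw [tau_sq, tau, Real.sq_sqrt h0.le]
  field_simp
  ring

noncomputable def uu (m : ℝ) : ℝ := (1 - tau m) / (1 + tau m)

lemma uu_pos (m : ℝ) : 0 < uu m := div_pos (by linarith [tau_lt m]) (by linarith [tau_pos m])

lemma one_sub_uu (m : ℝ) : 1 - uu m = 2 * tau m / (1 + tau m) := by
  have := tau_pos m
  rw [uu]; field_simp; ring

lemma one_add_uu (m : ℝ) : 1 + uu m = 2 / (1 + tau m) := by
  have := tau_pos m
  rw [uu]; field_simp; ring

lemma uu_lt (m : ℝ) : 0 < 1 - uu m := by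
  have := tau_pos m
  rw [one_sub_uu]; positivity

lemma uu_deriv (m : ℝ) : HasDerivAt uu (-(tau m * uu m)) m := by
  have := tau_pos m
  have h := ((tau_deriv m).const_sub 1).div ((tau_deriv m).const_add 1) (by positivity)
  refine h.congr_deriv ?_
  rw [uu]; field_simp; ring

lemma log_uu (m : ℝ) : Real.log (uu m) - 2 * Real.log (1 - uu m) = -m - Real.log 4 := by
  have h1 := tau_pos m
  have h2 := tau_lt m
  have e : uu m = Real.exp (-m) / 4 * (1 - uu m)^2 := by
    rw [exp_eq_tau, one_sub_uu, uu]; field_simp; ring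
  have := congrArg Real.log e
  rw [Real.log_mul (by positivity) (pow_pos (uu_lt m) 2).ne', Real.log_div (by positivity)
    (by norm_num), Real.log_exp, Real.log_pow] at this
  push_cast at this
  linarith

lemma uu_inj : Function.Injective uu := by
  intro m m' h
  have h1 := log_uu m
  have h2 := log_uu m'
  rw [h] at h1
  linarith

lemma uu_image : uu '' univ = Ioo 0 1 := by
  ext x
  constructor
  · rintro ⟨m, -, rfl⟩
    exact ⟨uu_pos m, by linarith [uu_lt m]⟩
  · rintro ⟨h0, h1⟩
    have h2 : 0 < 1 - x := by linarith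
    refine ⟨-Real.log (4 * x / (1-x)^2), mem_univ _, ?_⟩
    have : tau (-Real.log (4 * x / (1-x)^2)) = (1 - x) / (1 + x) := by
      rw [tau, neg_neg, Real.exp_log (by positivity),
        show 1 + 4 * x / (1-x)^2 = ((1+x)/(1-x))^2 by field_simp; ring,
        Real.sqrt_sq (by positivity), inv_div]
    rw [uu, this]; field_simp; ring

noncomputable def psi (a b m : ℝ) : ℝ :=
  Real.exp (a * Real.log (uu m) + b * Real.log (1 - uu m)) / (1 + uu m)

lemma psi_pos (a b m : ℝ) : 0 < psi a b m := div_pos (Real.exp_pos _) (by linarith [uu_pos m])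

lemma psi_deriv (a b m : ℝ) : HasDerivAt (psi a b)
    ((b / 2 + (1/2 - a - b/2) * tau m - tau m ^ 2 / 2) * psi a b m) m := by
  have h1 := uu_pos m
  have h2 := uu_lt m
  have h3 := tau_pos m
  have h4 := tau_lt m
  have h := (((((uu_deriv m).log h1.ne').const_mul a).add
    ((((uu_deriv m).const_sub 1).log h2.ne').const_mul b)).exp).div
    ((uu_deriv m).const_add 1) (by positivity)
  refine h.congr_deriv ?_
  simp only [psi, Pi.add_apply]
  generalize Real.exp (a * Real.log (uu m) + b * Real.log (1 - uu m)) = E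
  rw [one_sub_uu, one_add_uu]
  have : 1 - tau m ≠ 0 := by linarith
  rw [uu]
  field_simp
  ring

lemma beta_integrand (a b y m : ℝ) : |-(tau m * uu m)| • (((uu m : ℝ) : ℂ) ^ ((a + y * Complex.I) - 1)
    * (1 - ((uu m : ℝ) : ℂ)) ^ ((b - 2 * y * Complex.I) - 1))
    = (psi a b m : ℂ) * Complex.exp (-(y * m * Complex.I))
      * Complex.exp (-(y * Real.log 4 * Complex.I)) := by
  have h1 := uu_pos m
  have h2 := uu_lt m
  have h3 := tau_pos m
  have e0 : (1:ℂ) - ((uu m : ℝ) : ℂ) = ((1 - uu m : ℝ) : ℂ) := by push_cast; rfl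
  rw [abs_neg, abs_of_pos (by positivity), e0,
    Complex.cpow_def_of_ne_zero (by exact_mod_cast h1.ne'),
    Complex.cpow_def_of_ne_zero (by exact_mod_cast h2.ne'), ← Complex.ofReal_log h1.le,
    ← Complex.ofReal_log h2.le, ← Complex.exp_add, mul_assoc (psi a b m : ℂ), ← Complex.exp_add]
  have e1 : (Real.log (uu m) : ℂ) - 2 * Real.log (1 - uu m) = -m - Real.log 4 := by
    exact_mod_cast log_uu m
  have e2 : (Real.log (uu m) : ℂ) * (a + y * Complex.I - 1)
      + Real.log (1 - uu m) * (b - 2 * y * Complex.I - 1)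
      = ((a * Real.log (uu m) + b * Real.log (1 - uu m) - Real.log (uu m) - Real.log (1 - uu m) : ℝ) : ℂ)
        + (-(y * m * Complex.I) + -(y * Real.log 4 * Complex.I)) := by
    push_cast at e1 ⊢
    linear_combination (y * Complex.I) * e1
  rw [e2, Complex.exp_add, ← Complex.ofReal_exp, Complex.real_smul, ← mul_assoc,
    ← Complex.ofReal_mul]
  congr 2
  rw [Real.exp_sub, Real.exp_sub, Real.exp_log h1, Real.exp_log h2, psi, one_add_uu]
  generalize Real.exp (a * Real.log (uu m) + b * Real.log (1 - uu m)) = E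
  rw [one_sub_uu]
  field_simp

lemma psi_integrable {a b : ℝ} (ha : 0 < a) (hb : 0 < b) : Integrable (psi a b) := by
  have h := (Complex.betaIntegral_convergent (u := a + (0:ℝ) * Complex.I)
    (v := b - 2 * (0:ℝ) * Complex.I) (by simpa) (by simpa)).1.mono_set Ioo_subset_Ioc_self
  rw [← uu_image, integrableOn_image_iff_integrableOn_abs_deriv_smul MeasurableSet.univ
    (fun m _ => (uu_deriv m).hasDerivWithinAt) uu_inj.injOn, integrableOn_univ] at h
  simp only [beta_integrand] at h
  simpa [abs_of_pos (psi_pos a b _)] using h.norm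

noncomputable def F0 (a b y : ℝ) : ℂ :=
  Complex.betaIntegral (a + y * Complex.I) (b - 2 * y * Complex.I)
    * Complex.exp (y * Real.log 4 * Complex.I)

lemma F0_eq (a b y : ℝ) :
    F0 a b y = ∫ m : ℝ, (psi a b m : ℂ) * Complex.exp (-(y * m * Complex.I)) := by
  rw [F0, Complex.betaIntegral, intervalIntegral.integral_of_le zero_le_one,
    integral_Ioc_eq_integral_Ioo, ← uu_image, integral_image_eq_integral_abs_deriv_smul
      MeasurableSet.univ (fun m _ => (uu_deriv m).hasDerivWithinAt) uu_inj.injOn]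
  simp only [beta_integrand, Measure.restrict_univ]
  rw [integral_mul_const, mul_assoc, ← Complex.exp_add]
  simp

/-- The polynomials describing iterated derivatives. -/
noncomputable def QQ (k : ℝ) : ℕ → ℝ[X]
  | 0 => 1
  | j+1 => (C k * X - X^2) * QQ k j + X * (1 - X^2) * derivative (QQ k j)

noncomputable def phi (a b : ℝ) (j : ℕ) (m : ℝ) : ℂ :=
  (((QQ (1 - 2*a - b) j).eval (tau m) * psi a b m : ℝ) : ℂ)

lemma phi_deriv (a b : ℝ) (j : ℕ) (m : ℝ) :
    HasDerivAt (phi a b j) ((phi a b (j+1) m + b * phi a b j m) / 2) m := by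
  have h := ((((QQ (1 - 2*a - b) j).hasDerivAt (tau m)).comp m (tau_deriv m)).mul
    (psi_deriv a b m)).ofReal_comp
  refine h.congr_deriv ?_
  simp only [phi, QQ, Function.comp, eval_add, eval_mul, eval_sub, eval_C, eval_X, eval_pow,
    eval_one]
  push_cast
  ring

lemma phi_cont (a b : ℝ) (j : ℕ) : Continuous (phi a b j) :=
  continuous_iff_continuousAt.2 fun m => (phi_deriv a b j m).continuousAt

lemma phi_integrable {a b : ℝ} (ha : 0 < a) (hb : 0 < b) (j : ℕ) : Integrable (phi a b j) := by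
  obtain ⟨M, hM⟩ := (isCompact_Icc (a := (0:ℝ)) (b := 1)).exists_bound_of_continuousOn
    (QQ (1 - 2*a - b) j).continuous.continuousOn
  refine Integrable.mono' ((psi_integrable ha hb).const_mul M) (phi_cont a b j).aestronglyMeasurable
    (Eventually.of_forall fun m => ?_)
  rw [phi, Complex.norm_real, norm_mul, Real.norm_eq_abs (psi a b m), abs_of_pos (psi_pos a b m)]
  exact mul_le_mul_of_nonneg_right (hM _ ⟨(tau_pos m).le, (tau_lt m).le⟩) (psi_pos a b m).le

lemma fourier_phi_succ {a b : ℝ} (ha : 0 < a) (hb : 0 < b) (j : ℕ) (x : ℝ) :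
    𝓕 (phi a b (j+1)) x = (2 * (2 * Real.pi * x * Complex.I) - b) * 𝓕 (phi a b j) x := by
  have hd : deriv (phi a b j) = fun m => (phi a b (j+1) m + b * phi a b j m) / 2 :=
    funext fun m => (phi_deriv a b j m).deriv
  have i1 := phi_integrable ha hb j
  have i2 := phi_integrable ha hb (j+1)
  have h := congrFun (Real.fourier_deriv i1 (fun m => (phi_deriv a b j m).differentiableAt)
    (by rw [hd]; exact (i2.add (i1.const_mul _)).div_const 2)) x
  have hm : ∀ f : ℝ → ℂ, Integrable f → Integrable fun v : ℝ =>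
      Complex.exp (↑(-2 * Real.pi * v * x) * Complex.I) * f v := fun f hf =>
    hf.bdd_mul (c := 1) (by fun_prop) (Eventually.of_forall fun v => by
      rw [Complex.norm_exp_ofReal_mul_I])
  rw [hd] at h
  simp only [Real.fourier_real_eq_integral_exp_smul, smul_eq_mul] at h ⊢
  have e : ∀ v : ℝ, Complex.exp (↑(-2 * Real.pi * v * x) * Complex.I)
      * ((phi a b (j+1) v + b * phi a b j v) / 2)
      = (1/2) * (Complex.exp (↑(-2 * Real.pi * v * x) * Complex.I) * phi a b (j+1) v)
        + (b/2) * (Complex.exp (↑(-2 * Real.pi * v * x) * Complex.I) * phi a b j v) := by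
    intro v; ring
  simp only [e] at h
  rw [integral_add ((hm _ i2).const_mul _) ((hm _ i1).const_mul _), integral_const_mul,
    integral_const_mul] at h
  linear_combination 2 * h

lemma fourier_phi {a b : ℝ} (ha : 0 < a) (hb : 0 < b) (j : ℕ) (y : ℝ) :
    𝓕 (phi a b j) (y / (2 * Real.pi)) = (2 * (-b/2 + y * Complex.I))^j * F0 a b y := by
  have hp : (Real.pi : ℂ) ≠ 0 := by exact_mod_cast Real.pi_ne_zero
  induction j with
  | zero =>
    rw [F0_eq, Real.fourier_real_eq_integral_exp_smul, pow_zero, one_mul]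
    refine integral_congr_ae (Eventually.of_forall fun m => ?_)
    simp only [phi, QQ, eval_one, one_mul, smul_eq_mul]
    rw [mul_comm]
    congr 2
    push_cast; field_simp
  | succ j ih =>
    rw [fourier_phi_succ ha hb, ih, pow_succ]
    push_cast; field_simp; ring

lemma F0_cont {a b : ℝ} (ha : 0 < a) (hb : 0 < b) : Continuous (F0 a b) := by
  have : F0 a b = fun y : ℝ => ∫ m : ℝ, (psi a b m : ℂ) * Complex.exp (-(y * m * Complex.I)) :=
    funext (F0_eq a b)
  rw [this]
  have hc : Continuous (psi a b) :=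
    continuous_iff_continuousAt.2 fun m => (psi_deriv a b m).continuousAt
  refine continuous_of_dominated (bound := psi a b) (fun y => Continuous.aestronglyMeasurable
    (by fun_prop)) (fun y => Eventually.of_forall fun m => ?_) (psi_integrable ha hb)
    (Eventually.of_forall fun m => by fun_prop)
  have : -((y:ℂ) * m * Complex.I) = ((-(y * m) : ℝ) : ℂ) * Complex.I := by push_cast; ring
  rw [norm_mul, this, Complex.norm_exp_ofReal_mul_I, Complex.norm_real, Real.norm_eq_abs,
    abs_of_pos (psi_pos a b m), mul_one]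

lemma F0_bound_aux {a b : ℝ} (ha : 0 < a) (hb : 0 < b) (j : ℕ) :
    ∃ C : ℝ, ∀ y : ℝ, |y|^j * ‖F0 a b y‖ ≤ C := by
  refine ⟨∫ m, ‖phi a b j m‖, fun y => ?_⟩
  have h1 : ‖𝓕 (phi a b j) (y / (2 * Real.pi))‖ ≤ ∫ m, ‖phi a b j m‖ := by
    rw [Real.fourier_real_eq_integral_exp_smul]
    refine (norm_integral_le_integral_norm _).trans (le_of_eq ?_)
    congr 1; funext m
    rw [norm_smul, Complex.norm_exp_ofReal_mul_I, one_mul]
  refine le_trans ?_ h1
  rw [fourier_phi ha hb, norm_mul, norm_pow]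
  refine mul_le_mul_of_nonneg_right (pow_le_pow_left₀ (abs_nonneg _) ?_ _) (norm_nonneg _)
  have := Complex.abs_im_le_norm (2 * (-b/2 + y * Complex.I))
  have e : (2 * (-(b:ℂ)/2 + y * Complex.I)).im = 2 * y := by simp
  rw [e, abs_mul] at this
  norm_num at this ⊢
  linarith [abs_nonneg y]

theorem F0_bound {a b : ℝ} (ha : 0 < a) (hb : 0 < b) (n : ℕ) :
    ∃ C : ℝ, ∀ y : ℝ, ‖F0 a b y‖ * (1 + |y|)^n ≤ C := by
  obtain ⟨C0, h0⟩ := F0_bound_aux ha hb 0
  obtain ⟨C1, h1⟩ := F0_bound_aux ha hb n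
  refine ⟨2^(n-1) * (C0 + C1), fun y => ?_⟩
  have := add_pow_le zero_le_one (abs_nonneg y) n
  calc _ ≤ ‖F0 a b y‖ * (2^(n-1) * (1^n + |y|^n)) :=
        mul_le_mul_of_nonneg_left this (norm_nonneg _)
    _ = 2^(n-1) * (|y|^0 * ‖F0 a b y‖ + |y|^n * ‖F0 a b y‖) := by ring
    _ ≤ _ := mul_le_mul_of_nonneg_left (add_le_add (h0 y) (h1 y)) (by positivity)

theorem F0_integrable_pow {a b : ℝ} (ha : 0 < a) (hb : 0 < b) (n : ℕ) :
    Integrable fun y : ℝ => ‖F0 a b y‖ * (1 + |y|)^n := by
  obtain ⟨C, h⟩ := F0_bound ha hb (n+2)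
  have := F0_cont ha hb
  refine Integrable.mono' (integrable_inv_one_add_sq.const_mul C)
    (Continuous.aestronglyMeasurable (by fun_prop)) (Eventually.of_forall fun y => ?_)
  rw [Real.norm_eq_abs, abs_of_nonneg (by positivity), ← div_eq_mul_inv,
    le_div_iff₀ (by positivity)]
  refine le_trans ?_ (h y)
  rw [pow_add, mul_assoc]
  refine mul_le_mul_of_nonneg_left (mul_le_mul_of_nonneg_left ?_ (by positivity)) (norm_nonneg _)
  nlinarith [abs_nonneg y, sq_abs y]

theorem F0_moment_integrable {a b : ℝ} (ha : 0 < a) (hb : 0 < b) (j : ℕ) :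
    Integrable fun y : ℝ => (-b/2 + y * Complex.I)^j * F0 a b y := by
  have := F0_cont ha hb
  refine Integrable.mono' ((F0_integrable_pow ha hb j).const_mul ((1 + b)^j))
    (Continuous.aestronglyMeasurable (by fun_prop)) (Eventually.of_forall fun y => ?_)
  rw [norm_mul, norm_pow, mul_comm ‖F0 a b y‖, ← mul_assoc, ← mul_pow]
  refine mul_le_mul_of_nonneg_right (pow_le_pow_left₀ (norm_nonneg _) ?_ _) (norm_nonneg _)
  refine (norm_add_le _ _).trans ?_
  simp [abs_of_pos hb]
  nlinarith [abs_nonneg y]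

theorem F0_moment {a b : ℝ} (ha : 0 < a) (hb : 0 < b) (j : ℕ) :
    ∫ y : ℝ, (-b/2 + y * Complex.I)^j * F0 a b y
      = 2 * Real.pi * psi a b 0 * (((QQ (1 - 2*a - b) j).eval (tau 0) / 2^j : ℝ) : ℂ) := by
  have hp : 0 < 2 * Real.pi := by positivity
  have e : ∀ y : ℝ, 𝓕 (phi a b j) (y / (2 * Real.pi))
      = 2^j * ((-b/2 + y * Complex.I)^j * F0 a b y) := by
    intro y; rw [fourier_phi ha hb, mul_pow, mul_assoc]
  have hi : Integrable (𝓕 (phi a b j)) := by
    rw [← integrable_comp_div_iff _ hp.ne']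
    simp only [e]
    exact (F0_moment_integrable ha hb j).const_mul _
  have h := congrFun ((phi_cont a b j).fourierInv_fourier_eq (phi_integrable ha hb j) hi) 0
  rw [Real.fourierInv_eq'] at h
  simp only [inner_zero_right, mul_zero, Complex.ofReal_zero, zero_mul, Complex.exp_zero,
    one_smul] at h
  have h2 := Measure.integral_comp_div (𝓕 (phi a b j)) (2 * Real.pi)
  simp only [e] at h2
  rw [integral_const_mul, h, abs_of_pos hp, phi, Complex.real_smul] at h2
  push_cast at h2 ⊢
  generalize (∫ y : ℝ, (-(b:ℂ)/2 + y * Complex.I)^j * F0 a b y) = Z at h2 ⊢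
  field_simp
  linear_combination h2

end NahmCE
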