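import Pool.Agent.Lib.MP_5c0a0e_nt.Core
import Pool.Agent.Lib.MP_5c0a0e_nt.Moments

/-! Explicit coefficients of the asymptotic expansion. -/

set_option linter.unusedSimpArgs false
set_option linter.unusedTactic false

namespace NahmCE

open Polynomial

section
variable {K : Type} [Field K]

def cw (e a0 a1 v0 v1 v2 g0 g1 g2 g3 g4 : K) : Fin 9 → K :=
  ![1 + e * a0 + e^2 * v0 + 1/2 * e^2 * a0^2 + e^3 * a0 * v0 + 1/6 * e^3 * a0^3 + e^4 * g0 + 1/2 * e^4 * v0^2 + 1/2 * e^4 * a0^2 * v0 + 1/24 * e^4 * a0^4,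
    e * a1 + e^2 * v1 + e^2 * a0 * a1 + e^3 * a1 * v0 + e^3 * a0 * v1 + 1/2 * e^3 * a0^2 * a1 + e^4 * g1 + e^4 * v0 * v1 + e^4 * a0 * a1 * v0 + 1/2 * e^4 * a0^2 * v1 + 1/6 * e^4 * a0^3 * a1,
    1/4 * e + e^2 * v2 + 1/2 * e^2 * a1^2 + 1/4 * e^2 * a0 + 1/4 * e^3 * v0 + e^3 * a1 * v1 + e^3 * a0 * v2 + 1/2 * e^3 * a0 * a1^2 + 1/8 * e^3 * a0^2 + e^4 * g2 + 1/2 * e^4 * v1^2 + e^4 * v0 * v2 + 1/2 * e^4 * a1^2 * v0 + 1/4 * e^4 * a0 * v0 + e^4 * a0 * a1 * v1 + 1/2 * e^4 * a0^2 * v2 + 1/4 * e^4 * a0^2 * a1^2 + 1/24 * e^4 * a0^3,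
    1/4 * e^2 * a1 + 1/4 * e^3 * v1 + e^3 * a1 * v2 + 1/6 * e^3 * a1^3 + 1/4 * e^3 * a0 * a1 + e^4 * g3 + e^4 * v1 * v2 + 1/4 * e^4 * a1 * v0 + 1/2 * e^4 * a1^2 * v1 + 1/4 * e^4 * a0 * v1 + e^4 * a0 * a1 * v2 + 1/6 * e^4 * a0 * a1^3 + 1/8 * e^4 * a0^2 * a1,
    1/32 * e^2 + 1/4 * e^3 * v2 + 1/8 * e^3 * a1^2 + 1/32 * e^3 * a0 + e^4 * g4 + 1/2 * e^4 * v2^2 + 1/32 * e^4 * v0 + 1/4 * e^4 * a1 * v1 + 1/2 * e^4 * a1^2 * v2 + 1/24 * e^4 * a1^4 + 1/4 * e^4 * a0 * v2 + 1/8 * e^4 * a0 * a1^2 + 1/64 * e^4 * a0^2,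
    1/32 * e^3 * a1 + 1/32 * e^4 * v1 + 1/4 * e^4 * a1 * v2 + 1/24 * e^4 * a1^3 + 1/32 * e^4 * a0 * a1,
    1/384 * e^3 + 1/32 * e^4 * v2 + 1/64 * e^4 * a1^2 + 1/384 * e^4 * a0,
    1/384 * e^4 * a1,
    1/6144 * e^4]

def L1 (a0 a1 : K) (m : ℕ → K) : K :=
  (a0) * m 0
  + (a1) * m 1
  + (1/4) * m 2

def L2 (a0 a1 v0 v1 v2 : K) (m : ℕ → K) : K :=
  (v0 + 1/2 * a0^2) * m 0
  + (v1 + a0 * a1) * m 1
  + (v2 + 1/2 * a1^2 + 1/4 * a0) * m 2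
  + (1/4 * a1) * m 3
  + (1/32) * m 4

def L3 (a0 a1 v0 v1 v2 : K) (m : ℕ → K) : K :=
  (a0 * v0 + 1/6 * a0^3) * m 0
  + (a1 * v0 + a0 * v1 + 1/2 * a0^2 * a1) * m 1
  + (1/4 * v0 + a1 * v1 + a0 * v2 + 1/2 * a0 * a1^2 + 1/8 * a0^2) * m 2
  + (1/4 * v1 + a1 * v2 + 1/6 * a1^3 + 1/4 * a0 * a1) * m 3
  + (1/4 * v2 + 1/8 * a1^2 + 1/32 * a0) * m 4
  + (1/32 * a1) * m 5
  + (1/384) * m 6

def L4 (a0 a1 v0 v1 v2 g0 g1 g2 g3 g4 : K) (m : ℕ → K) : K :=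
  (g0 + 1/2 * v0^2 + 1/2 * a0^2 * v0 + 1/24 * a0^4) * m 0
  + (g1 + v0 * v1 + a0 * a1 * v0 + 1/2 * a0^2 * v1 + 1/6 * a0^3 * a1) * m 1
  + (g2 + 1/2 * v1^2 + v0 * v2 + 1/2 * a1^2 * v0 + 1/4 * a0 * v0 + a0 * a1 * v1 + 1/2 * a0^2 * v2 + 1/4 * a0^2 * a1^2 + 1/24 * a0^3) * m 2
  + (g3 + v1 * v2 + 1/4 * a1 * v0 + 1/2 * a1^2 * v1 + 1/4 * a0 * v1 + a0 * a1 * v2 + 1/6 * a0 * a1^3 + 1/8 * a0^2 * a1) * m 3
  + (g4 + 1/2 * v2^2 + 1/32 * v0 + 1/4 * a1 * v1 + 1/2 * a1^2 * v2 + 1/24 * a1^4 + 1/4 * a0 * v2 + 1/8 * a0 * a1^2 + 1/64 * a0^2) * m 4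
  + (1/32 * v1 + 1/4 * a1 * v2 + 1/24 * a1^3 + 1/32 * a0 * a1) * m 5
  + (1/32 * v2 + 1/64 * a1^2 + 1/384 * a0) * m 6
  + (1/384 * a1) * m 7
  + (1/6144) * m 8

def mA (k : K) : ℕ → K
  | 0 => 1
  | 1 => -1/4
  | 2 => -1/16 + 1/2 * k^2
  | 3 => 5/64
  | 4 => 17/256 - 19/32 * k^2 + 1/4 * k^4
  | 5 => -121/1024 - 5/64 * k^2 + 5/16 * k^4
  | 6 => -721/4096 + 817/512 * k^2 - 25/32 * k^4 + 1/8 * k^6
  | 7 => 6845/16384 + 231/512 * k^2 - 245/128 * k^4 + 7/16 * k^6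
  | 8 => 58337/65536 - 66031/8192 * k^2 + 3927/1024 * k^4 - 21/64 * k^6 + 1/16 * k^8
  | _ => 0

def mB (k : K) : ℕ → K
  | 0 => 0
  | 1 => k
  | 2 => -1/4 * k
  | 3 => -7/16 * k + 1/2 * k^3
  | 4 => 13/64 * k + 1/4 * k^3
  | 5 => 187/256 * k - 35/32 * k^3 + 1/4 * k^5
  | 6 => -477/1024 * k - 35/32 * k^3 + 9/16 * k^5
  | 7 => -10983/4096 * k + 2177/512 * k^3 - 7/8 * k^5 + 1/8 * k^7
  | 8 => 35693/16384 * k + 6811/1024 * k^3 - 595/128 * k^5 + 5/8 * k^7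
  | _ => 0

def kap (B : Fin 4 → K) : K := 1/2 - B 0 - B 1/2
def ss (B : Fin 4 → K) : K := B 2 + B 3 - B 1
def dd (B : Fin 4 → K) : K := B 2 - B 3
def pa0 (s d w c : K) : K := (s^2 + d^2)/8 - 1/12 + 3 * w^2/16 - c
def pa1 (k s w : K) : K := k - s/2 - 1/2 + 3 * w/4
def pv0 (s d : K) : K := 1/96 * s - 1/32 * s * d^2 - 1/96 * s^3
def pv1 (k s d : K) : K := -1/24 + 1/16 * d^2 + 1/16 * s^2 + 1/12 * k^2
def pv2 (s : K) : K := -1/12 - 1/8 * s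
def pg0 (s d : K) : K := 7/46080 * s - 1/1536 * s * d^2 + 1/3072 * s * d^4 - 1/4608 * s^3 + 1/1536 * s^3 * d^2 + 1/15360 * s^5
def pg1 (k s d : K) : K := -1/2880 + 1/768 * d^2 - 1/1536 * d^4 + 1/768 * s^2 - 1/256 * s^2 * d^2 - 1/1536 * s^4 + 1/2880 * k^2 - 1/1440 * k^4
def pg2 (s d : K) : K := -1/384 * s + 1/128 * s * d^2 + 1/384 * s^3
def pg3 (k s d : K) : K := 1/360 - 1/192 * d^2 - 1/192 * s^2 - 1/720 * k^2
def pg4 (s : K) : K := 1/360 + 1/192 * s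

def c1 (B : Fin 4 → K) (c : K) (m : ℕ → K) : K := L1 (pa0 (ss B) (dd B) (B 1) c) (pa1 (kap B) (ss B) (B 1)) m
def c2 (B : Fin 4 → K) (c : K) (m : ℕ → K) : K := L2 (pa0 (ss B) (dd B) (B 1) c) (pa1 (kap B) (ss B) (B 1))
    (pv0 (ss B) (dd B)) (pv1 (kap B) (ss B) (dd B)) (pv2 (ss B)) m
def c3 (B : Fin 4 → K) (c : K) (m : ℕ → K) : K := L3 (pa0 (ss B) (dd B) (B 1) c) (pa1 (kap B) (ss B) (B 1))
    (pv0 (ss B) (dd B)) (pv1 (kap B) (ss B) (dd B)) (pv2 (ss B)) m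
def c4 (B : Fin 4 → K) (c : K) (m : ℕ → K) : K := L4 (pa0 (ss B) (dd B) (B 1) c) (pa1 (kap B) (ss B) (B 1))
    (pv0 (ss B) (dd B)) (pv1 (kap B) (ss B) (dd B)) (pv2 (ss B))
    (pg0 (ss B) (dd B)) (pg1 (kap B) (ss B) (dd B)) (pg2 (ss B) (dd B))
    (pg3 (kap B) (ss B) (dd B)) (pg4 (ss B)) m

lemma cw_sum (e a0 a1 v0 v1 v2 g0 g1 g2 g3 g4 : K) (m : ℕ → K) :
    ∑ j : Fin 9, cw e a0 a1 v0 v1 v2 g0 g1 g2 g3 g4 j * m j = m 0 + e * L1 a0 a1 m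
      + e^2 * L2 a0 a1 v0 v1 v2 m + e^3 * L3 a0 a1 v0 v1 v2 m
      + e^4 * L4 a0 a1 v0 v1 v2 g0 g1 g2 g3 g4 m := by
  simp only [Fin.sum_univ_succ, cw, L1, L2, L3, L4, Matrix.cons_val_zero, Matrix.cons_val_succ,
    Fin.sum_univ_zero, Fin.val_succ, Fin.val_zero, Nat.reduceAdd]
  ring

end

lemma Wp_eq (e a0 a1 v0 v1 v2 g0 g1 g2 g3 g4 : ℝ) (z : ℂ) :
    Wp e (a0 + a1 * z + 1/4 * z^2) (v0 + v1 * z + v2 * z^2)
      (g0 + g1 * z + g2 * z^2 + g3 * z^3 + g4 * z^4)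
      = ∑ j : Fin 9, (cw e a0 a1 v0 v1 v2 g0 g1 g2 g3 g4 j : ℝ) * z^(j:ℕ) := by
  simp only [Fin.sum_univ_succ, cw, Wp, Matrix.cons_val_zero, Matrix.cons_val_succ,
    Fin.sum_univ_zero, Fin.val_succ, Fin.val_zero, Nat.reduceAdd]
  push_cast
  ring

lemma QQ_1 (k : ℝ) : QQ k 1 = -X^2 + C k * X := by
  rw [QQ]
  simp only [QQ, derivative_add, derivative_sub, derivative_neg, derivative_mul, derivative_pow, derivative_C,
    derivative_X, derivative_one, derivative_ofNat, map_natCast]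
  push_cast
  ring

lemma QQ_2 (k : ℝ) : QQ k 2 = -2 * X^2 + 3 * X^4 + C k * X - 3 * C k * X^3 + C k^2 * X^2 := by
  rw [QQ, QQ_1]
  simp only [QQ, derivative_add, derivative_sub, derivative_neg, derivative_mul, derivative_pow, derivative_C,
    derivative_X, derivative_one, derivative_ofNat, map_natCast]
  push_cast
  ring

lemma QQ_3 (k : ℝ) : QQ k 3 = -4 * X^2 + 18 * X^4 - 15 * X^6 + C k * X - 13 * C k * X^3 + 15 * C k * X^5 + 3 * C k^2 * X^2 - 6 * C k^2 * X^4 + C k^3 * X^3 := by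
  rw [QQ, QQ_2]
  simp only [QQ, derivative_add, derivative_sub, derivative_neg, derivative_mul, derivative_pow, derivative_C,
    derivative_X, derivative_one, derivative_ofNat, map_natCast]
  push_cast
  ring

lemma QQ_4 (k : ℝ) : QQ k 4 = -8 * X^2 + 84 * X^4 - 180 * X^6 + 105 * X^8 + C k * X - 45 * C k * X^3 + 145 * C k * X^5 - 105 * C k * X^7 + 7 * C k^2 * X^2 - 46 * C k^2 * X^4 + 45 * C k^2 * X^6 + 6 * C k^3 * X^3 - 10 * C k^3 * X^5 + C k^4 * X^4 := by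
  rw [QQ, QQ_3]
  simp only [QQ, derivative_add, derivative_sub, derivative_neg, derivative_mul, derivative_pow, derivative_C,
    derivative_X, derivative_one, derivative_ofNat, map_natCast]
  push_cast
  ring

lemma QQ_5 (k : ℝ) : QQ k 5 = -16 * X^2 + 360 * X^4 - 1500 * X^6 + 2100 * X^8 - 945 * X^10 + C k * X - 145 * C k * X^3 + 989 * C k * X^5 - 1785 * C k * X^7 + 945 * C k * X^9 + 15 * C k^2 * X^2 - 250 * C k^2 * X^4 + 645 * C k^2 * X^6 - 420 * C k^2 * X^8 + 25 * C k^3 * X^3 - 120 * C k^3 * X^5 + 105 * C k^3 * X^7 + 10 * C k^4 * X^4 - 15 * C k^4 * X^6 + C k^5 * X^5 := by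
  rw [QQ, QQ_4]
  simp only [QQ, derivative_add, derivative_sub, derivative_neg, derivative_mul, derivative_pow, derivative_C,
    derivative_X, derivative_one, derivative_ofNat, map_natCast]
  push_cast
  ring

lemma QQ_6 (k : ℝ) : QQ k 6 = -32 * X^2 + 1488 * X^4 - 10800 * X^6 + 27300 * X^8 - 28350 * X^10 + 10395 * X^12 + C k * X - 453 * C k * X^3 + 5885 * C k * X^5 - 19929 * C k * X^7 + 24885 * C k * X^9 - 10395 * C k * X^11 + 31 * C k^2 * X^2 - 1190 * C k^2 * X^4 + 6109 * C k^2 * X^6 - 9660 * C k^2 * X^8 + 4725 * C k^2 * X^10 + 90 * C k^3 * X^3 - 950 * C k^3 * X^5 + 2100 * C k^3 * X^7 - 1260 * C k^3 * X^9 + 65 * C k^4 * X^4 - 260 * C k^4 * X^6 + 210 * C k^4 * X^8 + 15 * C k^5 * X^5 - 21 * C k^5 * X^7 + C k^6 * X^6 := by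
  rw [QQ, QQ_5]
  simp only [QQ, derivative_add, derivative_sub, derivative_neg, derivative_mul, derivative_pow, derivative_C,
    derivative_X, derivative_one, derivative_ofNat, map_natCast]
  push_cast
  ring

lemma QQ_7 (k : ℝ) : QQ k 7 = -64 * X^2 + 6048 * X^4 - 72240 * X^6 + 294000 * X^8 - 529200 * X^10 + 436590 * X^12 - 135135 * X^14 + C k * X - 1393 * C k * X^3 + 32725 * C k * X^5 - 185613 * C k * X^7 + 410697 * C k * X^9 - 391545 * C k * X^11 + 135135 * C k * X^13 + 63 * C k^2 * X^2 - 5306 * C k^2 * X^4 + 48489 * C k^2 * X^6 - 139972 * C k^2 * X^8 + 159075 * C k^2 * X^10 - 62370 * C k^2 * X^12 + 301 * C k^3 * X^3 - 6300 * C k^3 * X^5 + 26509 * C k^3 * X^7 - 37800 * C k^3 * X^9 + 17325 * C k^3 * X^11 + 350 * C k^4 * X^4 - 2835 * C k^4 * X^6 + 5600 * C k^4 * X^8 - 3150 * C k^4 * X^10 + 140 * C k^5 * X^5 - 497 * C k^5 * X^7 + 378 * C k^5 * X^9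 + 21 * C k^6 * X^6 - 28 * C k^6 * X^8 + C k^7 * X^7 := by
  rw [QQ, QQ_6]
  simp only [QQ, derivative_add, derivative_sub, derivative_neg, derivative_mul, derivative_pow, derivative_C,
    derivative_X, derivative_one, derivative_ofNat, map_natCast]
  push_cast
  ring

lemma QQ_8 (k : ℝ) : QQ k 8 = -128 * X^2 + 24384 * X^4 - 463680 * X^6 + 2857680 * X^8 - 7938000 * X^10 + 11060280 * X^12 - 7567560 * X^14 + 2027025 * X^16 + C k * X - 4245 * C k * X^3 + 175245 * C k * X^5 - 1567881 * C k * X^7 + 5475177 * C k * X^9 - 8943165 * C k * X^11 + 6891885 * C k * X^13 - 2027025 * C k * X^15 + 127 * C k^2 * X^2 - 22806 * C k^2 * X^4 + 350189 * C k^2 * X^6 - 1644812 * C k^2 * X^8 + 3261195 * C k^2 * X^10 - 2889810 * C k^2 * X^12 + 945945 * C k^2 * X^14 + 966 * C k^3 * X^3 - 38010 * C k^3 * X^5 + 271852 * C k^3 * X^7 - 692244 * C k^3 * X^9 + 727650 * C k^3 * X^11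 - 270270 * C k^3 * X^13 + 1701 * C k^4 * X^4 - 25060 * C k^4 * X^6 + 91154 * C k^4 * X^8 - 119700 * C k^4 * X^10 + 51975 * C k^4 * X^12 + 1050 * C k^5 * X^5 - 7154 * C k^5 * X^7 + 12978 * C k^5 * X^9 - 6930 * C k^5 * X^11 + 266 * C k^6 * X^6 - 868 * C k^6 * X^8 + 630 * C k^6 * X^10 + 28 * C k^7 * X^7 - 36 * C k^7 * X^9 + C k^8 * X^8 := by
  rw [QQ, QQ_7]
  simp only [QQ, derivative_add, derivative_sub, derivative_neg, derivative_mul, derivative_pow, derivative_C,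
    derivative_X, derivative_one, derivative_ofNat, map_natCast]
  push_cast
  ring

noncomputable def mom (k : ℝ) (j : ℕ) : ℝ := mA k j + mB k j * tau 0

lemma tau_zero_sq : tau 0 ^ 2 = 1/2 := by rw [tau_sq]; norm_num

lemma QQ_eval (k : ℝ) (j : Fin 9) : (QQ (2*k) j).eval (tau 0) / 2^(j:ℕ) = mom k j := by
  have p2 := tau_zero_sq
  rw [mom]
  generalize tau 0 = t at *
  have p3 : t^3 = t / 2 := by rw [show t^3 = t^1 * t^2 by ring, p2]; ring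
  have p4 : t^4 = 1 / 4 := by rw [show t^4 = t^2 * t^2 by ring, p2]; ring
  have p5 : t^5 = t / 4 := by rw [show t^5 = t^3 * t^2 by ring, p3, p2]; ring
  have p6 : t^6 = 1 / 8 := by rw [show t^6 = t^4 * t^2 by ring, p4, p2]; ring
  have p7 : t^7 = t / 8 := by rw [show t^7 = t^5 * t^2 by ring, p5, p2]; ring
  have p8 : t^8 = 1 / 16 := by rw [show t^8 = t^6 * t^2 by ring, p6, p2]; ring
  have p9 : t^9 = t / 16 := by rw [show t^9 = t^7 * t^2 by ring, p7, p2]; ring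
  have p10 : t^10 = 1 / 32 := by rw [show t^10 = t^8 * t^2 by ring, p8, p2]; ring
  have p11 : t^11 = t / 32 := by rw [show t^11 = t^9 * t^2 by ring, p9, p2]; ring
  have p12 : t^12 = 1 / 64 := by rw [show t^12 = t^10 * t^2 by ring, p10, p2]; ring
  have p13 : t^13 = t / 64 := by rw [show t^13 = t^11 * t^2 by ring, p11, p2]; ring
  have p14 : t^14 = 1 / 128 := by rw [show t^14 = t^12 * t^2 by ring, p12, p2]; ring
  have p15 : t^15 = t / 128 := by rw [show t^15 = t^13 * t^2 by ring, p13, p2]; ring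
  have p16 : t^16 = 1 / 256 := by rw [show t^16 = t^14 * t^2 by ring, p14, p2]; ring
  fin_cases j
  · simp [QQ, mA, mB]
  · simp only [Fin.reduceFinMk, Fin.coe_ofNat_eq_mod, Nat.reduceMod, QQ_1, mA, mB, eval_add, eval_sub, eval_mul, eval_neg, eval_pow, eval_C, eval_X, eval_ofNat, p2]
    ring
  · simp only [Fin.reduceFinMk, Fin.coe_ofNat_eq_mod, Nat.reduceMod, QQ_2, mA, mB, eval_add, eval_sub, eval_mul, eval_neg, eval_pow, eval_C, eval_X, eval_ofNat, p2, p3, p4]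
    ring
  · simp only [Fin.reduceFinMk, Fin.coe_ofNat_eq_mod, Nat.reduceMod, QQ_3, mA, mB, eval_add, eval_sub, eval_mul, eval_neg, eval_pow, eval_C, eval_X, eval_ofNat, p2, p3, p4, p5, p6]
    ring
  · simp only [Fin.reduceFinMk, Fin.coe_ofNat_eq_mod, Nat.reduceMod, QQ_4, mA, mB, eval_add, eval_sub, eval_mul, eval_neg, eval_pow, eval_C, eval_X, eval_ofNat, p2, p3, p4, p5, p6, p7, p8]
    ring
  · simp only [Fin.reduceFinMk, Fin.coe_ofNat_eq_mod, Nat.reduceMod, QQ_5, mA, mB, eval_add, eval_sub, eval_mul, eval_neg, eval_pow, eval_C, eval_X, eval_ofNat, p2, p3, p4, p5, p6, p7, p8, p9, p10]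
    ring
  · simp only [Fin.reduceFinMk, Fin.coe_ofNat_eq_mod, Nat.reduceMod, QQ_6, mA, mB, eval_add, eval_sub, eval_mul, eval_neg, eval_pow, eval_C, eval_X, eval_ofNat, p2, p3, p4, p5, p6, p7, p8, p9, p10, p11, p12]
    ring
  · simp only [Fin.reduceFinMk, Fin.coe_ofNat_eq_mod, Nat.reduceMod, QQ_7, mA, mB, eval_add, eval_sub, eval_mul, eval_neg, eval_pow, eval_C, eval_X, eval_ofNat, p2, p3, p4, p5, p6, p7, p8, p9, p10, p11, p12, p13, p14]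
    ring
  · simp only [Fin.reduceFinMk, Fin.coe_ofNat_eq_mod, Nat.reduceMod, QQ_8, mA, mB, eval_add, eval_sub, eval_mul, eval_neg, eval_pow, eval_C, eval_X, eval_ofNat, p2, p3, p4, p5, p6, p7, p8, p9, p10, p11, p12, p13, p14, p15, p16]
    ring

end NahmCE
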