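import Pool.Agent.Lib.MP_5c0a0e_nt.Phi

/-! Elementary estimates for truncated exponentials. -/

namespace NahmCE

open Filter Topology Set Complex

noncomputable def Wp (e u v z : ℂ) : ℂ := 1 + e * u + e^2 * (u^2/2 + v) + e^3 * (u^3/6 + u*v)
  + e^4 * (u^4/24 + u^2*v/2 + v^2/2 + z)

noncomputable def Kt (p : ℂ × ℂ × ℂ × ℂ × ℂ) : ℂ :=
  let e := p.1; let u := p.2.1; let v := p.2.2.1; let z := p.2.2.2.1; let r := p.2.2.2.2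
  let V' := z + e * r
  let V := v + e^2 * V'
  let Y := u + e * V
  r + V' * (Y + u + e * v) / 2 + (3 * u^2 * e * V' + 3 * u * V^2 + e * V^3) / 6
    + V * (Y^3 + Y^2*u + Y*u^2 + u^3) / 24 + Y^5 * expRem 5 (e * Y)

lemma Kt_cont : Continuous Kt := by unfold Kt; fun_prop

lemma Kt_eq (e u v z r : ℂ) :
    exp (e*u + e^2*v + e^4*z + e^5*r) - Wp e u v z = e^5 * Kt (e, u, v, z, r) := by
  have : e*u + e^2*v + e^4*z + e^5*r = e * (u + e * (v + e^2 * (z + e * r))) := by ring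
  rw [this, exp_eq5]
  simp only [Kt, Wp]
  ring

lemma bound5 (f : ℂ × ℂ × ℂ × ℂ × ℂ → ℂ) (hf : Continuous f) (K : ℝ) : ∃ M : ℝ, 0 ≤ M ∧
    ∀ e u v z r : ℂ, ‖e‖ ≤ K → ‖u‖ ≤ K → ‖v‖ ≤ K → ‖z‖ ≤ K → ‖r‖ ≤ K →
      ‖f (e, u, v, z, r)‖ ≤ M := by
  obtain ⟨M, hM⟩ := (isCompact_closedBall (0 : ℂ × ℂ × ℂ × ℂ × ℂ) K).exists_bound_of_continuousOn
    hf.continuousOn
  refine ⟨max M 0, le_max_right _ _, fun e u v z r h1 h2 h3 h4 h5 =>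
    (hM _ ?_).trans (le_max_left _ _)⟩
  simp [Prod.norm_def, *]

lemma Wp_scale (e u v z Y : ℂ) (hY : Y ≠ 0) :
    Wp e u v z = Wp (e * Y^2) (u / Y^2) (v / Y^4) (z / Y^8) := by
  simp only [Wp]; field_simp

lemma norm_div_le_of {U : ℂ} {K Y : ℝ} {m n : ℕ} (hK : 0 ≤ K) (hY : 1 ≤ Y) (hmn : m ≤ n)
    (h : ‖U‖ ≤ K * Y^m) : ‖U / (Y:ℂ)^n‖ ≤ K := by
  rw [norm_div, norm_pow, norm_real, Real.norm_eq_abs, abs_of_pos (by linarith),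
    div_le_iff₀ (by positivity)]
  exact h.trans (mul_le_mul_of_nonneg_left (pow_le_pow_right₀ hY hmn) hK)

lemma Wp_far {K : ℝ} (hK : 1 ≤ K) : ∃ M : ℝ, 0 ≤ M ∧ ∀ ε Y : ℝ, 1 ≤ Y → 1 ≤ ε * Y^2 →
    ∀ U V Z : ℂ, ‖U‖ ≤ K * Y^2 → ‖V‖ ≤ K * Y^2 → ‖Z‖ ≤ K * Y^4 →
      ‖Wp ε U V Z‖ ≤ M * ε^5 * Y^10 := by
  obtain ⟨M, hM0, hM⟩ := bound5 (fun p => p.1^4 + p.1^3 * p.2.1 + p.1^2 * (p.2.1^2/2 + p.2.2.1)
    + p.1 * (p.2.1^3/6 + p.2.1 * p.2.2.1)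
    + (p.2.1^4/24 + p.2.1^2 * p.2.2.1/2 + p.2.2.1^2/2 + p.2.2.2.1)) (by fun_prop) K
  refine ⟨M, hM0, fun ε Y hY hω U V Z hU hV hZ => ?_⟩
  have hY0 : (Y:ℂ) ≠ 0 := by exact_mod_cast (by linarith : Y ≠ 0)
  have hK0 : 0 ≤ K := by linarith
  set w : ℝ := ε * Y^2 with hw
  have hw0 : (w:ℂ) ≠ 0 := by exact_mod_cast (by linarith : w ≠ 0)
  have h := hM ((w:ℂ)⁻¹) (U / Y^2) (V / Y^4) (Z / Y^8) 0
    (by rw [norm_inv, norm_real, Real.norm_eq_abs, abs_of_pos (by linarith)]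
        exact (inv_le_one_of_one_le₀ hω).trans hK)
    (norm_div_le_of hK0 hY le_rfl hU) (norm_div_le_of hK0 hY (by norm_num) hV)
    (norm_div_le_of hK0 hY (by norm_num) hZ) (by simpa using hK0)
  have e : Wp ε U V Z = (w:ℂ)^4 * (((w:ℂ)⁻¹)^4 + ((w:ℂ)⁻¹)^3 * (U / Y^2)
      + ((w:ℂ)⁻¹)^2 * ((U / Y^2)^2/2 + V / Y^4) + (w:ℂ)⁻¹ * ((U / Y^2)^3/6 + (U / Y^2) * (V / Y^4))
      + ((U / Y^2)^4/24 + (U / Y^2)^2 * (V / Y^4)/2 + (V / Y^4)^2/2 + Z / Y^8)) := by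
    rw [Wp_scale _ _ _ _ _ hY0]
    have : (ε:ℂ) * Y^2 = w := by rw [hw]; push_cast; rfl
    rw [this]
    generalize U / Y^2 = u
    generalize V / Y^4 = v
    generalize Z / Y^8 = z
    simp only [Wp]; field_simp
  rw [e, norm_mul, norm_pow, norm_real, Real.norm_eq_abs, abs_of_pos (by linarith)]
  calc _ ≤ w^4 * M := mul_le_mul_of_nonneg_left h (by positivity)
    _ ≤ w^5 * M := mul_le_mul_of_nonneg_right (pow_le_pow_right₀ hω (by norm_num)) hM0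
    _ = _ := by rw [hw]; ring

lemma exp_mid {K ε Y : ℝ} (hK : 0 ≤ K) (hε : 0 < ε) (hY : 1 ≤ Y) (h : ε^2 * Y^3 ≤ 1)
    {U V Z R : ℂ} (hU : U.re ≤ K) (hV : ‖V‖ ≤ K * Y^2) (hZ : ‖Z‖ ≤ K * Y^4)
    (hR : ‖R‖ ≤ K * ε^5 * Y^7) : ‖exp (ε*U + ε^2*V + ε^4*Z + R)‖ ≤ Real.exp (4 * K) := by
  have h1 : (ε * Y)^2 ≤ 1 := by
    have : ε^2 * Y^2 * 1 ≤ ε^2 * Y^2 * Y := mul_le_mul_of_nonneg_left hY (by positivity)
    nlinarith
  have h2 : ε * Y ≤ 1 := by nlinarith [mul_pos hε (by linarith : 0 < Y)]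
  have h3 : ε ≤ 1 := by nlinarith
  have h4 : (ε * Y)^4 ≤ 1 := pow_le_one₀ (by positivity) h2
  have h5 : ε^5 * Y^7 ≤ 1 := by
    have : (ε^2 * Y^3)^2 * (ε * Y) ≤ 1 * 1 :=
      mul_le_mul (pow_le_one₀ (by positivity) h) h2 (by positivity) (by norm_num)
    nlinarith
  rw [norm_exp, Real.exp_le_exp]
  have a1 : ((ε:ℂ)*U).re ≤ K := by
    simp only [mul_re, ofReal_re, ofReal_im, zero_mul, sub_zero]; nlinarith
  have a2 : ((ε:ℂ)^2*V).re ≤ K := by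
    refine (re_le_norm _).trans ?_
    rw [norm_mul, norm_pow, norm_real, Real.norm_eq_abs, abs_of_pos hε]
    nlinarith [mul_le_mul_of_nonneg_left hV (by positivity : 0 ≤ ε^2)]
  have a3 : ((ε:ℂ)^4*Z).re ≤ K := by
    refine (re_le_norm _).trans ?_
    rw [norm_mul, norm_pow, norm_real, Real.norm_eq_abs, abs_of_pos hε]
    nlinarith [mul_le_mul_of_nonneg_left hZ (by positivity : 0 ≤ ε^4)]
  have a4 : R.re ≤ K := by
    refine (re_le_norm _).trans (hR.trans ?_)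
    nlinarith
  simp only [add_re]
  linarith

lemma core {K : ℝ} (hK : 1 ≤ K) : ∃ M : ℝ, 0 ≤ M ∧ ∀ ε Y : ℝ, 0 < ε → 1 ≤ Y → ε^2 * Y^3 ≤ 1 →
    ∀ U V Z R : ℂ, ‖U‖ ≤ K * Y^2 → U.re ≤ K → ‖V‖ ≤ K * Y^2 → ‖Z‖ ≤ K * Y^4 →
      ‖R‖ ≤ K * ε^5 * Y^7 →
      ‖exp (ε*U + ε^2*V + ε^4*Z + R) - Wp ε U V Z‖ ≤ M * ε^5 * Y^10 := by
  obtain ⟨M1, hM1, h1⟩ := bound5 Kt Kt_cont K
  obtain ⟨M2, hM2, h2⟩ := Wp_far hK
  have hK0 : 0 ≤ K := by linarith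
  refine ⟨M1 + M2 + Real.exp (4*K), by positivity,
    fun ε Y hε hY hεY U V Z R hU hU' hV hZ hR => ?_⟩
  have hY0 : (Y:ℂ) ≠ 0 := by exact_mod_cast (by linarith : Y ≠ 0)
  have hε0 : (ε:ℂ) ≠ 0 := by exact_mod_cast hε.ne'
  have hp : 0 ≤ ε^5 * Y^10 := by positivity
  by_cases hw : ε * Y^2 ≤ 1
  · have e : (ε:ℂ)*U + ε^2*V + ε^4*Z + R = (ε * Y^2) * (U / Y^2) + (ε * Y^2)^2 * (V / Y^4)
        + (ε * Y^2)^4 * (Z / Y^8) + (ε * Y^2)^5 * (R / ε^5 / Y^10) := by field_simp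
    have hn : ‖(ε:ℂ) * Y^2‖ = ε * Y^2 := by
      rw [norm_mul, norm_pow, norm_real, norm_real, Real.norm_eq_abs, Real.norm_eq_abs,
        abs_of_pos hε, abs_of_pos (by linarith)]
    rw [e, Wp_scale _ _ _ _ _ hY0, Kt_eq, norm_mul, norm_pow, hn]
    have := h1 (ε * Y^2) (U / Y^2) (V / Y^4) (Z / Y^8) (R / ε^5 / Y^10) (by rw [hn]; linarith)
      (norm_div_le_of hK0 hY le_rfl hU) (norm_div_le_of hK0 hY (by norm_num) hV)
      (norm_div_le_of hK0 hY (by norm_num) hZ) (norm_div_le_of (m := 7) hK0 hY (by norm_num) (by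
        rw [norm_div, norm_pow, norm_real, Real.norm_eq_abs, abs_of_pos hε,
          div_le_iff₀ (by positivity)]
        linarith))
    calc _ ≤ (ε * Y^2)^5 * M1 := mul_le_mul_of_nonneg_left this (by positivity)
      _ = M1 * (ε^5 * Y^10) := by ring
      _ ≤ _ := by nlinarith [Real.exp_pos (4*K)]
  · push Not at hw
    have a1 := exp_mid hK0 hε hY hεY hU' hV hZ hR
    have a2 := h2 ε Y hY hw.le U V Z hU hV hZ
    have a3 : 1 ≤ ε^5 * Y^10 := by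
      have := one_le_pow₀ (n := 5) hw.le
      nlinarith
    refine (norm_sub_le_of_le a1 a2).trans ?_
    nlinarith [Real.exp_pos (4*K)]

lemma gauss_far : ∃ M : ℝ, 0 ≤ M ∧ ∀ ε y : ℝ, 0 < ε → ε ≤ 1 → 1 ≤ ε^2 * (1 + |y|)^3 →
    Real.exp (-(3 * ε / 4) * y^2) ≤ M * ε^5 * (1 + y^2)⁻¹ := by
  refine ⟨Real.exp 1 * ((19:ℕ).factorial * (8/3)^19), by positivity, fun ε y hε hε1 h => ?_⟩
  set Y := 1 + |y| with hY
  have hY1 : 1 ≤ Y := by linarith [abs_nonneg y]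
  have h1 : Y^2 ≤ 2 * (1 + y^2) := by rw [hY, ← sq_abs y]; nlinarith [sq_nonneg (|y| - 1)]
  have h1' : 1 + y^2 ≤ Y^2 := by rw [hY, ← sq_abs y]; nlinarith [abs_nonneg y]
  set w := 3/8 * (ε * Y^2) with hw
  have hw0 : 0 < w := by positivity
  have h2 : Real.exp (-(3 * ε / 4) * y^2) ≤ Real.exp 1 * (Real.exp w)⁻¹ := by
    rw [← Real.exp_neg, ← Real.exp_add, Real.exp_le_exp, hw]
    nlinarith [mul_le_mul_of_nonneg_left h1 hε.le]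
  have h3 : (Real.exp w)⁻¹ ≤ (19:ℕ).factorial / w^19 := by
    have := Real.pow_div_factorial_le_exp w hw0.le 19
    rw [← inv_div]
    exact inv_anti₀ (by positivity) this
  have h4 : 1 + y^2 ≤ ε^5 * (ε * Y^2)^19 := by
    have := one_le_pow₀ (n := 12) h
    calc 1 + y^2 ≤ 1 * Y^2 := by linarith
      _ ≤ (ε^2 * Y^3)^12 * Y^2 := mul_le_mul_of_nonneg_right this (by positivity)
      _ = _ := by ring
  refine h2.trans ?_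
  rw [mul_assoc, mul_assoc]
  refine mul_le_mul_of_nonneg_left (h3.trans ?_) (Real.exp_pos _).le
  rw [div_eq_mul_inv, mul_assoc]
  refine mul_le_mul_of_nonneg_left ?_ (by positivity)
  rw [hw, mul_pow, mul_inv, ← inv_pow, show (3/8:ℝ)⁻¹ = 8/3 by norm_num]
  refine mul_le_mul_of_nonneg_left ?_ (by positivity)
  rw [← div_eq_mul_inv, inv_eq_one_div, div_le_div_iff₀ (by positivity) (by positivity)]
  linarith

lemma poly_bound {z : ℂ} {M Y : ℝ} (hM : 1 ≤ M) (hY : 1 ≤ Y) (hz : ‖z‖ ≤ M * Y) (c : ℂ)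
    {j n : ℕ} (hj : j ≤ n) : ‖c * z^j‖ ≤ ‖c‖ * M^n * Y^n := by
  rw [norm_mul, norm_pow, mul_assoc, ← mul_pow]
  refine mul_le_mul_of_nonneg_left ?_ (norm_nonneg _)
  exact (pow_le_pow_left₀ (norm_nonneg _) hz j).trans
    (pow_le_pow_right₀ (by nlinarith) hj)

end NahmCE
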