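import Pool.Agent.Lib.MP_5c0a0e_nt.Extend

/-! Behaviour at a cusp, and the consequences of invariance for the Nahm sum. -/

namespace NahmCE

open Filter Topology Set Asymptotics Complex Function

lemma exp_neg_div_isBigO {a : ℝ} (ha : 0 < a) :
    (fun ε : ℝ => Real.exp (-(a / ε))) =O[𝓝[>] 0] fun ε : ℝ => ε^5 := by
  refine IsBigO.of_bound ((5:ℕ).factorial / a^5) ?_
  filter_upwards [self_mem_nhdsWithin] with ε hε
  have hε : 0 < ε := hε
  have := Real.pow_div_factorial_le_exp (a / ε) (by positivity) 5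
  rw [Real.norm_eq_abs, Real.norm_eq_abs, abs_of_pos (Real.exp_pos _), abs_of_pos (by positivity),
    Real.exp_neg]
  refine (inv_anti₀ (by positivity) this).trans (le_of_eq ?_)
  field_simp

lemma pow5_tendsto : Tendsto (fun ε : ℝ => ε^5) (𝓝[>] 0) (𝓝 0) := by
  simpa using ((continuous_pow 5).tendsto (0:ℝ)).mono_left nhdsWithin_le_nhds

lemma cusp_asym (g : ℂ → ℂ) {h : ℝ} (hh : 0 < h) (hper : Periodic g h)
    (hhol : ∀ z, 0 < z.im → DifferentiableAt ℂ g z) (K L y0 : ℝ)
    (hb : ∀ z, y0 ≤ z.im → ‖g z‖ ≤ K * Real.exp (L * z.im))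
    (hne : ∀ y : ℝ, 0 < y → g (y * I) ≠ 0) : ∃ (ν : ℝ) (b : ℂ), b ≠ 0 ∧
    (fun ε : ℝ => g ((2 * Real.pi / ε : ℝ) * I) * Real.exp (ν / ε) - b) =O[𝓝[>] 0]
      fun ε : ℝ => ε^5 := by
  obtain ⟨M, hM⟩ := exists_nat_ge (L * h / (2 * Real.pi))
  have hπ := Real.pi_pos
  have hh' : (h:ℂ) ≠ 0 := by exact_mod_cast hh.ne'
  set g1 : ℂ → ℂ := fun z => g z * (Periodic.qParam h z)^M with hg1
  have hper1 : Periodic g1 h := by
    intro z
    have : Periodic.qParam h (z + h) = Periodic.qParam h z := by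
      simp only [Periodic.qParam]
      rw [show 2 * Real.pi * I * (z + h) / h = 2 * Real.pi * I * z / h + 2 * Real.pi * I by
        field_simp, exp_add, exp_two_pi_mul_I, mul_one]
    simp only [hg1, hper z, this]
  have ev : ∀ y : ℝ, ∀ᶠ z : ℂ in comap im atTop, y ≤ z.im := fun y =>
    (tendsto_comap (f := im) (x := atTop)).eventually (eventually_ge_atTop y)
  have hol1 : ∀ᶠ z : ℂ in comap im atTop, DifferentiableAt ℂ g1 z := by
    filter_upwards [ev 1] with z hz
    exact (hhol z (by linarith)).mul ((Periodic.differentiable_qParam z).pow M)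
  have bd1 : BoundedAtFilter (comap im atTop) g1 := by
    refine IsBigO.of_bound K ?_
    filter_upwards [ev y0, ev 0] with z h1 h2
    have hK : 0 ≤ K := by
      have := (norm_nonneg _).trans (hb z h1)
      exact nonneg_of_mul_nonneg_left this (Real.exp_pos _)
    simp only [hg1, norm_mul, norm_pow, Periodic.norm_qParam, Pi.one_apply, norm_one]
    refine (mul_le_mul_of_nonneg_right (hb z h1) (by positivity)).trans ?_
    rw [mul_assoc, ← Real.exp_nat_mul, ← Real.exp_add]
    refine mul_le_mul_of_nonneg_left (Real.exp_le_one_iff.2 ?_) hK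
    rw [div_le_iff₀ (by positivity)] at hM
    have : L * z.im + M * (-2 * Real.pi * z.im / h) = (L * h - M * (2 * Real.pi)) * (z.im / h) := by
      field_simp; ring
    rw [this]
    exact mul_nonpos_of_nonpos_of_nonneg (by linarith) (by positivity)
  have han : AnalyticAt ℂ (Periodic.cuspFunction h g1) 0 := by
    rw [analyticAt_iff_eventually_differentiableAt]
    have h1 := eventually_nhdsWithin_iff.1
      (Periodic.eventually_differentiableAt_cuspFunction_nhds_ne_zero hh hper1 hol1)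
    filter_upwards [h1] with z hz
    by_cases h0 : z = 0
    · rw [h0]; exact Periodic.differentiableAt_cuspFunction_zero hh hper1 hol1 bd1
    · exact hz h0
  set a := 4 * Real.pi^2 / h with ha
  have ha0 : 0 < a := by positivity
  have hw : ∀ ε : ℝ, Periodic.qParam h ((2 * Real.pi / ε : ℝ) * I)
      = ((Real.exp (-(a / ε)) : ℝ) : ℂ) := by
    intro ε
    rw [Periodic.qParam, ofReal_exp, ha]
    congr 1
    push_cast
    linear_combination (4 * Real.pi^2 / h / ε) * I_mul_I
  have tw : Tendsto (fun ε : ℝ => ((Real.exp (-(a / ε)) : ℝ) : ℂ)) (𝓝[>] 0) (𝓝 0) := by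
    exact (continuous_ofReal.tendsto 0).comp
      ((exp_neg_div_isBigO ha0).trans_tendsto pow5_tendsto)
  have hval : ∀ ε : ℝ, Periodic.cuspFunction h g1 ((Real.exp (-(a / ε)) : ℝ) : ℂ)
      = g ((2 * Real.pi / ε : ℝ) * I) * ((Real.exp (-(a / ε)) : ℝ) : ℂ)^M := by
    intro ε
    rw [← hw, Periodic.eq_cuspFunction hh.ne' hper1]
  obtain ⟨n, G, hG, hG0, hGe⟩ := han.exists_eventuallyEq_pow_smul_nonzero_iff.2 (by
    intro hz
    obtain ⟨ε, h1, h2⟩ := ((tw.eventually hz).and self_mem_nhdsWithin).exists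
    have h2 : 0 < ε := h2
    rw [hval] at h1
    exact mul_ne_zero (hne _ (by positivity)) (pow_ne_zero _ (by simp)) h1)
  refine ⟨(n - M) * a, G 0, hG0, ?_⟩
  have h1 := hG.differentiableAt.isBigO_sub.comp_tendsto tw
  have h2 : (fun ε : ℝ => ((Real.exp (-(a / ε)) : ℝ) : ℂ) - 0) =O[𝓝[>] 0] fun ε : ℝ => ε^5 := by
    simpa only [sub_zero, isBigO_ofReal_left] using exp_neg_div_isBigO ha0
  refine (h1.trans h2).congr' ?_ EventuallyEq.rfl
  filter_upwards [tw.eventually hGe] with ε h3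
  rw [hval, sub_zero, smul_eq_mul] at h3
  simp only [comp]
  congr 1
  have e : ((Real.exp ((n - M) * a / ε) : ℝ) : ℂ) * ((Real.exp (-(a / ε)) : ℝ) : ℂ)^n
      = ((Real.exp (-(a / ε)) : ℝ) : ℂ)^M := by
    norm_cast
    rw [← Real.exp_nat_mul, ← Real.exp_nat_mul, ← Real.exp_add]
    congr 1; push_cast; ring
  have : ((Real.exp (-(a / ε)) : ℝ) : ℂ)^n ≠ 0 := pow_ne_zero _ (by simp)
  refine mul_left_cancel₀ this ?_
  rw [← h3, ← e]; ring

lemma compare_asym {F p : ℝ → ℂ} {Λ ν : ℝ} {b : ℂ} (hb : b ≠ 0) (hp : Continuous p) (hp0 : p 0 ≠ 0)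
    (h1 : (fun ε : ℝ => F ε * Real.exp (-(Λ / ε)) - p ε) =O[𝓝[>] 0] fun ε : ℝ => ε^5)
    (h2 : (fun ε : ℝ => F ε * Real.exp (ν / ε) - b) =O[𝓝[>] 0] fun ε : ℝ => ε^5) :
    (fun ε : ℝ => p ε - b) =O[𝓝[>] 0] fun ε : ℝ => ε^5 := by
  have t1 : Tendsto (fun ε : ℝ => F ε * Real.exp (-(Λ / ε))) (𝓝[>] 0) (𝓝 (p 0)) := by
    simpa using (h1.trans_tendsto pow5_tendsto).add ((hp.tendsto 0).mono_left nhdsWithin_le_nhds)
  have t2 : Tendsto (fun ε : ℝ => F ε * Real.exp (ν / ε)) (𝓝[>] 0) (𝓝 b) := by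
    simpa using (h2.trans_tendsto pow5_tendsto).add_const b
  have t3 : ∀ a : ℝ, 0 < a →
      Tendsto (fun ε : ℝ => ((Real.exp (-(a / ε)) : ℝ) : ℂ)) (𝓝[>] 0) (𝓝 0) := fun a ha => by
    exact (continuous_ofReal.tendsto 0).comp
      ((exp_neg_div_isBigO ha).trans_tendsto pow5_tendsto)
  have e : ν = -Λ := by
    rcases lt_trichotomy (ν + Λ) 0 with h | h | h
    · exfalso
      have := t1.mul (t3 (-(ν + Λ)) (by linarith))
      rw [mul_zero] at this
      refine hb (tendsto_nhds_unique t2 (this.congr fun ε => ?_))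
      rw [mul_assoc, ← ofReal_mul, ← Real.exp_add]
      congr 3; ring
    · linarith
    · exfalso
      have := t2.mul (t3 (ν + Λ) h)
      rw [mul_zero] at this
      refine hp0 (tendsto_nhds_unique t1 (this.congr fun ε => ?_))
      rw [mul_assoc, ← ofReal_mul, ← Real.exp_add]
      congr 3; ring
  simp only [e, neg_div] at h2
  exact (h2.sub h1).congr_left fun ε => by ring

noncomputable def cq (z : ℂ) (k : ℕ) : ℂ :=
  ∏ j ∈ Finset.range k, (1 - exp (2 * Real.pi * I * z)^(j+1))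

noncomputable def cterm (B : Fin 4 → ℝ) (c : ℝ) (z : ℂ) (n : Fin 4 → ℕ) : ℂ :=
  exp (2 * Real.pi * I * z * expo B c n) / (cq z (n 0) * cq z (n 1) * cq z (n 2) * cq z (n 3))

noncomputable def fC (B : Fin 4 → ℝ) (c : ℝ) (z : ℂ) : ℂ := ∑' n, cterm B c z n

lemma cq_norm {z : ℂ} (hz : 0 < z.im) (k : ℕ) : qp (2 * Real.pi * z.im) k ≤ ‖cq z k‖ := by
  rw [cq, norm_prod, qp]
  refine Finset.prod_le_prod (fun j _ => (one_sub_pos' (by positivity) j).le) fun j _ => ?_
  refine le_trans (le_of_eq ?_) (norm_sub_norm_le _ _)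
  rw [norm_one, norm_pow, norm_exp, ← Real.exp_nat_mul]
  congr 2
  simp; ring

lemma cq_ne {z : ℂ} (hz : 0 < z.im) (k : ℕ) : cq z k ≠ 0 :=
  norm_pos_iff.1 ((qp_pos (by positivity) k).trans_le (cq_norm hz k))

lemma cterm_norm (B : Fin 4 → ℝ) (c : ℝ) {z : ℂ} (hz : 0 < z.im) (n : Fin 4 → ℕ) :
    ‖cterm B c z n‖ ≤ term (2 * Real.pi * z.im) B c n := by
  have h1 := cq_norm hz
  have h2 := fun k => (qp_pos (ε := 2 * Real.pi * z.im) (by positivity) k)
  rw [cterm, term, norm_div, norm_mul, norm_mul, norm_mul, norm_exp]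
  refine div_le_div₀ (Real.exp_pos _).le (le_of_eq ?_)
    (mul_pos (mul_pos (mul_pos (h2 _) (h2 _)) (h2 _)) (h2 _)) ?_
  · congr 1; simp
  · exact mul_le_mul (mul_le_mul (mul_le_mul (h1 _) (h1 _) (h2 _).le (norm_nonneg _)) (h1 _)
      (h2 _).le (by positivity)) (h1 _) (h2 _).le (by positivity)

lemma fC_norm (B : Fin 4 → ℝ) (c : ℝ) {z : ℂ} (hz : 0 < z.im) :
    ‖fC B c z‖ ≤ FF (2 * Real.pi * z.im) B c :=
  tsum_of_norm_bounded (term_summable (by positivity) B c).hasSum (cterm_norm B c hz)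

lemma fC_diff (B : Fin 4 → ℝ) (c : ℝ) {z : ℂ} (hz : 0 < z.im) : DifferentiableAt ℂ (fC B c) z := by
  obtain ⟨u, hu, h⟩ := term_bound (δ := 2 * Real.pi * (z.im / 2)) (by positivity)
    (2 * Real.pi * (z.im + 1)) B c
  have hU : IsOpen {w : ℂ | z.im / 2 < w.im ∧ w.im < z.im + 1} :=
    (isOpen_lt continuous_const continuous_im).inter (isOpen_lt continuous_im continuous_const)
  have hπ := Real.pi_pos
  refine (differentiableOn_tsum_of_summable_norm hu (fun n w hw => ?_) hU
    (fun n w hw => ?_)).differentiableAt (hU.mem_nhds ⟨by linarith, by linarith⟩)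
  · have hw0 : 0 < w.im := by linarith [hw.1]
    have d : ∀ k, DifferentiableAt ℂ (fun w => cq w k) w := fun k => by unfold cq; fun_prop
    refine DifferentiableAt.differentiableWithinAt ?_
    exact DifferentiableAt.div (by fun_prop) ((((d _).mul (d _)).mul (d _)).mul (d _))
      (mul_ne_zero (mul_ne_zero (mul_ne_zero (cq_ne hw0 _) (cq_ne hw0 _)) (cq_ne hw0 _))
        (cq_ne hw0 _))
  · have hw0 : 0 < w.im := by linarith [hw.1]
    exact (cterm_norm B c hw0 n).trans (h _ (by nlinarith [hw.1]) (by nlinarith [hw.2]) n)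

lemma fC_axis (B : Fin 4 → ℝ) (c ε : ℝ) :
    fC B c ((ε / (2 * Real.pi) : ℝ) * I) = FF ε B c := by
  have hπ : (Real.pi : ℂ) ≠ 0 := by exact_mod_cast Real.pi_ne_zero
  have e : 2 * Real.pi * I * (((ε / (2 * Real.pi) : ℝ):ℂ) * I) = -(ε:ℂ) := by
    push_cast; field_simp; rw [I_sq]; ring
  have e2 : ∀ k, cq (((ε / (2 * Real.pi) : ℝ):ℂ) * I) k = qp ε k := by
    intro k
    rw [cq, e, qp]
    push_cast
    refine Finset.prod_congr rfl fun j _ => ?_
    rw [qc_pow]; push_cast; rfl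
  rw [fC, FF, ofReal_tsum]
  refine tsum_congr fun n => ?_
  rw [cterm, e, term]
  simp only [e2]
  push_cast
  rw [neg_mul]

lemma polyE_cont (B : Fin 4 → ℝ) (c : ℝ) : Continuous (polyE B c) := by unfold polyE; fun_prop

lemma FF_growth (B : Fin 4 → ℝ) (c : ℝ) : ∃ K δ : ℝ, 0 ≤ K ∧ 0 < δ ∧ ∀ ε, 0 < ε → ε < δ →
    FF ε B c ≤ K * Real.exp (Real.pi^2/3/ε) := by
  have hp : Continuous fun ε : ℝ => K00 * ((pre B * polyE B c ε : ℝ) : ℂ) := by
    have := polyE_cont B c; fun_prop
  have t1 := (((asym_all B c).trans_tendsto pow5_tendsto).add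
    ((hp.tendsto 0).mono_left nhdsWithin_le_nhds)).norm
  have t2 := t1.eventually (eventually_le_nhds (lt_add_one _))
  obtain ⟨δ, hδ, h⟩ := (nhdsGT_basis 0).eventually_iff.1 t2
  refine ⟨‖0 + K00 * ((pre B * polyE B c 0 : ℝ) : ℂ)‖ + 1, δ, by positivity, hδ,
    fun ε h1 h2 => ?_⟩
  have := h ⟨h1, h2⟩
  rw [sub_add_cancel, norm_real, Real.norm_eq_abs, Real.exp_neg] at this
  have h3 := (le_abs_self _).trans this
  rwa [← div_eq_mul_inv, div_le_iff₀ (Real.exp_pos _)] at h3

/-- If the Nahm sum is invariant under a parabolic element fixing the cusp `0`, all the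
higher coefficients of the expansion vanish. -/
theorem coeffs_zero (B : Fin 4 → ℝ) (c : ℝ) {h : ℝ} (hh : 0 < h)
    (hinv : ∀ z : ℂ, 0 < z.im → fC B c (-(z + h)⁻¹) = fC B c (-z⁻¹)) :
    c1 B c (mom (kap B)) = 0 ∧ c2 B c (mom (kap B)) = 0 ∧ c3 B c (mom (kap B)) = 0 ∧
      c4 B c (mom (kap B)) = 0 := by
  classical
  have hπ := Real.pi_pos
  set g : ℂ → ℂ := fun z => if 0 < z.im then fC B c (-z⁻¹) else 0 with hg
  have him : ∀ z : ℂ, (-z⁻¹).im = z.im / (z.re^2 + z.im^2) := by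
    intro z; simp [normSq_apply, neg_div, sq]
  have hpos : ∀ z : ℂ, 0 < z.im → 0 < (-z⁻¹).im := fun z hz => by rw [him]; positivity
  have hper : Periodic g h := by
    intro z
    by_cases hz : 0 < z.im
    · simp [hg, hz, hinv z hz]
    · simp [hg, hz]
  have hax : ∀ ε : ℝ, 0 < ε → g ((2 * Real.pi / ε : ℝ) * I) = FF ε B c := by
    intro ε hε
    have h1 : 0 < (((2 * Real.pi / ε : ℝ):ℂ) * I).im := by
      rw [mul_I_im, ofReal_re]; positivity
    rw [hg]
    simp only [if_pos h1]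
    rw [← fC_axis, mul_inv, inv_I, ← ofReal_inv, inv_div, mul_neg, neg_neg]
  obtain ⟨K, δ, hK, hδ, hF⟩ := FF_growth B c
  obtain ⟨ν, b, hb, h2⟩ := cusp_asym g hh hper (fun z hz => by
      have : g =ᶠ[𝓝 z] fun z => fC B c (-z⁻¹) := by
        filter_upwards [(isOpen_lt continuous_const continuous_im).mem_nhds hz] with w hw
        exact if_pos hw
      refine DifferentiableAt.congr_of_eventuallyEq ?_ this
      have hz0 : z ≠ 0 := by rintro rfl; simp at hz
      exact (fC_diff B c (hpos z hz)).comp z (differentiableAt_inv hz0).neg)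
    K (Real.pi / 3) (h + 2 * Real.pi / δ + 1) (fun z hz => by
      have p1 : 0 < 2 * Real.pi / δ := by positivity
      set w : ℂ := z - (⌊z.re / h⌋ : ℤ) * (h:ℂ) with hw
      have e1 : g z = g w := (hper.sub_int_mul_eq _).symm
      have e2 : w.im = z.im := by simp [hw]
      have e3 : w.re = z.re - ⌊z.re / h⌋ * h := by simp [hw]
      have r1 : 0 ≤ w.re := by
        have := Int.floor_le (z.re / h)
        rw [le_div_iff₀ hh] at this; linarith
      have r2 : w.re ≤ h := by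
        have := Int.lt_floor_add_one (z.re / h)
        rw [div_lt_iff₀ hh] at this; linarith
      have y0 : 0 < w.im := by linarith
      have q0 : 0 < w.re^2 + w.im^2 := by positivity
      rw [e1, hg, ← e2]
      simp only [if_pos y0]
      refine (fC_norm B c (hpos w y0)).trans ((hF _ (by have := hpos w y0; positivity) ?_).trans ?_)
      · rw [him, ← mul_div_assoc, div_lt_iff₀ q0]
        have : 2 * Real.pi < w.im * δ := by
          rw [← div_lt_iff₀ hδ]; linarith
        nlinarith [mul_lt_mul_of_pos_right this y0, mul_nonneg hδ.le (sq_nonneg w.re)]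
      · refine mul_le_mul_of_nonneg_left (Real.exp_le_exp.2 ?_) hK
        rw [him, div_le_iff₀ (by positivity)]
        have : w.re^2 ≤ w.im^2 := pow_le_pow_left₀ r1 (by linarith) 2
        have e : Real.pi / 3 * w.im * (2 * Real.pi * (w.im / (w.re^2 + w.im^2)))
          = Real.pi^2 / 3 * (2 * w.im^2 / (w.re^2 + w.im^2)) := by ring
        rw [e]
        refine le_mul_of_one_le_right (by positivity) ?_
        rw [le_div_iff₀ q0]; linarith)
    (fun y hy => by
      have := hax (2 * Real.pi / y) (by positivity)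
      rw [show 2 * Real.pi / (2 * Real.pi / y) = y by field_simp] at this
      rw [this]
      exact_mod_cast (FF_pos (by positivity) B c).ne')
  have hp : Continuous fun ε : ℝ => K00 * ((pre B * polyE B c ε : ℝ) : ℂ) := by
    have := polyE_cont B c; fun_prop
  have hpre : ((pre B : ℝ) : ℂ) ≠ 0 := by exact_mod_cast (Real.exp_pos _).ne'
  have h3 := compare_asym (F := fun ε => (FF ε B c : ℂ)) (Λ := Real.pi^2/3) (ν := ν) hb hp
    (by simpa [polyE, K00_ne] using hpre) ((asym_all B c).congr_left fun ε => by push_cast; rfl)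
    (h2.congr' (by
      filter_upwards [self_mem_nhdsWithin] with ε hε
      rw [hax ε hε]) EventuallyEq.rfl)
  have h4 := poly4_zero (p0 := K00 * pre B - b) (p1 := K00 * pre B * c1 B c (mom (kap B)))
    (p2 := K00 * pre B * c2 B c (mom (kap B))) (p3 := K00 * pre B * c3 B c (mom (kap B)))
    (p4 := K00 * pre B * c4 B c (mom (kap B))) (h3.congr_left fun ε => by
      simp only [polyE]; push_cast; ring)
  simpa only [mul_eq_zero, K00_ne, hpre, false_or, ofReal_eq_zero] using h4.2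

end NahmCE
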