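import Mathlib

/-! Definitions for Nahm's conjecture: Nahm sums, modular functions, Nahm's equations and the
Bloch group. -/

namespace NahmCE

open scoped MatrixGroups UpperHalfPlane

/-- The Nahm sum `f_{A,B,C}` as a function of `τ` in the upper half-plane, `q = e^{2πiτ}`:
the sum over `n ∈ ℕ^r` of `q^{n^t A n / 2 + B^t n + C} / ((q)_{n_1} ⋯ (q)_{n_r})`,
where `q^x` means `e^{2πiτx}` and `(q)_m = (1 - q) ⋯ (1 - q^m)`. -/
noncomputable def nahmSum {r : ℕ} (A : Matrix (Fin r) (Fin r) ℚ) (B : Fin r → ℚ) (C : ℚ)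
    (τ : ℍ) : ℂ :=
  ∑' n : Fin r → ℕ,
    Complex.exp (2 * Real.pi * Complex.I * τ *
        ((1 / 2 * (∑ i, ∑ j, (n i : ℚ) * A i j * (n j : ℚ)) + (∑ i, B i * (n i : ℚ)) + C : ℚ) : ℂ)) /
      ∏ i, ∏ j ∈ Finset.range (n i), (1 - Complex.exp (2 * Real.pi * Complex.I * τ) ^ (j + 1))

/-- Invariance under some finite-index subgroup of `SL(2, ℤ)`. -/
def IsModularFunction (f : ℍ → ℂ) : Prop :=
  ∃ Γ : Subgroup SL(2, ℤ), Γ.FiniteIndex ∧ ∀ γ ∈ Γ, ∀ τ : ℍ, f (γ • τ) = f τ

/-- Nahm's equations in logarithmic form; the solution is `x_i = e^{u_i}`. -/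
def IsNahmSolution {r : ℕ} (A : Matrix (Fin r) (Fin r) ℚ) (u v : Fin r → ℂ) : Prop :=
  (∀ i, Complex.exp (u i) + Complex.exp (v i) = 1) ∧ ∀ i, u i = ∑ j, (A i j : ℂ) * v j

/-- The symbols `[z]`, `z ∈ F \ {0, 1}`. -/
abbrev Symb (F : Type) [Field F] : Type := {z : F // z ≠ 0 ∧ z ≠ 1}

/-- The wedge product `a ∧ b` of two units, an element of degree two of the exterior algebra of
the abelian group `M`. -/
noncomputable def wedge {M : Type} [AddCommGroup M] (a b : M) : ExteriorAlgebra ℤ M :=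
  ExteriorAlgebra.ι ℤ a * ExteriorAlgebra.ι ℤ b

/-- The pair of units `(z, 1 - z)`, written additively. -/
def unitPair {F : Type} [Field F] (z : Symb F) : Additive Fˣ × Additive Fˣ :=
  (Additive.ofMul (Units.mk0 z.1 z.2.1),
    Additive.ofMul (Units.mk0 (1 - z.1) (sub_ne_zero.2 z.2.2.symm)))

/-- The kernel of the additive map `[z] ↦ (p z).1 ∧ (p z).2`. -/
noncomputable def wedgeKer {X M : Type} [AddCommGroup M] (p : X → M × M) :
    AddSubgroup (FreeAbelianGroup X) :=
  (FreeAbelianGroup.lift fun z => wedge (p z).1 (p z).2).ker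

/-- The group `G(F)`: the kernel of `[z] ↦ z ∧ (1 - z)`. -/
noncomputable def blochG (F : Type) [Field F] : AddSubgroup (FreeAbelianGroup (Symb F)) :=
  wedgeKer unitPair

/-- The elements `[x] + [1 - x]`. -/
def relReflect (F : Type) [Field F] : Set (FreeAbelianGroup (Symb F)) :=
  {ξ | ∃ x y : Symb F, y.1 = 1 - x.1 ∧ ξ = FreeAbelianGroup.of x + FreeAbelianGroup.of y}

/-- The elements `[x] + [1 / x]`. -/
def relInvert (F : Type) [Field F] : Set (FreeAbelianGroup (Symb F)) :=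
  {ξ | ∃ x y : Symb F, y.1 = 1 / x.1 ∧ ξ = FreeAbelianGroup.of x + FreeAbelianGroup.of y}

/-- The five-term elements. -/
def relFive (F : Type) [Field F] : Set (FreeAbelianGroup (Symb F)) :=
  {ξ | ∃ x y a b c : Symb F, x.1 * y.1 ≠ 1 ∧ a.1 = (1 - x.1) / (1 - x.1 * y.1) ∧
    b.1 = (1 - y.1) / (1 - x.1 * y.1) ∧ c.1 = 1 - x.1 * y.1 ∧
    ξ = FreeAbelianGroup.of x + FreeAbelianGroup.of y + FreeAbelianGroup.of a +
      FreeAbelianGroup.of b + FreeAbelianGroup.of c}

/-- The subgroup generated by `[x] + [1-x]`, `[x] + [1/x]` and the five-term elements. -/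
def blochRel (F : Type) [Field F] : AddSubgroup (FreeAbelianGroup (Symb F)) :=
  AddSubgroup.closure (relReflect F ∪ relInvert F ∪ relFive F)

/-- The Bloch group: `G(F)` modulo the relations lying in it. -/
abbrev BlochGroup (F : Type) [Field F] : Type :=
  blochG F ⧸ (blochRel F).addSubgroupOf (blochG F)

/-- `ξ` lies in `G(F)` and its class in the Bloch group is a torsion element. -/
def IsBlochTorsion (F : Type) [Field F] (ξ : FreeAbelianGroup (Symb F)) : Prop :=
  ∃ hG : ξ ∈ blochG F, IsOfFinAddOrder (QuotientAddGroup.mk ⟨ξ, hG⟩ : BlochGroup F)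

/-- The field `F = ℚ(x_1, …, x_r)`, `x_i = e^{u_i}`. -/
noncomputable def solField {r : ℕ} (u : Fin r → ℂ) : IntermediateField ℚ ℂ :=
  IntermediateField.adjoin ℚ (Set.range fun i => Complex.exp (u i))

/-- The symbol `[x_i]` of a solution. -/
noncomputable def solSymb {r : ℕ} {A : Matrix (Fin r) (Fin r) ℚ} {u v : Fin r → ℂ}
    (h : IsNahmSolution A u v) (i : Fin r) : Symb (solField u) :=
  ⟨⟨Complex.exp (u i), IntermediateField.subset_adjoin ℚ _ ⟨i, rfl⟩⟩,
    fun h0 => Complex.exp_ne_zero (u i) (congrArg Subtype.val h0),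
    fun h1 => Complex.exp_ne_zero (v i)
      (add_left_cancel ((h.1 i).trans ((congrArg Subtype.val h1).symm.trans (add_zero _).symm)))⟩

/-- The element `ξ_x = [x_1] + ⋯ + [x_r]`. -/
noncomputable def nahmXi {r : ℕ} {A : Matrix (Fin r) (Fin r) ℚ} {u v : Fin r → ℂ}
    (h : IsNahmSolution A u v) : FreeAbelianGroup (Symb (solField u)) :=
  ∑ i, FreeAbelianGroup.of (solSymb h i)

/-- For every solution of Nahm's equations, `ξ_x` lies in `G(F)` and its class in the Bloch group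
is torsion. -/
def AllTorsion {r : ℕ} (A : Matrix (Fin r) (Fin r) ℚ) : Prop :=
  ∀ (u v : Fin r → ℂ) (h : IsNahmSolution A u v), IsBlochTorsion (solField u) (nahmXi h)

end NahmCE
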