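import Mathlib

/-! Euler-Maclaurin summation with an explicit fifth order remainder. -/

namespace NahmCE

open MeasureTheory Filter Topology Set

lemma em_step (f : ℕ → ℝ → ℂ) (hd : ∀ j < 5, ∀ t, 0 ≤ t → HasDerivAt (f j) (f (j+1) t) t)
    (hc : ContinuousOn (f 5) (Ici 0)) (a h K : ℝ) (ha : 0 ≤ a) (hh : 0 < h)
    (hK : ∀ t ∈ Icc a (a+h), ‖f 5 t‖ ≤ K) :
    ‖(∫ t in a..a+h, f 0 t) - ((h:ℂ)*(f 0 (a+h) + f 0 a)/2 - (h:ℂ)^2*(f 1 (a+h) - f 1 a)/12
      + (h:ℂ)^4*(f 3 (a+h) - f 3 a)/720)‖ ≤ h^5 * K * h := by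
  set b5 : ℝ → ℝ := fun t => ((t-a)^5 - 5/2*(t-a)^4*h + 5/3*(t-a)^3*h^2 - (t-a)*h^4/6)/120 with hb5
  let W : ℝ → ℂ := fun t => (((t-a) - h/2 : ℝ):ℂ) * f 0 t
    - ((((t-a)^2 - (t-a)*h + h^2/6)/2 : ℝ):ℂ) * f 1 t
    + ((((t-a)^3 - 3/2*(t-a)^2*h + (t-a)*h^2/2)/6 : ℝ):ℂ) * f 2 t
    - ((((t-a)^4 - 2*(t-a)^3*h + (t-a)^2*h^2 - h^4/30)/24 : ℝ):ℂ) * f 3 t
    + ((b5 t : ℝ):ℂ) * f 4 t
  have hle : a ≤ a + h := by linarith
  have hsub : uIcc a (a+h) ⊆ Ici 0 := by
    rw [uIcc_of_le hle]; intro t ht; exact le_trans ha ht.1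
  have hW : ∀ t ∈ uIcc a (a+h), HasDerivAt W (f 0 t + (b5 t : ℂ) * f 5 t) t := by
    intro t ht
    have ht0 : 0 ≤ t := hsub ht
    have u : HasDerivAt (fun t : ℝ => t - a) 1 t := (hasDerivAt_id t).sub_const a
    have e1 : HasDerivAt (fun t : ℝ => (t-a) - h/2) 1 t := u.sub_const _
    have e2 : HasDerivAt (fun t : ℝ => ((t-a)^2 - (t-a)*h + h^2/6)/2) ((t-a) - h/2) t :=
      ((((u.pow 2).sub (u.mul_const h)).add_const (h^2/6)).div_const 2).congr_deriv (by simp; ring)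
    have e3 : HasDerivAt (fun t : ℝ => ((t-a)^3 - 3/2*(t-a)^2*h + (t-a)*h^2/2)/6)
        (((t-a)^2 - (t-a)*h + h^2/6)/2) t :=
      ((((u.pow 3).sub (((u.pow 2).const_mul (3/2)).mul_const h)).add
        ((u.mul_const (h^2)).div_const 2)).div_const 6).congr_deriv (by simp; ring)
    have e4 : HasDerivAt (fun t : ℝ => ((t-a)^4 - 2*(t-a)^3*h + (t-a)^2*h^2 - h^4/30)/24)
        (((t-a)^3 - 3/2*(t-a)^2*h + (t-a)*h^2/2)/6) t :=
      (((((u.pow 4).sub (((u.pow 3).const_mul 2).mul_const h)).add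
        ((u.pow 2).mul_const (h^2))).sub_const (h^4/30)).div_const 24).congr_deriv (by simp; ring)
    have e5 : HasDerivAt b5 (((t-a)^4 - 2*(t-a)^3*h + (t-a)^2*h^2 - h^4/30)/24) t :=
      (((((u.pow 5).sub (((u.pow 4).const_mul (5/2)).mul_const h)).add
        (((u.pow 3).const_mul (5/3)).mul_const (h^2))).sub
        ((u.mul_const (h^4)).div_const 6)).div_const 120).congr_deriv (by simp; ring)
    have := ((((e1.ofReal_comp.mul (hd 0 (by norm_num) t ht0)).sub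
      (e2.ofReal_comp.mul (hd 1 (by norm_num) t ht0))).add
      (e3.ofReal_comp.mul (hd 2 (by norm_num) t ht0))).sub
      (e4.ofReal_comp.mul (hd 3 (by norm_num) t ht0))).add
      (e5.ofReal_comp.mul (hd 4 (by norm_num) t ht0))
    refine this.congr_deriv ?_
    simp only [Complex.ofReal_one]
    ring
  have c0 : ContinuousOn (f 0) (uIcc a (a+h)) := fun t ht =>
    (hd 0 (by norm_num) t (hsub ht)).continuousAt.continuousWithinAt
  have c5 : ContinuousOn (fun t => (b5 t : ℂ) * f 5 t) (uIcc a (a+h)) := by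
    refine ContinuousOn.mul ?_ (hc.mono hsub)
    exact (Complex.continuous_ofReal.comp (by rw [hb5]; fun_prop)).continuousOn
  have hI := intervalIntegral.integral_eq_sub_of_hasDerivAt hW (c0.add c5).intervalIntegrable
  rw [intervalIntegral.integral_add c0.intervalIntegrable c5.intervalIntegrable] at hI
  have hWe : W (a+h) - W a = (h:ℂ)*(f 0 (a+h) + f 0 a)/2 - (h:ℂ)^2*(f 1 (a+h) - f 1 a)/12
      + (h:ℂ)^4*(f 3 (a+h) - f 3 a)/720 := by
    simp only [W, hb5]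
    push_cast
    ring
  have : (∫ t in a..a+h, f 0 t) - ((h:ℂ)*(f 0 (a+h) + f 0 a)/2 - (h:ℂ)^2*(f 1 (a+h) - f 1 a)/12
      + (h:ℂ)^4*(f 3 (a+h) - f 3 a)/720) = - ∫ t in a..a+h, (b5 t : ℂ) * f 5 t := by
    rw [← hWe, ← hI]; ring
  rw [this, norm_neg]
  have hb : ∀ t ∈ Set.uIoc a (a+h), ‖(b5 t : ℂ) * f 5 t‖ ≤ h^5 * K := by
    intro t ht
    rw [uIoc_of_le hle] at ht
    have h1 : 0 ≤ t - a := by linarith [ht.1]
    have h2 : t - a ≤ h := by linarith [ht.2]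
    have hb : |b5 t| ≤ h^5 := by
      have p5 : (t-a)^5 ≤ h^5 := pow_le_pow_left₀ h1 h2 5
      have p4 : (t-a)^4*h ≤ h^5 := by
        have := mul_le_mul_of_nonneg_right (pow_le_pow_left₀ h1 h2 4) hh.le
        linarith
      have p3 : (t-a)^3*h^2 ≤ h^5 := by
        have := mul_le_mul_of_nonneg_right (pow_le_pow_left₀ h1 h2 3) (sq_nonneg h)
        linarith
      have p1 : (t-a)*h^4 ≤ h^5 := by
        have := mul_le_mul_of_nonneg_right h2 (by positivity : 0 ≤ h^4)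
        linarith
      have q5 : 0 ≤ (t-a)^5 := by positivity
      have q4 : 0 ≤ (t-a)^4*h := by positivity
      have q3 : 0 ≤ (t-a)^3*h^2 := by positivity
      have q1 : 0 ≤ (t-a)*h^4 := by positivity
      rw [abs_le]; simp only [hb5]; constructor <;> linarith
    rw [norm_mul, Complex.norm_real, Real.norm_eq_abs]
    exact mul_le_mul hb (hK t ⟨ht.1.le, ht.2⟩) (norm_nonneg _) (by positivity)
  have := intervalIntegral.norm_integral_le_of_norm_le_const hb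
  rwa [add_sub_cancel_left, abs_of_pos hh] at this

lemma integrableOn_of_bound (g : ℝ → ℂ) (M : ℝ) (hc : ContinuousOn g (Ici 0))
    (hb : ∀ t, 0 ≤ t → ‖g t‖ ≤ M / (1+t)^2) : IntegrableOn g (Ioi 0) := by
  have hM : 0 ≤ M := by
    have := le_trans (norm_nonneg _) (hb 0 le_rfl); simpa using this
  refine Integrable.mono' ((integrable_inv_one_add_sq.const_mul M).integrableOn)
    ((hc.mono Ioi_subset_Ici_self).aestronglyMeasurable measurableSet_Ioi) ?_
  refine (ae_restrict_iff' measurableSet_Ioi).2 (Eventually.of_forall fun t ht => ?_)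
  have ht' : 0 < t := ht
  refine (hb t ht'.le).trans ?_
  rw [← div_eq_mul_inv]
  exact div_le_div_of_nonneg_left hM (by positivity) (by nlinarith)

lemma summable_of_bound (g : ℝ → ℂ) (M h : ℝ) (hh : 0 < h)
    (hb : ∀ t, 0 ≤ t → ‖g t‖ ≤ M / (1+t)^2) : Summable fun k : ℕ => g (((k:ℝ)+1)*h) := by
  have hM : 0 ≤ M := by
    have := le_trans (norm_nonneg _) (hb 0 le_rfl); simpa using this
  have hs : Summable fun k : ℕ => M / h^2 * (1 / ((k:ℝ)+1)^2) := by
    have := (summable_nat_add_iff 1).2 (Real.summable_one_div_nat_pow.2 (by norm_num : 1 < 2))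
    refine Summable.mul_left _ ?_
    simpa using this
  refine Summable.of_norm_bounded hs fun k => ?_
  refine (hb _ (by positivity)).trans ?_
  rw [div_mul_div_comm, mul_one]
  refine div_le_div_of_nonneg_left hM (by positivity) ?_
  have : 0 ≤ ((k:ℝ)+1)*h := by positivity
  nlinarith

lemma tendsto_of_bound (g : ℝ → ℂ) (M h : ℝ) (hh : 0 < h)
    (hb : ∀ t, 0 ≤ t → ‖g t‖ ≤ M / (1+t)^2) :
    Tendsto (fun N : ℕ => g ((N:ℝ)*h)) atTop (𝓝 0) := by
  have := (summable_of_bound g M h hh hb).tendsto_atTop_zero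
  rw [← tendsto_add_atTop_iff_nat 1]
  simpa using this

theorem euler_maclaurin (f : ℕ → ℝ → ℂ)
    (hd : ∀ j < 5, ∀ t, 0 ≤ t → HasDerivAt (f j) (f (j+1) t) t)
    (hc : ContinuousOn (f 5) (Ici 0)) (M h : ℝ) (hh : 0 < h) (hh1 : h ≤ 1)
    (hb : ∀ j ≤ 5, ∀ t, 0 ≤ t → ‖f j t‖ ≤ M / (1+t)^2) :
    ‖(h:ℂ) * (∑' k : ℕ, f 0 (((k:ℝ)+1)*h)) - ((∫ t in Ioi (0:ℝ), f 0 t) - (h:ℂ) * f 0 0 / 2
      - (h:ℂ)^2 * f 1 0 / 12 + (h:ℂ)^4 * f 3 0 / 720)‖ ≤ 2 * M * h^5 := by
  have hM : 0 ≤ M := by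
    have := le_trans (norm_nonneg _) (hb 0 (by norm_num) 0 le_rfl); simpa using this
  have c0 : ContinuousOn (f 0) (Ici 0) := fun t ht =>
    (hd 0 (by norm_num) t ht).continuousAt.continuousWithinAt
  have key : ∀ N : ℕ, ‖(∫ t in (0:ℝ)..(N:ℝ)*h, f 0 t) - ((h:ℂ) * (∑ k ∈ Finset.range N,
      f 0 (((k:ℝ)+1)*h)) + (h:ℂ) * f 0 0 / 2 - (h:ℂ) * f 0 ((N:ℝ)*h) / 2
      - (h:ℂ)^2*(f 1 ((N:ℝ)*h) - f 1 0)/12 + (h:ℂ)^4*(f 3 ((N:ℝ)*h) - f 3 0)/720)‖
      ≤ 2 * M * h^5 * (1 - 1/(1+(N:ℝ)*h)) := by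
    intro N
    induction N with
    | zero => simp
    | succ N ih =>
      have ha : 0 ≤ (N:ℝ)*h := by positivity
      have hs := em_step f hd hc ((N:ℝ)*h) h (M/(1+(N:ℝ)*h)^2) ha hh (fun t ht => by
        refine (hb 5 le_rfl t (ha.trans ht.1)).trans ?_
        exact div_le_div_of_nonneg_left hM (by positivity)
          (pow_le_pow_left₀ (by positivity) (by linarith [ht.1]) 2))
      have i1 : IntervalIntegrable (f 0) volume 0 ((N:ℝ)*h) :=
        (c0.mono (by rw [uIcc_of_le ha]; exact Icc_subset_Ici_self)).intervalIntegrable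
      have i2 : IntervalIntegrable (f 0) volume ((N:ℝ)*h) ((N:ℝ)*h+h) :=
        (c0.mono (by rw [uIcc_of_le (by linarith)]; intro t ht; exact ha.trans ht.1)).intervalIntegrable
      have e : (((N+1:ℕ):ℝ))*h = (N:ℝ)*h + h := by push_cast; ring
      have e' : ((N:ℝ)+1)*h = (N:ℝ)*h + h := by ring
      rw [e, ← intervalIntegral.integral_add_adjacent_intervals i1 i2, Finset.sum_range_succ, e']
      refine le_trans (le_of_eq_of_le ?_ (norm_add_le_of_le ih hs)) ?_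
      · congr 1; ring
      · have h1 : 0 < 1 + (N:ℝ)*h := by positivity
        have : M/(1+(N:ℝ)*h)^2 * h ≤ 2 * M * (1/(1+(N:ℝ)*h) - 1/(1+((N:ℝ)*h+h))) := by
          rw [div_sub_div _ _ h1.ne' (by positivity), div_mul_eq_mul_div, ← mul_div_assoc,
            div_le_div_iff₀ (by positivity) (by positivity)]
          have : 0 ≤ M * h * (1+(N:ℝ)*h) * ((1 + (N:ℝ)*h) - h) :=
            mul_nonneg (by positivity) (by linarith)
          nlinarith
        have h5 : 0 ≤ h^5 := by positivity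
        nlinarith [mul_le_mul_of_nonneg_left this h5]
  have t0 : Tendsto (fun N : ℕ => (N:ℝ)*h) atTop atTop :=
    tendsto_natCast_atTop_atTop.atTop_mul_const hh
  have t1 := intervalIntegral_tendsto_integral_Ioi 0
    (integrableOn_of_bound (f 0) M c0 (hb 0 (by norm_num))) t0
  have t2 := (summable_of_bound (f 0) M h hh (hb 0 (by norm_num))).hasSum.tendsto_sum_nat
  have t3 := tendsto_of_bound (f 0) M h hh (hb 0 (by norm_num))
  have t4 := tendsto_of_bound (f 1) M h hh (hb 1 (by norm_num))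
  have t5 := tendsto_of_bound (f 3) M h hh (hb 3 (by norm_num))
  have tt := (t1.sub ((((((t2.const_mul (h:ℂ)).add_const ((h:ℂ) * f 0 0 / 2)).sub
    ((t3.const_mul (h:ℂ)).div_const 2)).sub
    (((t4.sub_const (f 1 0)).const_mul ((h:ℂ)^2)).div_const 12))).add
    (((t5.sub_const (f 3 0)).const_mul ((h:ℂ)^4)).div_const 720))).norm
  have := le_of_tendsto' tt (b := 2 * M * h^5) fun N => (key N).trans (by
    have h1 : 0 ≤ 1/(1+(N:ℝ)*h) := by positivity
    have h2 : 0 ≤ 2 * M * h^5 := by positivity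
    nlinarith)
  rw [← norm_neg]
  refine le_of_eq_of_le ?_ this
  congr 1; ring

end NahmCE
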