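import Pool.Agent.Lib.MP_5c0a0e_nt.Defs
import Pool.Agent.Lib.MP_5c0a0e_nt.Cusp
import Pool.Agent.Lib.MP_5c0a0e_nt.Algebra

/-! The counterexample. -/

namespace NahmCE

open Complex
open scoped MatrixGroups UpperHalfPlane

def exA : Matrix (Fin 4) (Fin 4) ℚ :=
  !![2/3, -1/3, -2/3, -2/3; -1/3, 8/3, 4/3, 4/3; -2/3, 4/3, 5/3, 2/3; -2/3, 4/3, 2/3, 5/3]

lemma exA_posDef : exA.PosDef := by
  refine Matrix.PosDef.of_dotProduct_mulVec_pos ?_ fun x hx => ?_
  · ext i j; fin_cases i <;> fin_cases j <;> simp [exA]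
  · have h1 : 0 < x 0^2 + x 1^2 + x 2^2 + x 3^2 := by
      by_contra hn
      apply hx
      have := sq_nonneg (x 0); have := sq_nonneg (x 1); have := sq_nonneg (x 2)
      have := sq_nonneg (x 3)
      funext i
      fin_cases i <;> simp <;> nlinarith
    have h2 : star x ⬝ᵥ Matrix.mulVec exA x = (x 0^2 + x 1^2 + x 2^2 + x 3^2)/15
        + 2 * (3/10 * (x 0 - 5/9 * x 1 - 10/9 * x 2 - 10/9 * x 3)^2
        + 163/135 * (x 1 + 65/163 * x 2 + 65/163 * x 3)^2
        + 581/2445 * (x 2 - 80/83 * x 3)^2 + 7/415 * x 3^2) := by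
      simp [dotProduct, Matrix.mulVec, Fin.sum_univ_four, exA]; ring
    rw [h2]; positivity

lemma sol_eqs {u v : Fin 4 → ℂ} (h : IsNahmSolution exA u v) :
    exp (u 1) = 1 - exp (u 0) ∧ exp (u 3) = 1 - exp (u 2) := by
  have a0 := h.1 0; have a1 := h.1 1; have a2 := h.1 2; have a3 := h.1 3
  have b0 := h.2 0; have b1 := h.2 1; have b2 := h.2 2; have b3 := h.2 3
  simp [Fin.sum_univ_four, exA] at b0 b1 b2 b3
  set w := v 0 - 2 * v 1 - v 2 - v 3 with hw
  set t := exp (2/3 * w) with ht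
  set s := exp w with hs
  have t0 : t ≠ 0 := exp_ne_zero _
  have e0 : exp (u 0) = exp (v 1) * t := by
    rw [ht, ← exp_add]; congr 1; rw [b0, hw]; ring
  have e1 : exp (u 1) * t * t = exp (v 0) := by
    rw [ht, ← exp_add, ← exp_add]; congr 1; rw [b1, hw]; ring
  have e2 : exp (u 2) * t = exp (v 2) := by
    rw [ht, ← exp_add]; congr 1; rw [b2, hw]; ring
  have e3 : exp (u 3) * t = exp (v 3) := by
    rw [ht, ← exp_add]; congr 1; rw [b3, hw]; ring
  have e4 : s * exp (v 1) * exp (v 1) * exp (v 2) * exp (v 3) = exp (v 0) := by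
    rw [hs, ← exp_add, ← exp_add, ← exp_add, ← exp_add]; congr 1; rw [hw]; ring
  have e5 : t * t * t = s * s := by
    rw [hs, ht, ← exp_add, ← exp_add, ← exp_add]; congr 1; ring
  generalize exp (u 0) = x0 at *
  generalize exp (u 1) = x1 at *
  generalize exp (u 2) = x2 at *
  generalize exp (u 3) = x3 at *
  generalize exp (v 0) = y0 at *
  generalize exp (v 1) = y1 at *
  generalize exp (v 2) = y2 at *
  generalize exp (v 3) = y3 at *
  clear_value t s
  have ht1 : t = 1 := by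
    by_contra hne
    have f1 : y1 * t = 1 + t := by
      have : (t - 1) * (y1 * t - (1 + t)) = 0 := by
        linear_combination (-1) * a0 + e0 - e1 + t^2 * a1
      linear_combination (mul_eq_zero.1 this).resolve_left (sub_ne_zero.2 hne)
    have f0 : y0 = -t := by linear_combination a0 - e0 - f1
    have f2 : y2 * (1 + t) = t := by linear_combination t * a2 - e2
    have f3 : y3 * (1 + t) = t := by linear_combination t * a3 - e3
    have f4 : t^2 * (s + t) = 0 := by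
      linear_combination t^2 * e4 + t^2 * f0 - s * y2 * y3 * (y1 * t + 1 + t) * f1
        - s * (y3 * (1 + t)) * f2 - s * t * f3
    have f5 : s = -t := by
      linear_combination (mul_eq_zero.1 f4).resolve_left (pow_ne_zero 2 t0)
    have f6 : t^2 * (t - 1) = 0 := by rw [f5] at e5; linear_combination e5
    exact hne (by linear_combination (mul_eq_zero.1 f6).resolve_left (pow_ne_zero 2 t0))
  subst ht1
  constructor
  · linear_combination a1 + e0
  · linear_combination (1/2) * a2 + (1/2) * a3 + (1/2) * e2 + (1/2) * e3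

lemma pair_mem {F : Type} [Field F] (x y : Symb F) (h : y.1 = 1 - x.1) :
    FreeAbelianGroup.of x + FreeAbelianGroup.of y ∈ blochG F ∧
    FreeAbelianGroup.of x + FreeAbelianGroup.of y ∈ blochRel F := by
  refine ⟨?_, AddSubgroup.subset_closure (Or.inl (Or.inl ⟨x, y, h, rfl⟩))⟩
  rw [blochG, wedgeKer, AddMonoidHom.mem_ker, map_add, FreeAbelianGroup.lift_apply_of,
    FreeAbelianGroup.lift_apply_of]
  have e1 : (unitPair y).1 = (unitPair x).2 := by simp [unitPair, h]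
  have e2 : (unitPair y).2 = (unitPair x).1 := by simp [unitPair, h]
  rw [e1, e2]
  exact ExteriorAlgebra.ι_add_mul_swap _ _

lemma exA_torsion : AllTorsion exA := by
  intro u v h
  obtain ⟨h1, h2⟩ := sol_eqs h
  have p1 := pair_mem (solSymb h 0) (solSymb h 1) (Subtype.ext h1)
  have p2 := pair_mem (solSymb h 2) (solSymb h 3) (Subtype.ext h2)
  have e : nahmXi h = (FreeAbelianGroup.of (solSymb h 0) + FreeAbelianGroup.of (solSymb h 1))
      + (FreeAbelianGroup.of (solSymb h 2) + FreeAbelianGroup.of (solSymb h 3)) := by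
    rw [nahmXi, Fin.sum_univ_four]; abel
  refine ⟨by rw [e]; exact add_mem p1.1 p2.1, ?_⟩
  rw [(QuotientAddGroup.eq_zero_iff _).2]
  · exact IsOfFinAddOrder.zero
  · rw [AddSubgroup.mem_addSubgroupOf]
    show nahmXi h ∈ _
    rw [e]; exact add_mem p1.2 p2.2

lemma exA_solution : ∃ u v : Fin 4 → ℂ, IsNahmSolution exA u v := by
  have h1 := uu_pos 0
  have h2 := uu_lt 0
  have h3 := log_uu 0
  have l4 : Real.log 4 = 2 * Real.log 2 := by
    rw [show (4:ℝ) = 2^2 by norm_num, Real.log_pow]; norm_num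
  rw [l4] at h3
  have h4 : ((Real.log (uu 0) : ℝ) : ℂ) = 2 * Real.log (1 - uu 0) - 2 * Real.log 2 := by
    exact_mod_cast (by linarith : Real.log (uu 0) = 2 * Real.log (1 - uu 0) - 2 * Real.log 2)
  have e1 : exp (Real.log (uu 0)) = uu 0 := by rw [← ofReal_exp, Real.exp_log h1]
  have e2 : exp (Real.log (1 - uu 0)) = 1 - uu 0 := by
    rw [← ofReal_exp, Real.exp_log h2]; push_cast; rfl
  have e3 : exp (-(Real.log 2 : ℂ)) = 1/2 := by
    rw [exp_neg, ← ofReal_exp, Real.exp_log two_pos]; norm_num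
  generalize ((Real.log (uu 0) : ℝ) : ℂ) = a at *
  generalize ((Real.log (1 - uu 0) : ℝ) : ℂ) = b at *
  generalize ((Real.log 2 : ℝ) : ℂ) = c at *
  refine ⟨![b, a, -c, -c], ![a, b, -c, -c], fun i => ?_, fun i => ?_⟩
  · fin_cases i <;> simp [e1, e2, e3] <;> norm_num
  · fin_cases i <;> simp [Fin.sum_univ_four, exA, h4] <;> ring

lemma nahmSum_eq (B : Fin 4 → ℚ) (C : ℚ) (τ : ℍ) :
    nahmSum exA B C τ = fC (fun i => (B i : ℝ)) C τ := by
  refine tsum_congr fun n => ?_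
  simp only [cterm, cq, Fin.prod_univ_four]
  congr 3
  simp [Fin.sum_univ_four, exA, expo, QF]
  ring

lemma rat_tau {x y : ℚ} (h : (x:ℝ) + y * tau 0 = 0) : x = 0 ∧ y = 0 := by
  have hi : Irrational (tau 0) := by
    have : tau 0 = (Real.sqrt 2)⁻¹ := by rw [tau]; norm_num
    rw [this]; exact irrational_sqrt_two.inv
  have hy : y = 0 := by
    by_contra hy
    have hy' : (y:ℝ) ≠ 0 := by exact_mod_cast hy
    refine hi ⟨-x / y, ?_⟩
    push_cast
    field_simp
    linarith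
  rw [hy] at h
  exact ⟨by simpa using h, hy⟩

lemma cast_mom (B : Fin 4 → ℚ) (j : ℕ) : mom (kap fun i => (B i : ℝ)) j
    = (mA (kap B) j : ℚ) + (mB (kap B) j : ℚ) * tau 0 := by
  have e : (kap fun i => (B i : ℝ)) = ((kap B : ℚ) : ℝ) := by simp [kap]
  rw [mom, e]
  generalize kap B = k
  match j with
  | 0 | 1 | 2 | 3 | 4 | 5 | 6 | 7 | 8 => simp only [mA, mB]; push_cast; rfl
  | j + 9 => simp [mA, mB]

theorem exA_not_modular (B : Fin 4 → ℚ) (C : ℚ) : ¬ IsModularFunction (nahmSum exA B C) := by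
  rintro ⟨Γ, hΓ, hinv⟩
  obtain ⟨n, hn, -, hmem⟩ := Subgroup.exists_pow_mem_of_index_ne_zero hΓ.index_ne_zero
    (ModularGroup.S * ModularGroup.T * ModularGroup.S⁻¹)
  rw [conj_pow] at hmem
  obtain ⟨h1, h2, h3, h4⟩ := coeffs_zero (fun i => (B i : ℝ)) C (h := n) (by exact_mod_cast hn)
    (fun z hz => by
      have := hinv _ hmem (ModularGroup.S • (⟨z, hz⟩ : ℍ))
      rw [mul_smul, mul_smul, inv_smul_smul, ← zpow_natCast, UpperHalfPlane.modular_T_zpow_smul,
        nahmSum_eq, nahmSum_eq, UpperHalfPlane.modular_S_smul, UpperHalfPlane.modular_S_smul] at this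
      simp only [UpperHalfPlane.coe_vadd, inv_neg] at this
      simpa only [Int.cast_natCast, add_comm] using this)
  have k0 : (kap fun i => (B i : ℝ)) = ((kap B : ℚ) : ℝ) := by simp [kap]
  have s0 : (ss fun i => (B i : ℝ)) = ((ss B : ℚ) : ℝ) := by simp [ss]
  have d0 : (dd fun i => (B i : ℝ)) = ((dd B : ℚ) : ℝ) := by simp [dd]
  simp only [c1, c2, c3, c4, L1, L2, L3, L4, cast_mom] at h1 h2 h3 h4
  simp only [k0, s0, d0] at h1 h2 h3 h4
  have q0 : ∀ s d w c : ℚ, pa0 (s:ℝ) d w c = (pa0 s d w c : ℚ) := by intros; simp [pa0]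
  have q1 : ∀ k s w : ℚ, pa1 (k:ℝ) s w = (pa1 k s w : ℚ) := by intros; simp [pa1]
  have q2 : ∀ s d : ℚ, pv0 (s:ℝ) d = (pv0 s d : ℚ) := by intros; simp [pv0]
  have q3 : ∀ k s d : ℚ, pv1 (k:ℝ) s d = (pv1 k s d : ℚ) := by intros; simp [pv1]
  have q4 : ∀ s : ℚ, pv2 (s:ℝ) = (pv2 s : ℚ) := by intros; simp [pv2]
  have q5 : ∀ s d : ℚ, pg0 (s:ℝ) d = (pg0 s d : ℚ) := by intros; simp [pg0]
  have q6 : ∀ k s d : ℚ, pg1 (k:ℝ) s d = (pg1 k s d : ℚ) := by intros; simp [pg1]
  have q7 : ∀ s d : ℚ, pg2 (s:ℝ) d = (pg2 s d : ℚ) := by intros; simp [pg2]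
  have q8 : ∀ k s d : ℚ, pg3 (k:ℝ) s d = (pg3 k s d : ℚ) := by intros; simp [pg3]
  have q9 : ∀ s : ℚ, pg4 (s:ℝ) = (pg4 s : ℚ) := by intros; simp [pg4]
  simp only [q0, q1, q2, q3, q4, q5, q6, q7, q8, q9] at h1 h2 h3 h4
  set k := kap B
  set s := ss B
  set d := dd B
  set a0 := pa0 s d (B 1) C
  set a1 := pa1 k s (B 1)
  have r1 := rat_tau (x := L1 a0 a1 (mA k)) (y := L1 a0 a1 (mB k))
    (by simp only [L1]; push_cast; linear_combination h1)
  have r2 := rat_tau (x := L2 a0 a1 (pv0 s d) (pv1 k s d) (pv2 s) (mA k))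
    (y := L2 a0 a1 (pv0 s d) (pv1 k s d) (pv2 s) (mB k))
    (by simp only [L2]; push_cast; linear_combination h2)
  have r3 := rat_tau (x := L3 a0 a1 (pv0 s d) (pv1 k s d) (pv2 s) (mA k))
    (y := L3 a0 a1 (pv0 s d) (pv1 k s d) (pv2 s) (mB k))
    (by simp only [L3]; push_cast; linear_combination h3)
  have r4 := rat_tau (x := L4 a0 a1 (pv0 s d) (pv1 k s d) (pv2 s) (pg0 s d) (pg1 k s d) (pg2 s d)
    (pg3 k s d) (pg4 s) (mA k)) (y := L4 a0 a1 (pv0 s d) (pv1 k s d) (pv2 s) (pg0 s d) (pg1 k s d)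
    (pg2 s d) (pg3 k s d) (pg4 s) (mB k))
    (by simp only [L4]; push_cast; linear_combination h4)
  exact no_rational k s d a0 a1 r1.1 r1.2 r2.1 r2.2 r3.1 r3.2 r4.1

end NahmCE
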