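import Pool.Agent.Lib.MP_5c0a0e_nt.Phi

/-! Asymptotic expansion of `- log (q^x; q)_∞` as `q = e^{-ε} → 1`, uniform in `x`. -/

namespace NahmCE

open MeasureTheory Filter Topology Set Complex

/-- `S ε z = - log (z; q)_∞` for `‖z‖ < 1`, `q = e^{-ε}`. -/
noncomputable def S (ε : ℝ) (z : ℂ) : ℂ :=
  ∑' k : ℕ, z^(k+1) / (((k:ℂ)+1) * (1 - exp (-(ε:ℂ))^(k+1)))

noncomputable def Lq (ε : ℝ) (x : ℂ) : ℂ := S ε (exp (-(ε*x)))

noncomputable def J (x : ℂ) : ℂ := ∫ t in Ioi (0:ℝ), Phi x t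

noncomputable def K0 (z : ℂ) : ℂ := -1/3840 + 1/41472 * z - 47/276480 * z^2 + 1451/66355200 * z^3 - 83/14745600 * z^4 + 161/119439360 * z^5 - 673/4777574400 * z^6 - 893/95551488000 * z^7 + 587/191102976000 * z^8 - 211/1146617856000 * z^9 - 23/1719926784000 * z^10 + 3377/1651129712640000 * z^11 - 137/3302259425280000 * z^12 - 71/9906778275840000 * z^13 + 1/2641807540224000 * z^14 + 1/198135565516800000 * z^15 - 1/1188813393100800000 * z^16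

noncomputable def kk (z : ℂ) : ℂ := K0 z
  + z * expRem 7 (-z) * exp (z/2 - z^2/24 + z^4/2880)
  + (1 - z/2 + z^2/6 - z^3/24 + z^4/120 - z^5/720) * (1/2 - z/24 + z^3/2880)^5
    * expRem 5 (z/2 - z^2/24 + z^4/2880)

lemma kk_cont : Continuous kk := by unfold kk K0; fun_prop

lemma kk_eq (z : ℂ) : hh z * exp (z/2 - z^2/24 + z^4/2880) = 1 + z^5 * kk z := by
  have h := exp_eq5 (z/2 - z^2/24 + z^4/2880)
  simp only [kk, hh, K0]
  linear_combination (1 - z/2 + z^2/6 - z^3/24 + z^4/120 - z^5/720) * h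

lemma one_sub_exp_pos {ε : ℝ} (hε : 0 < ε) : 0 < 1 - Real.exp (-ε) := by
  have := Real.exp_lt_one_iff.2 (neg_neg_of_pos hε); linarith

lemma log_expansion : ∃ C : ℝ, 0 ≤ C ∧ ∀ᶠ ε : ℝ in 𝓝[>] 0,
    ‖log (1 - exp (-(ε:ℂ))) - (Real.log ε - ε/2 + ε^2/24 - ε^4/2880)‖ ≤ C * ε^5 := by
  obtain ⟨M, hM⟩ := (isCompact_closedBall (0:ℂ) 1).exists_bound_of_continuousOn kk_cont.continuousOn
  have hM0 : 0 ≤ M := le_trans (norm_nonneg _) (hM 0 (by simp))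
  refine ⟨3/2 * M, by positivity, ?_⟩
  have h1 : ∀ᶠ ε : ℝ in 𝓝[>] 0, ε ≤ 1 ∧ ε^5 * M ≤ 1/2 := by
    have t : Tendsto (fun ε : ℝ => ε^5 * M) (𝓝 0) (𝓝 (0^5 * M)) := by
      exact (by fun_prop : Continuous fun ε : ℝ => ε^5 * M).tendsto 0
    refine nhdsWithin_le_nhds (Eventually.and (eventually_le_nhds one_pos) ?_)
    exact t.eventually (eventually_le_nhds (by norm_num))
  filter_upwards [h1, self_mem_nhdsWithin] with ε ⟨h1, h2⟩ hε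
  have hε : 0 < ε := hε
  have hp := one_sub_exp_pos hε
  have e1 : (1 - exp (-(ε:ℂ))) = ((1 - Real.exp (-ε) : ℝ) : ℂ) := by push_cast; rfl
  set R : ℂ := log (1 - exp (-(ε:ℂ))) - (Real.log ε - ε/2 + ε^2/24 - ε^4/2880) with hR
  have e2 : R = ((Real.log (1 - Real.exp (-ε)) - (Real.log ε - ε/2 + ε^2/24 - ε^4/2880) : ℝ) : ℂ) := by
    rw [hR, e1, ← ofReal_log hp.le]; push_cast; rfl
  have e3 : exp R = 1 + (ε:ℂ)^5 * kk ε := by
    rw [← kk_eq]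
    have : R = log (1 - exp (-(ε:ℂ))) + -(Real.log ε : ℂ) + (ε/2 - ε^2/24 + ε^4/2880) := by
      rw [hR]; ring
    have hε' : (ε:ℂ) ≠ 0 := by exact_mod_cast hε.ne'
    rw [this, exp_add, exp_add, exp_log (by rw [e1]; exact_mod_cast hp.ne'), ← mul_hh,
      exp_neg, ← ofReal_exp, Real.exp_log hε]
    field_simp
  have e4 : R = log (1 + (ε:ℂ)^5 * kk ε) := by
    rw [← e3, log_exp] <;> rw [e2, ofReal_im] <;> linarith [Real.pi_pos]
  have hn : ‖(ε:ℂ)^5 * kk ε‖ ≤ ε^5 * M := by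
    rw [norm_mul, norm_pow, norm_real, Real.norm_eq_abs, abs_of_pos hε]
    refine mul_le_mul_of_nonneg_left (hM _ ?_) (by positivity)
    simpa [abs_of_pos hε] using h1
  rw [e4]
  refine (norm_log_one_add_half_le_self (hn.trans h2)).trans ?_
  linarith

lemma Phi_hasDerivAt (x : ℂ) (j : ℕ) (t : ℝ) :
    HasDerivAt (fun t : ℝ => iteratedDeriv j (Phi x) t) (iteratedDeriv (j+1) (Phi x) t) t := by
  have h : AnalyticAt ℂ (iteratedDeriv j (Phi x)) (t:ℂ) := by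
    rw [iteratedDeriv_eq_iterate]
    exact (Phi_analytic x (by simp)).iterated_deriv j
  rw [iteratedDeriv_succ]
  exact h.differentiableAt.hasDerivAt.comp_ofReal

lemma hasSum_zeta2 : HasSum (fun k : ℕ => 1 / ((k:ℂ)+1)^2) ((Real.pi:ℂ)^2/6) := by
  have h := (hasSum_nat_add_iff' 1).2 hasSum_zeta_two
  have h2 := hasSum_ofReal.2 h
  simpa using h2

lemma Lq_eq {a : ℝ} (ha : 0 < a) {x : ℂ} (hx : a ≤ x.re) {ε : ℝ} (hε : 0 < ε) :
    Lq ε x = (ε:ℂ) * (∑' k : ℕ, Phi x ((((k:ℝ)+1)*ε : ℝ) : ℂ)) + (Real.pi:ℂ)^2/6/ε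
      - (1/2 - x) * log (1 - exp (-(ε:ℂ))) := by
  obtain ⟨C, -, hC⟩ := Phi_deriv_bound ha
  have s1 := (summable_of_bound (fun t : ℝ => Phi x t) _ ε hε
    (fun t ht => by simpa using hC x hx 0 (by norm_num) t ht)).hasSum.mul_left (ε:ℂ)
  have s2 := hasSum_zeta2.div_const (ε:ℂ)
  have hq : ‖exp (-(ε:ℂ))‖ < 1 := by
    rw [norm_exp]; simpa using hε
  have s3 := (hasSum_taylorSeries_neg_log' hq).mul_left (1/2 - x)
  have s := (s1.add s2).add s3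
  have hε' : (ε:ℂ) ≠ 0 := by exact_mod_cast hε.ne'
  rw [sub_eq_add_neg, ← mul_neg, ← s.tsum_eq, Lq, S]
  refine tsum_congr fun k => ?_
  have hk : ((k:ℂ)+1) ≠ 0 := by exact_mod_cast Nat.succ_ne_zero k
  have hz : ((((k:ℝ)+1)*ε : ℝ) : ℂ) ≠ 0 := by exact_mod_cast (by positivity : ((k:ℝ)+1)*ε ≠ 0)
  rw [Phi_eq x hz (hh_ne (by simp)), ← exp_nat_mul, ← exp_nat_mul]
  push_cast
  have e1 : ((k:ℂ)+1) * -(ε*x) = -(x * (((k:ℂ)+1)*ε)) := by ring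
  have e2 : ((k:ℂ)+1) * -(ε:ℂ) = -(((k:ℂ)+1)*ε) := by ring
  rw [e1, e2]
  by_cases h0 : 1 - exp (-(((k:ℂ)+1)*ε)) = 0
  · rw [h0]; field_simp; ring
  · field_simp; ring

/-- The main terms of the expansion. -/
noncomputable def Lmain (ε : ℝ) (x : ℂ) : ℂ := (Real.pi:ℂ)^2/6/ε + (x - 1/2) * Real.log ε + J x
  - b2 x * ε / 4 + b3 x * ε^2 / 72 - b5 x * ε^4 / 14400

theorem master {a : ℝ} (ha : 0 < a) : ∃ C : ℝ, 0 ≤ C ∧ ∀ᶠ ε : ℝ in 𝓝[>] 0, ∀ x : ℂ, a ≤ x.re →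
    ‖Lq ε x - Lmain ε x‖ ≤ C * ε^5 * (1 + ‖x‖)^7 := by
  obtain ⟨C, hC0, hC⟩ := Phi_deriv_bound ha
  obtain ⟨D, hD0, hD⟩ := log_expansion
  refine ⟨2 * C + D, by positivity, ?_⟩
  filter_upwards [hD, self_mem_nhdsWithin, nhdsWithin_le_nhds (eventually_le_nhds one_pos)]
    with ε hD hε hε1 x hx
  have hε : 0 < ε := hε
  have em := euler_maclaurin (fun j t => iteratedDeriv j (Phi x) (t:ℂ))
    (fun j _ t _ => Phi_hasDerivAt x j t)
    (fun t _ => (Phi_hasDerivAt x 5 t).continuousAt.continuousWithinAt) (C * (1 + ‖x‖)^7) ε hε hε1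
    (fun j hj t ht => hC x hx j hj t ht)
  obtain ⟨d0, d1, d3⟩ := Phi_deriv_zero x
  simp only [ofReal_zero, d0, d1, d3] at em
  simp only [iteratedDeriv_zero] at em
  have hx1 : ‖(1/2:ℂ) - x‖ ≤ (1 + ‖x‖)^7 := by
    have h1 : ‖(1/2:ℂ)-x‖ ≤ 1/2 + ‖x‖ := by
      refine (norm_sub_le _ _).trans (le_of_eq ?_); simp
    have h2 : (1 + ‖x‖)^1 ≤ (1 + ‖x‖)^7 :=
      pow_le_pow_right₀ (by linarith [norm_nonneg x]) (by norm_num)
    linarith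
  have h2 : ‖(1/2 - x) * (log (1 - exp (-(ε:ℂ))) - (Real.log ε - ε/2 + ε^2/24 - ε^4/2880))‖
      ≤ (1 + ‖x‖)^7 * (D * ε^5) := by
    rw [norm_mul]; exact mul_le_mul hx1 hD (norm_nonneg _) (by positivity)
  refine le_trans (le_of_eq_of_le ?_ (norm_sub_le_of_le em h2)) (le_of_eq (by ring))
  rw [Lq_eq ha hx hε, Lmain, J]
  congr 1
  ring

end NahmCE
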