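import Pool.Agent.Lib.MP_5c0a0e_nt.EM

/-! The regularised kernel `Phi` and its bounds. -/

namespace NahmCE

open MeasureTheory Filter Topology Set Complex

lemma exists_expRem (n : ℕ) : ∃ A : ℂ → ℂ, Differentiable ℂ A ∧
    ∀ z, exp z = (∑ i ∈ Finset.range n, z ^ i / (i.factorial : ℂ)) + z ^ n * A z := by
  obtain ⟨F, hF, h⟩ := (analyticAt_cexp (z := 0)).exists_eq_sum_add_pow_mul n
  have h' : ∀ z, exp z = (∑ i ∈ Finset.range n, z ^ i / (i.factorial : ℂ)) + z ^ n * F z := by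
    intro z
    have := h z
    simpa [iteratedDeriv_eq_iterate, iter_deriv_exp] using this
  refine ⟨F, fun z => ?_, h'⟩
  by_cases hz : z = 0
  · rw [hz]; exact hF.differentiableAt
  · have : F =ᶠ[𝓝 z] fun w => (exp w - ∑ i ∈ Finset.range n, w ^ i / (i.factorial : ℂ)) / w ^ n := by
      filter_upwards [isOpen_ne.mem_nhds hz] with w hw
      rw [h' w]; field_simp; ring
    refine DifferentiableAt.congr_of_eventuallyEq ?_ this
    exact DifferentiableAt.div (by fun_prop) (by fun_prop) (pow_ne_zero _ hz)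

noncomputable def expRem (n : ℕ) : ℂ → ℂ := (exists_expRem n).choose

@[fun_prop] lemma expRem_diff (n : ℕ) : Differentiable ℂ (expRem n) := (exists_expRem n).choose_spec.1

@[fun_prop] lemma expRem_cont (n : ℕ) : Continuous (expRem n) := (expRem_diff n).continuous

lemma exp_eq7 (z : ℂ) : exp z = 1 + z + z^2/2 + z^3/6 + z^4/24 + z^5/120 + z^6/720
    + z^7 * expRem 7 z := by
  rw [(exists_expRem 7).choose_spec.2 z]
  simp [Finset.sum_range_succ, Nat.factorial, expRem]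

lemma exp_eq5 (z : ℂ) : exp z = 1 + z + z^2/2 + z^3/6 + z^4/24 + z^5 * expRem 5 z := by
  rw [(exists_expRem 5).choose_spec.2 z]
  simp [Finset.sum_range_succ, Nat.factorial, expRem]

noncomputable def hh (z : ℂ) : ℂ :=
  1 - z/2 + z^2/6 - z^3/24 + z^4/120 - z^5/720 + z^6 * expRem 7 (-z)

@[fun_prop] lemma hh_diff : Differentiable ℂ hh := by unfold hh; fun_prop

lemma mul_hh (z : ℂ) : z * hh z = 1 - exp (-z) := by
  rw [exp_eq7, hh]; ring

lemma hh_ne {z : ℂ} (hz : |z.im| < 1) : hh z ≠ 0 := by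
  intro h
  have h1 : exp (-z) = 1 := by have := mul_hh z; rw [h] at this; linear_combination this
  obtain ⟨n, hn⟩ := exp_eq_one_iff.1 h1
  have him : -z.im = n * (2 * Real.pi) := by
    have := congrArg Complex.im hn; simpa using this
  have hn0 : n = 0 := by
    by_contra hne
    have h3 : (1:ℝ) ≤ |(n:ℝ)| := by exact_mod_cast Int.one_le_abs hne
    have h4 : |z.im| = |(n:ℝ)| * (2 * Real.pi) := by
      rw [← abs_neg, him, abs_mul, abs_of_pos (by positivity : 0 < 2 * Real.pi)]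
    nlinarith [Real.pi_gt_three]
  have hz0 : z = 0 := by rw [hn0] at hn; simpa using hn
  rw [hz0] at h; simp [hh] at h

noncomputable def b2 (x : ℂ) : ℂ := x^2 - x + 1/6
noncomputable def b3 (x : ℂ) : ℂ := x^3 - 3/2*x^2 + x/2
noncomputable def b4 (x : ℂ) : ℂ := x^4 - 2*x^3 + x^2 - 1/30
noncomputable def b5 (x : ℂ) : ℂ := x^5 - 5/2*x^4 + 5/3*x^3 - x/6

noncomputable def TT (x z : ℂ) : ℂ := (b2 x/2 + (1/2-x)) + (-b3 x/6 - (1/2-x)/2) * z
  + (b4 x/24 + (1/2-x)/6) * z^2 + (-b5 x/120 - (1/2-x)/24) * z^3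

noncomputable def G0 (x z : ℂ) : ℂ := 19/4320 - 1/120 * x - 1/1440 * x^2 + 1/288 * x^4 - 1/240 * x^5 + 1/720 * x^6 - 47/17280 * z + 23/4320 * z * x + 1/2880 * z * x^2 + 1/4320 * z * x^3 - 1/576 * z * x^4 + 1/720 * z * x^5 + 91/86400 * z^2 - 37/17280 * z^2 * x - 1/8640 * z^2 * x^3 + 1/1920 * z^2 * x^4 - 1/2880 * z^2 * x^5 - 151/518400 * z^3 + 49/86400 * z^3 * x + 1/17280 * z^3 * x^2 - 1/8640 * z^3 * x^4 + 1/14400 * z^3 * x^5 + 11/172800 * z^4 - 13/103680 * z^4 * x - 1/51840 * z^4 * x^3 + 1/34560 * z^4 * x^4 - 1/86400 * z^4 * x^5 - 1/86400 * z^5 + 1/43200 * z^5 * x + 1/1036800 * z^6 - 1/518400 * z^6 * x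

noncomputable def gg (x z : ℂ) : ℂ := G0 x z - x^7 * z * expRem 7 (-(x*z))
  - expRem 7 (-z) * (1 + (1/2-x) * z + z^2 * TT x z)
  + (1/2-x) * z^2 * expRem 7 (-z) * (hh z + (1 - z/2 + z^2/6 - z^3/24 + z^4/120 - z^5/720))

@[fun_prop] lemma gg_diff (x : ℂ) : Differentiable ℂ (gg x) := by
  unfold gg G0 TT; fun_prop

lemma gg_eq (x z : ℂ) : z^6 * gg x z
    = exp (-(x*z)) - hh z * (1 + (1/2-x) * z * exp (-z) + z^2 * TT x z) := by
  have h := mul_hh z
  have : exp (-z) = 1 - z * hh z := by linear_combination h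
  rw [this, exp_eq7 (-(x*z))]
  simp only [gg, hh, G0, TT, b2, b3, b4, b5]
  ring

noncomputable def Phi (x z : ℂ) : ℂ := TT x z + z^4 * (gg x z / hh z)

lemma Phi_eq (x : ℂ) {z : ℂ} (hz : z ≠ 0) (h : hh z ≠ 0) :
    Phi x z = exp (-(x*z)) / (z * (1 - exp (-z))) - 1/z^2 - (1/2-x) * exp (-z) / z := by
  have h1 := gg_eq x z
  have h2 : exp (-(x*z)) = z^6 * gg x z + hh z * (1 + (1/2-x) * z * exp (-z) + z^2 * TT x z) := by
    linear_combination -h1
  rw [← mul_hh, h2, Phi]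
  field_simp
  ring

lemma Phi_analytic (x : ℂ) {z : ℂ} (hz : |z.im| < 1) : AnalyticAt ℂ (Phi x) z := by
  have h1 : AnalyticAt ℂ (gg x) z := (gg_diff x).analyticAt z
  have h2 : AnalyticAt ℂ hh z := hh_diff.analyticAt z
  have h3 : AnalyticAt ℂ (fun z => gg x z / hh z) z := h1.div h2 (hh_ne hz)
  unfold Phi TT
  fun_prop

lemma taylor_aux (c0 c1 c2 c3 : ℂ) (F : ℂ → ℂ) (hF : AnalyticAt ℂ F 0) :
    iteratedDeriv 1 (fun z => c0 + c1 * z^1 + c2 * z^2 + c3 * z^3 + z^4 * F z) 0 = c1 ∧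
    iteratedDeriv 3 (fun z => c0 + c1 * z^1 + c2 * z^2 + c3 * z^3 + z^4 * F z) 0 = 6 * c3 := by
  have h4 : ∀ n : ℕ, ContDiffAt ℂ n F 0 := fun n => hF.contDiffAt
  have key : ∀ n : ℕ, iteratedDeriv n (fun z => c0 + c1 * z^1 + c2 * z^2 + c3 * z^3 + z^4 * F z) 0
      = iteratedDeriv n (fun _ : ℂ => c0) 0 + c1 * iteratedDeriv n (fun z : ℂ => z^1) 0
        + c2 * iteratedDeriv n (fun z : ℂ => z^2) 0 + c3 * iteratedDeriv n (fun z : ℂ => z^3) 0
        + ∑ i ∈ Finset.range (n+1), n.choose i * iteratedDeriv i (fun z : ℂ => z^4) 0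
          * iteratedDeriv (n-i) F 0 := by
    intro n
    have := h4 n
    rw [iteratedDeriv_fun_add (by fun_prop) (by fun_prop),
      iteratedDeriv_fun_add (by fun_prop) (by fun_prop),
      iteratedDeriv_fun_add (by fun_prop) (by fun_prop),
      iteratedDeriv_fun_add (by fun_prop) (by fun_prop),
      iteratedDeriv_fun_mul (f := fun z : ℂ => z^4) (g := F) (by fun_prop) this]
    simp only [iteratedDeriv_const_mul_field]
  rw [key, key]
  simp only [iteratedDeriv_const, iteratedDeriv_fun_pow_zero]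
  simp [Nat.factorial]
  ring

lemma Phi_deriv_zero (x : ℂ) : iteratedDeriv 0 (Phi x) 0 = b2 x/2 + (1/2-x) ∧
    iteratedDeriv 1 (Phi x) 0 = -b3 x/6 - (1/2-x)/2 ∧
    iteratedDeriv 3 (Phi x) 0 = 6 * (-b5 x/120 - (1/2-x)/24) := by
  have h1 : AnalyticAt ℂ (gg x) 0 := (gg_diff x).analyticAt 0
  have h2 : AnalyticAt ℂ hh 0 := hh_diff.analyticAt 0
  have h3 : AnalyticAt ℂ (fun z => gg x z / hh z) 0 := h1.div h2 (hh_ne (by simp))
  have e : Phi x = fun z => (b2 x/2 + (1/2-x)) + (-b3 x/6 - (1/2-x)/2) * z^1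
    + (b4 x/24 + (1/2-x)/6) * z^2 + (-b5 x/120 - (1/2-x)/24) * z^3 + z^4 * (gg x z / hh z) := by
    funext z; simp [Phi, TT]
  rw [e]
  exact ⟨by simp, taylor_aux _ _ _ _ _ h3⟩

lemma exp_neg_le_div {a : ℝ} (ha : 0 < a) (s : ℝ) (hs : 0 ≤ s) :
    Real.exp (-(a * s)) ≤ (2 + 4/a^2) / (1+s)^2 := by
  have h1 : 1 + a*s + (a*s)^2/2 ≤ Real.exp (a*s) := Real.quadratic_le_exp_of_nonneg (by positivity)
  rw [Real.exp_neg, ← one_div, div_le_div_iff₀ (Real.exp_pos _) (by positivity)]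
  have h2 : (2 + 4/a^2) * (1 + a*s + (a*s)^2/2) ≤ (2 + 4/a^2) * Real.exp (a*s) :=
    mul_le_mul_of_nonneg_left h1 (by positivity)
  have h3 : (2 + 4/a^2) * (1 + a*s + (a*s)^2/2)
      = 2 + 2*s^2 + (2*(a*s) + (a*s)^2 + 4/a^2*(1 + a*s)) := by field_simp; ring
  have h4 : 0 ≤ 2*(a*s) + (a*s)^2 + 4/a^2*(1 + a*s) := by positivity
  nlinarith [sq_nonneg (s-1)]

lemma one_sub_exp_lower {z : ℂ} {r : ℝ} (hr : 0 < r) (hr8 : r ≤ 1/8) (h1 : r ≤ ‖z‖)
    (h2 : -r ≤ z.re) (h3 : |z.im| ≤ r) : r/2 ≤ ‖1 - exp (-z)‖ := by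
  by_cases hz : ‖z‖ ≤ 1/2
  · have h4 : ‖exp (-z) - 1 - (-z)‖ ≤ ‖-z‖^2 :=
      norm_exp_sub_one_sub_id_le (by rw [norm_neg]; linarith)
    rw [norm_neg] at h4
    have h5 : ‖z‖ ≤ ‖1 - exp (-z)‖ + ‖exp (-z) - 1 - (-z)‖ := by
      refine le_of_eq_of_le ?_ (norm_add_le _ _); congr 1; ring
    nlinarith [norm_nonneg z]
  · push Not at hz
    have h4 : ‖z‖ ≤ |z.re| + |z.im| := norm_le_abs_re_add_abs_im z
    have h5 : 3/8 ≤ z.re := by
      rcases abs_cases z.re with h | h <;> linarith [h.1, h.2]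
    have h6 : ‖exp (-z)‖ ≤ 3/4 := by
      rw [norm_exp, neg_re]
      have : Real.exp (-z.re) ≤ Real.exp (-(3/8)) := Real.exp_le_exp.2 (by linarith)
      have h7 : 3/8 + 1 ≤ Real.exp (3/8) := Real.add_one_le_exp _
      have h8 : Real.exp (-(3/8)) * Real.exp (3/8) = 1 := by rw [← Real.exp_add]; simp
      nlinarith [Real.exp_pos (-(3/8))]
    have h7 : (1:ℝ) ≤ ‖1 - exp (-z)‖ + ‖exp (-z)‖ := by
      refine le_of_eq_of_le ?_ (norm_add_le _ _); simp
    linarith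

lemma Phi_bound1 {a : ℝ} (ha : 0 < a) {x : ℂ} (hx : a ≤ x.re) {r : ℝ} (hr : 0 < r)
    (hrx : r * (1 + ‖x‖) ≤ 1/8) (s : ℝ) (hs : 0 ≤ s) (w : ℂ) (hw : ‖w‖ ≤ r)
    (hz : r ≤ ‖(s:ℂ) + w‖) :
    ‖Phi x (s + w)‖ ≤ (6 * (2 + 4/a^2) + 22) / r^2 / (1+s)^2 := by
  have hr8 : r ≤ 1/8 := by nlinarith [norm_nonneg x]
  set z : ℂ := s + w with hzdef
  have hre : z.re = s + w.re := by simp [hzdef]
  have him : z.im = w.im := by simp [hzdef]
  have hwre : |w.re| ≤ r := (abs_re_le_norm w).trans hw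
  have hwim : |w.im| ≤ r := (abs_im_le_norm w).trans hw
  have hz0 : z ≠ 0 := by intro h; rw [h, norm_zero] at hz; linarith
  have hl := one_sub_exp_lower hr hr8 hz (by rw [hre]; linarith [(abs_le.1 hwre).1])
    (by rw [him]; exact hwim)
  rw [Phi_eq x hz0 (hh_ne (by rw [him]; linarith))]
  have he : Real.exp 1 ≤ 3 := by linarith [Real.exp_one_lt_d9]
  have t1 : ‖exp (-(x*z)) / (z * (1 - exp (-z)))‖ ≤ 6 * (2 + 4/a^2) / r^2 / (1+s)^2 := by
    have e1 : ‖exp (-(x*z))‖ ≤ 3 * ((2 + 4/a^2) / (1+s)^2) := by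
      have : -(x*z) = -(x*w) + -(x*s) := by rw [hzdef]; ring
      rw [this, exp_add, norm_mul]
      refine mul_le_mul ?_ ?_ (norm_nonneg _) (by norm_num)
      · refine (norm_exp_le_exp_norm _).trans (le_trans (Real.exp_le_exp.2 ?_) he)
        rw [norm_neg, norm_mul]
        nlinarith [norm_nonneg x, norm_nonneg w, mul_le_mul_of_nonneg_left hw (norm_nonneg x)]
      · rw [norm_exp]
        refine le_trans (Real.exp_le_exp.2 ?_) (exp_neg_le_div ha s hs)
        simp only [neg_re, mul_re, ofReal_re, ofReal_im, mul_zero, sub_zero]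
        nlinarith
    rw [norm_div, norm_mul]
    calc _ ≤ 3 * ((2 + 4/a^2) / (1+s)^2) / (r * (r/2)) :=
          div_le_div₀ (by positivity) e1 (by positivity)
            (mul_le_mul hz hl (by positivity) (norm_nonneg _))
      _ = _ := by field_simp; ring
  have t2 : ‖1/z^2‖ ≤ 4 / r^2 / (1+s)^2 := by
    have h1 : s - r ≤ ‖z‖ := by
      have := re_le_norm z; rw [hre] at this; linarith [(abs_le.1 hwre).1]
    have h2 : r * (1+s) ≤ 2 * ‖z‖ := by nlinarith
    rw [norm_div, norm_pow, norm_one, div_div, div_le_div_iff₀ (by positivity) (by positivity)]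
    have := pow_le_pow_left₀ (by positivity) h2 2
    nlinarith
  have t3 : ‖(1/2-x) * exp (-z) / z‖ ≤ 18 / r^2 / (1+s)^2 := by
    have e1 : ‖exp (-z)‖ ≤ 3 * (6 / (1+s)^2) := by
      have : -z = -w + -(s:ℂ) := by rw [hzdef]; ring
      rw [this, exp_add, norm_mul]
      refine mul_le_mul ?_ ?_ (norm_nonneg _) (by norm_num)
      · refine (norm_exp_le_exp_norm _).trans (le_trans (Real.exp_le_exp.2 ?_) he)
        rw [norm_neg]; linarith
      · rw [norm_exp]
        have := exp_neg_le_div one_pos s hs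
        norm_num at this ⊢
        exact this
    have e2 : ‖(1/2:ℂ)-x‖ ≤ 1 / r := by
      rw [le_div_iff₀ hr]
      have : ‖(1/2:ℂ)-x‖ ≤ 1/2 + ‖x‖ := by
        refine (norm_sub_le _ _).trans (le_of_eq ?_); simp
      nlinarith
    rw [norm_div, norm_mul]
    calc _ ≤ 1 / r * (3 * (6 / (1+s)^2)) / r :=
          div_le_div₀ (by positivity) (mul_le_mul e2 e1 (norm_nonneg _) (by positivity)) hr hz
      _ = _ := by field_simp; ring
  calc _ ≤ _ := norm_sub_le _ _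
    _ ≤ _ := add_le_add_left (norm_sub_le _ _) _
    _ ≤ _ := add_le_add (add_le_add t1 t2) t3
    _ = _ := by ring

lemma Phi_bound2 {a : ℝ} (ha : 0 < a) {x : ℂ} (hx : a ≤ x.re) {r : ℝ} (hr : 0 < r)
    (hrx : r * (1 + ‖x‖) ≤ 1/8) (s : ℝ) (hs : 0 ≤ s) (w : ℂ) (hw : ‖w‖ ≤ r) :
    ‖Phi x (s + w)‖ ≤ 4 * (6 * (2 + 4/a^2) + 22) / r^2 / (1+s)^2 := by
  have hr8 : r ≤ 1/8 := by nlinarith [norm_nonneg x]
  set K := 6 * (2 + 4/a^2) + 22 with hK
  have hK0 : 0 ≤ K := by positivity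
  by_cases hz : r ≤ ‖(s:ℂ) + w‖
  · refine (Phi_bound1 ha hx hr hrx s hs w hw hz).trans ?_
    gcongr; linarith
  · push Not at hz
    have hd : DiffContOnCl ℂ (Phi x) (Metric.ball 0 r) := by
      refine DifferentiableOn.diffContOnCl fun z hz => ?_
      rw [closure_ball _ hr.ne', mem_closedBall_zero_iff] at hz
      exact (Phi_analytic x (by linarith [abs_im_le_norm z])).differentiableAt.differentiableWithinAt
    have hb := norm_le_of_forall_mem_frontier_norm_le Metric.isBounded_ball hd (C := K / r^2)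
      (fun z hz => by
        rw [frontier_ball _ hr.ne', mem_sphere_zero_iff_norm] at hz
        have := Phi_bound1 ha hx hr hrx 0 le_rfl z hz.le (by simp [hz])
        simpa using this) (z := s + w) (subset_closure (by simpa using hz))
    refine hb.trans ?_
    have h1 : s ≤ 1 := by
      have h2 := re_le_norm ((s:ℂ) + w)
      have h3 := (abs_le.1 ((abs_re_le_norm w).trans hw)).1
      simp only [add_re, ofReal_re] at h2
      linarith
    rw [le_div_iff₀ (by positivity)]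
    have : (1+s)^2 ≤ 4 := by nlinarith
    calc _ ≤ K / r^2 * 4 := mul_le_mul_of_nonneg_left this (by positivity)
      _ = _ := by ring

lemma Phi_deriv_bound {a : ℝ} (ha : 0 < a) : ∃ C : ℝ, 0 ≤ C ∧ ∀ x : ℂ, a ≤ x.re → ∀ j ≤ 5,
    ∀ s : ℝ, 0 ≤ s → ‖iteratedDeriv j (Phi x) s‖ ≤ C * (1 + ‖x‖)^7 / (1+s)^2 := by
  set K := 4 * (6 * (2 + 4/a^2) + 22) with hK
  have hK0 : 0 ≤ K := by positivity
  refine ⟨120 * K * 8^7, by positivity, fun x hx j hj s hs => ?_⟩
  set r : ℝ := 1 / (8 * (1 + ‖x‖)) with hrdef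
  have hr : 0 < r := by positivity
  have hrx : r * (1 + ‖x‖) ≤ 1/8 := by rw [hrdef]; exact le_of_eq (by field_simp)
  have hr8 : r ≤ 1/8 := by nlinarith [norm_nonneg x]
  have hd : DiffContOnCl ℂ (Phi x) (Metric.ball (s:ℂ) r) := by
    refine DifferentiableOn.diffContOnCl fun z hz => ?_
    rw [closure_ball _ hr.ne', mem_closedBall_iff_norm] at hz
    have := abs_im_le_norm (z - s)
    simp only [sub_im, ofReal_im, sub_zero] at this
    exact (Phi_analytic x (by linarith)).differentiableAt.differentiableWithinAt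
  have hb := norm_iteratedDeriv_le_of_forall_mem_sphere_norm_le j hr hd
    (C := K / r^2 / (1+s)^2) (fun z hz => by
      rw [mem_sphere_iff_norm] at hz
      have := Phi_bound2 ha hx hr hrx s hs (z - s) hz.le
      simpa using this)
  refine hb.trans ?_
  have h1 : (j.factorial : ℝ) ≤ 120 := by
    have : j.factorial ≤ (5:ℕ).factorial := Nat.factorial_le hj
    exact_mod_cast this
  have h2 : r^5 ≤ r^j := pow_le_pow_of_le_one hr.le (by linarith) hj
  calc _ ≤ 120 * (K / r^2 / (1+s)^2) / r^5 :=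
        div_le_div₀ (by positivity) (mul_le_mul_of_nonneg_right h1 (by positivity))
          (by positivity) h2
    _ = _ := by rw [hrdef]; field_simp

end NahmCE
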