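import Pool.Agent.Lib.MP_5c0a0e_nt.Master

/-! Product formulas for the basic q-series used. -/

namespace NahmCE

open Filter Topology Set Complex

noncomputable def qp (ε : ℝ) (n : ℕ) : ℝ :=
  ∏ j ∈ Finset.range n, (1 - Real.exp (-(ε * ((j:ℝ)+1))))

noncomputable def P (ε : ℝ) (z : ℂ) : ℂ := exp (-S ε z)

variable {ε : ℝ}

lemma qc_pow (ε : ℝ) (k : ℕ) : exp (-(ε:ℂ))^(k+1) = ((Real.exp (-(ε * ((k:ℝ)+1))) : ℝ) : ℂ) := by
  rw [← exp_nat_mul]; push_cast; congr 1; ring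

lemma one_sub_pos' (hε : 0 < ε) (k : ℕ) : 0 < 1 - Real.exp (-(ε * ((k:ℝ)+1))) :=
  one_sub_exp_pos (by positivity)

lemma norm_qc (ε : ℝ) : ‖exp (-(ε:ℂ))‖ = Real.exp (-ε) := by rw [norm_exp]; simp

lemma norm_qc_lt (hε : 0 < ε) : ‖exp (-(ε:ℂ))‖ < 1 := by rw [norm_exp]; simpa using hε

lemma S_term_bound (hε : 0 < ε) (z : ℂ) (k : ℕ) :
    ‖z^(k+1) / (((k:ℂ)+1) * (1 - exp (-(ε:ℂ))^(k+1)))‖
      ≤ ‖z‖ / (1 - Real.exp (-ε)) * ‖z‖^k := by
  have h1 := one_sub_exp_pos hε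
  have h2 : 1 - Real.exp (-ε) ≤ ‖((k:ℂ)+1) * (1 - exp (-(ε:ℂ))^(k+1))‖ := by
    rw [qc_pow, norm_mul]
    have e1 : ((k:ℂ)+1) = (((k:ℝ)+1 : ℝ):ℂ) := by push_cast; rfl
    have e2 : (1:ℂ) - ((Real.exp (-(ε * ((k:ℝ)+1))) : ℝ) : ℂ)
      = ((1 - Real.exp (-(ε * ((k:ℝ)+1))) : ℝ) : ℂ) := by push_cast; rfl
    rw [e1, e2, norm_real, norm_real, Real.norm_eq_abs, Real.norm_eq_abs,
      abs_of_pos (one_sub_pos' hε k), abs_of_pos (by positivity)]
    have h3 : Real.exp (-(ε * ((k:ℝ)+1))) ≤ Real.exp (-ε) :=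
      Real.exp_le_exp.2 (by nlinarith [Nat.cast_nonneg (α := ℝ) k])
    nlinarith [Nat.cast_nonneg (α := ℝ) k, one_sub_pos' hε k]
  rw [norm_div, norm_pow, div_mul_eq_mul_div, pow_succ']
  exact div_le_div_of_nonneg_left (by positivity) h1 h2

lemma S_summable (hε : 0 < ε) {z : ℂ} (hz : ‖z‖ < 1) :
    Summable fun k : ℕ => z^(k+1) / (((k:ℂ)+1) * (1 - exp (-(ε:ℂ))^(k+1))) :=
  Summable.of_norm_bounded ((summable_geometric_of_lt_one (norm_nonneg _) hz).mul_left _)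
    (S_term_bound hε z)

lemma S_bound (hε : 0 < ε) {z : ℂ} (hz : ‖z‖ < 1) :
    ‖S ε z‖ ≤ ‖z‖ / (1 - Real.exp (-ε)) * (1 - ‖z‖)⁻¹ :=
  tsum_of_norm_bounded ((hasSum_geometric_of_lt_one (norm_nonneg _) hz).mul_left _)
    (S_term_bound hε z)

lemma norm_q_mul_lt (hε : 0 < ε) {z : ℂ} (hz : ‖z‖ < 1) : ‖exp (-(ε:ℂ)) * z‖ < 1 := by
  rw [norm_mul]; nlinarith [norm_qc_lt hε, norm_nonneg z, norm_nonneg (exp (-(ε:ℂ)))]

lemma S_rec (hε : 0 < ε) {z : ℂ} (hz : ‖z‖ < 1) :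
    S ε z = S ε (exp (-(ε:ℂ)) * z) - log (1 - z) := by
  have h := (S_summable hε (norm_q_mul_lt hε hz)).hasSum.add (hasSum_taylorSeries_neg_log' hz)
  rw [sub_eq_add_neg, S, S, ← h.tsum_eq]
  refine tsum_congr fun k => ?_
  have hk : ((k:ℂ)+1) ≠ 0 := by exact_mod_cast Nat.succ_ne_zero k
  have h0 : 1 - exp (-(ε:ℂ))^(k+1) ≠ 0 := by
    rw [qc_pow]; exact_mod_cast (one_sub_pos' hε k).ne'
  rw [mul_pow]
  field_simp
  ring

lemma one_sub_ne {z : ℂ} (hz : ‖z‖ < 1) : 1 - z ≠ 0 := by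
  intro h
  have : z = 1 := by linear_combination -h
  rw [this] at hz; simp at hz

lemma P_rec (hε : 0 < ε) {z : ℂ} (hz : ‖z‖ < 1) :
    P ε z = (1 - z) * P ε (exp (-(ε:ℂ)) * z) := by
  rw [P, P, S_rec hε hz, neg_sub, sub_eq_add_neg, exp_add, exp_log (one_sub_ne hz)]

lemma P_ne (ε : ℝ) (z : ℂ) : P ε z ≠ 0 := exp_ne_zero _

lemma P_tendsto (hε : 0 < ε) {z : ℕ → ℂ} (hz : Tendsto z atTop (𝓝 0)) :
    Tendsto (fun n => P ε (z n)) atTop (𝓝 1) := by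
  have h1 : Tendsto (fun n => S ε (z n)) atTop (𝓝 0) := by
    have hn := tendsto_zero_iff_norm_tendsto_zero.1 hz
    have t : Tendsto (fun n => ‖z n‖ / (1 - Real.exp (-ε)) * (1 - ‖z n‖)⁻¹) atTop
        (𝓝 (0 / (1 - Real.exp (-ε)) * (1 - 0)⁻¹)) :=
      (hn.div_const _).mul ((hn.const_sub 1).inv₀ (by norm_num))
    rw [zero_div, zero_mul] at t
    refine squeeze_zero_norm' ?_ t
    filter_upwards [hn.eventually (eventually_lt_nhds one_pos)] with n h using S_bound hε h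
  have := (continuous_exp.tendsto _).comp h1.neg
  simpa [P, Function.comp_def] using this

lemma q_pow_tendsto (hε : 0 < ε) (z : ℂ) :
    Tendsto (fun n : ℕ => exp (-(ε:ℂ))^n * z) atTop (𝓝 0) := by
  simpa using (tendsto_pow_atTop_nhds_zero_of_norm_lt_one (norm_qc_lt hε)).mul_const z

lemma norm_q_pow_mul_le (hε : 0 < ε) (z : ℂ) (n : ℕ) : ‖exp (-(ε:ℂ))^n * z‖ ≤ ‖z‖ := by
  rw [norm_mul, norm_pow]
  exact mul_le_of_le_one_left (norm_nonneg _) (pow_le_one₀ (norm_nonneg _) (norm_qc_lt hε).le)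

lemma const_of_rec {K : ℕ → ℂ} (h : ∀ n, K n = K (n+1)) (ht : Tendsto K atTop (𝓝 1)) :
    K 0 = 1 := by
  have : ∀ n, K n = K 0 := by
    intro n; induction n with
    | zero => rfl
    | succ n ih => rw [← h, ih]
  have h2 : K = fun _ => K 0 := funext this
  rw [h2] at ht
  exact tendsto_nhds_unique tendsto_const_nhds ht

lemma qp_pos (hε : 0 < ε) (n : ℕ) : 0 < qp ε n :=
  Finset.prod_pos fun j _ => one_sub_pos' hε j

lemma qp_succ (ε : ℝ) (n : ℕ) : (qp ε (n+1) : ℂ) = qp ε n * (1 - exp (-(ε:ℂ))^(n+1)) := by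
  rw [qp, Finset.prod_range_succ, qc_pow, ← qp]; push_cast; rfl

lemma qp_lower (hε : 0 < ε) : ∃ c : ℝ, 0 < c ∧ ∀ n, c ≤ qp ε n := by
  set q := exp (-(ε:ℂ)) with hq
  have hq1 : ‖q‖ < 1 := norm_qc_lt hε
  have h1 : ∀ n : ℕ, P ε q = qp ε n * P ε (q^n * q) := by
    intro n; induction n with
    | zero => simp [qp]
    | succ n ih =>
      rw [ih, qp_succ, P_rec hε ((norm_q_pow_mul_le hε q n).trans_lt hq1), pow_succ]
      rw [← hq]; ring_nf
  set M := ‖q‖ / (1 - Real.exp (-ε)) * (1 - ‖q‖)⁻¹ with hM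
  refine ⟨‖P ε q‖ / Real.exp M, div_pos (norm_pos_iff.2 (P_ne _ _)) (Real.exp_pos _), fun n => ?_⟩
  rw [div_le_iff₀ (Real.exp_pos _), h1 n, norm_mul, norm_real, Real.norm_eq_abs,
    abs_of_pos (qp_pos hε n)]
  refine mul_le_mul_of_nonneg_left ?_ (qp_pos hε n).le
  refine (norm_exp_le_exp_norm _).trans (Real.exp_le_exp.2 ?_)
  have h2 := norm_q_pow_mul_le hε q n
  rw [← hq] at h2
  rw [norm_neg]
  refine (S_bound hε (h2.trans_lt hq1)).trans ?_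
  have := one_sub_exp_pos hε
  have h3 : 0 < 1 - ‖q‖ := by linarith
  have h4 : 0 < 1 - ‖q ^ n * q‖ := by linarith
  rw [hM]
  gcongr

/-- Terms of the two variable series with bilinear exponent. -/
noncomputable def Ht (ε : ℝ) (a b : ℂ) (p : ℕ × ℕ) : ℂ :=
  exp (-(ε:ℂ))^(p.1*p.2) * a^p.1 * b^p.2 / (qp ε p.1 * qp ε p.2)

lemma Ht_bound (hε : 0 < ε) : ∃ c : ℝ, 0 < c ∧ ∀ (a b : ℂ) (x y : ℝ), ‖a‖ ≤ x → ‖b‖ ≤ y →
    ∀ p, ‖Ht ε a b p‖ ≤ c * (x^p.1 * y^p.2) := by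
  obtain ⟨c, hc, h⟩ := qp_lower hε
  refine ⟨(c*c)⁻¹, by positivity, fun a b x y hx hy p => ?_⟩
  have hx0 : 0 ≤ x := (norm_nonneg _).trans hx
  have hy0 : 0 ≤ y := (norm_nonneg _).trans hy
  rw [Ht, norm_div, norm_mul, norm_mul, norm_mul, norm_pow, norm_pow, norm_pow, norm_real,
    norm_real, Real.norm_eq_abs, Real.norm_eq_abs, abs_of_pos (qp_pos hε _),
    abs_of_pos (qp_pos hε _), ← div_eq_inv_mul]
  refine div_le_div₀ (by positivity) ?_ (by positivity) (mul_le_mul (h _) (h _) hc.le (qp_pos hε _).le)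
  have : ‖exp (-(ε:ℂ))‖^(p.1*p.2) ≤ 1 := pow_le_one₀ (norm_nonneg _) (norm_qc_lt hε).le
  calc _ ≤ 1 * x^p.1 * y^p.2 := by gcongr
    _ = _ := by ring

lemma summable_geo2 {x y : ℝ} (hx0 : 0 ≤ x) (hx : x < 1) (hy0 : 0 ≤ y) (hy : y < 1) :
    Summable fun p : ℕ × ℕ => x^p.1 * y^p.2 :=
  (summable_geometric_of_lt_one hx0 hx).mul_of_nonneg (summable_geometric_of_lt_one hy0 hy)
    (fun _ => by positivity) (fun _ => by positivity)

lemma Ht_summable (hε : 0 < ε) {a b : ℂ} (ha : ‖a‖ < 1) (hb : ‖b‖ < 1) :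
    Summable fun p => ‖Ht ε a b p‖ := by
  obtain ⟨c, -, h⟩ := Ht_bound hε
  exact Summable.of_nonneg_of_le (fun _ => norm_nonneg _) (h a b _ _ le_rfl le_rfl)
    ((summable_geo2 (norm_nonneg _) ha (norm_nonneg _) hb).mul_left c)

noncomputable def H (ε : ℝ) (a b : ℂ) : ℂ := ∑' p, Ht ε a b p

lemma H_rec1 (hε : 0 < ε) {a b : ℂ} (ha : ‖a‖ < 1) (hb : ‖b‖ < 1) :
    H ε a b - H ε (exp (-(ε:ℂ)) * a) b = a * H ε a (exp (-(ε:ℂ)) * b) := by
  have h1 := (Ht_summable hε ha hb).of_norm.hasSum.sub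
    (Ht_summable hε (norm_q_mul_lt hε ha) hb).of_norm.hasSum
  have h2 := (Ht_summable hε ha (norm_q_mul_lt hε hb)).of_norm.hasSum.mul_left a
  have hinj : Function.Injective (fun p : ℕ × ℕ => (p.1 + 1, p.2)) := by
    intro p p' h; simp only [Prod.mk.injEq, add_left_inj] at h; exact Prod.ext h.1 h.2
  refine h1.unique ((hinj.hasSum_iff ?_).1 (h2.congr_fun ?_))
  · rintro ⟨n, m⟩ hn
    cases n with
    | zero => simp [Ht]
    | succ n => exact absurd ⟨(n, m), rfl⟩ hn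
  · rintro ⟨n, m⟩
    have h0 : 1 - exp (-(ε:ℂ))^(n+1) ≠ 0 := by
      rw [qc_pow]; exact_mod_cast (one_sub_pos' hε n).ne'
    have h3 : (qp ε n : ℂ) ≠ 0 := by exact_mod_cast (qp_pos hε n).ne'
    have h4 : (qp ε m : ℂ) ≠ 0 := by exact_mod_cast (qp_pos hε m).ne'
    simp only [Function.comp, Ht, qp_succ, mul_pow]
    field_simp
    ring

lemma H_symm (ε : ℝ) (a b : ℂ) : H ε a b = H ε b a := by
  rw [H, H, ← (Equiv.prodComm ℕ ℕ).tsum_eq]
  refine tsum_congr fun p => ?_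
  simp only [Ht, Equiv.prodComm_apply, Prod.fst_swap, Prod.snd_swap]
  rw [mul_comm p.2 p.1]; ring

lemma H_rec2 (hε : 0 < ε) {a b : ℂ} (ha : ‖a‖ < 1) (hb : ‖b‖ < 1) :
    (1 - a) * H ε a b = (1 - a * b) * H ε (exp (-(ε:ℂ)) * a) b := by
  have h1 := H_rec1 hε ha hb
  have h2 := H_rec1 hε hb ha
  rw [H_symm ε b a, H_symm ε _ a, H_symm ε b] at h2
  linear_combination h1 - a * h2

lemma norm_mul_lt {a b : ℂ} (ha : ‖a‖ < 1) (hb : ‖b‖ < 1) : ‖a * b‖ < 1 := by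
  rw [norm_mul]; nlinarith [norm_nonneg a, norm_nonneg b]

theorem H_eq (hε : 0 < ε) {a b : ℂ} (ha : ‖a‖ < 1) (hb : ‖b‖ < 1) :
    H ε a b * P ε a * P ε b / P ε (a * b) = 1 := by
  set q := exp (-(ε:ℂ)) with hq
  have step : ∀ a b : ℂ, ‖a‖ < 1 → ‖b‖ < 1 → H ε a b * P ε a * P ε b / P ε (a * b)
      = H ε (q * a) b * P ε (q * a) * P ε b / P ε (q * a * b) := by
    intro a b ha hb
    have h := H_rec2 hε ha hb
    rw [P_rec hε ha, P_rec hε (norm_mul_lt ha hb), ← hq, mul_assoc q a b,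
      div_eq_div_iff (mul_ne_zero (one_sub_ne (norm_mul_lt ha hb)) (P_ne _ _)) (P_ne _ _)]
    rw [← hq] at h
    linear_combination (P ε (q * a) * P ε b * P ε (q * (a * b))) * h
  have key := const_of_rec (K := fun n => H ε (q^n * a) (q^n * b) * P ε (q^n * a) * P ε (q^n * b)
    / P ε (q^n * a * (q^n * b))) (fun n => ?_) ?_
  · simpa using key
  · have ha' := (norm_q_pow_mul_le hε a n).trans_lt ha
    have hb' := (norm_q_pow_mul_le hε b n).trans_lt hb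
    rw [← hq] at ha' hb'
    have s1 := step _ _ ha' hb'
    have s2 := step _ _ hb' (norm_q_mul_lt hε ha')
    rw [← hq, H_symm ε (q^n * b), H_symm ε (q * (q^n * b))] at s2
    have e1 : q^(n+1) * a = q * (q^n * a) := by ring
    have e2 : q^(n+1) * b = q * (q^n * b) := by ring
    rw [e1, e2, s1, mul_right_comm, mul_comm (q * (q^n * a)) (q^n * b), s2,
      mul_comm (q * (q^n * b)) (q * (q^n * a)), mul_right_comm]
  · have ta := q_pow_tendsto hε a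
    have tb := q_pow_tendsto hε b
    rw [← hq] at ta tb
    obtain ⟨c, -, h⟩ := Ht_bound hε
    have tH : Tendsto (fun n : ℕ => H ε (q^n * a) (q^n * b)) atTop (𝓝 (∑' p, Ht ε 0 0 p)) := by
      refine tendsto_tsum_of_dominated_convergence
        ((summable_geo2 (norm_nonneg _) ha (norm_nonneg _) hb).mul_left c) (fun p => ?_)
        (Eventually.of_forall fun n p => h _ _ _ _ (norm_q_pow_mul_le hε a n)
          (norm_q_pow_mul_le hε b n) p)
      exact (((ta.pow _).const_mul _).mul (tb.pow _)).div_const _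
    have e : ∑' p, Ht ε 0 0 p = 1 := by
      rw [tsum_eq_single (0, 0)]
      · simp [Ht, qp]
      · rintro ⟨n, m⟩ hn
        by_cases h0 : n = 0
        · have : m ≠ 0 := by rintro rfl; exact hn (by rw [h0])
          simp [Ht, this]
        · simp [Ht, h0]
    rw [e] at tH
    have := ((tH.mul (P_tendsto hε ta)).mul (P_tendsto hε tb)).div
      (P_tendsto hε (by simpa using ta.mul tb)) one_ne_zero
    simpa [Pi.div_def] using this

/-- Terms of Euler's series. -/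
noncomputable def Ot (ε : ℝ) (c : ℂ) (n : ℕ) : ℂ :=
  exp (-(ε:ℂ) * ((n:ℂ)^2 - n) / 2) * c^n / qp ε n

lemma Ot_bound (hε : 0 < ε) : ∃ c : ℝ, 0 < c ∧ ∀ (a : ℂ) (x : ℝ), ‖a‖ ≤ x →
    ∀ n, ‖Ot ε a n‖ ≤ c * x^n := by
  obtain ⟨c, hc, h⟩ := qp_lower hε
  refine ⟨c⁻¹, by positivity, fun a x hx n => ?_⟩
  have hx0 : 0 ≤ x := (norm_nonneg _).trans hx
  rw [Ot, norm_div, norm_mul, norm_pow, norm_real, Real.norm_eq_abs, abs_of_pos (qp_pos hε _),
    ← div_eq_inv_mul]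
  refine div_le_div₀ (by positivity) ?_ hc (h _)
  have : ‖exp (-(ε:ℂ) * ((n:ℂ)^2 - n) / 2)‖ ≤ 1 := by
    have e : -(ε:ℂ) * ((n:ℂ)^2 - n) / 2 = ((-ε * ((n:ℝ)^2 - n) / 2 : ℝ) : ℂ) := by push_cast; rfl
    rw [e, norm_exp, ofReal_re, Real.exp_le_one_iff]
    have : (n:ℝ) ≤ (n:ℝ)^2 := by exact_mod_cast Nat.le_self_pow (by norm_num) n
    nlinarith
  calc _ ≤ 1 * x^n := by gcongr
    _ = _ := by ring

lemma Ot_summable (hε : 0 < ε) {a : ℂ} (ha : ‖a‖ < 1) : Summable fun n => ‖Ot ε a n‖ := by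
  obtain ⟨c, -, h⟩ := Ot_bound hε
  exact Summable.of_nonneg_of_le (fun _ => norm_nonneg _) (h a _ le_rfl)
    ((summable_geometric_of_lt_one (norm_nonneg _) ha).mul_left c)

noncomputable def O (ε : ℝ) (c : ℂ) : ℂ := ∑' n, Ot ε c n

lemma O_rec (hε : 0 < ε) {a : ℂ} (ha : ‖a‖ < 1) :
    O ε a = (1 + a) * O ε (exp (-(ε:ℂ)) * a) := by
  have h0 := (Ot_summable hε (norm_q_mul_lt hε ha)).of_norm.hasSum
  have h1 := (Ot_summable hε ha).of_norm.hasSum.sub h0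
  have h2 := h0.mul_left a
  have h3 : O ε a - O ε (exp (-(ε:ℂ)) * a) = a * O ε (exp (-(ε:ℂ)) * a) := by
    refine h1.unique ((Nat.succ_injective.hasSum_iff ?_).1 (h2.congr_fun ?_))
    · intro n hn
      cases n with
      | zero => simp [Ot]
      | succ n => exact absurd ⟨n, rfl⟩ hn
    · intro n
      have h0 : 1 - exp (-(ε:ℂ))^(n+1) ≠ 0 := by
        rw [qc_pow]; exact_mod_cast (one_sub_pos' hε n).ne'
      have h3 : (qp ε n : ℂ) ≠ 0 := by exact_mod_cast (qp_pos hε n).ne'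
      have h4 : exp (-(ε:ℂ) * ((((n+1:ℕ):ℂ))^2 - ((n+1:ℕ):ℂ)) / 2)
          = exp (-(ε:ℂ) * ((n:ℂ)^2 - n) / 2) * exp (-(ε:ℂ))^n := by
        rw [← exp_nat_mul, ← exp_add]; push_cast; congr 1; ring
      simp only [Function.comp, Ot, Nat.succ_eq_add_one, qp_succ, mul_pow, h4]
      field_simp
      ring
  linear_combination h3

theorem O_eq (hε : 0 < ε) {a : ℂ} (ha : ‖a‖ < 1) :
    O ε a * P ε a / P (2*ε) (a^2) = 1 := by
  set q := exp (-(ε:ℂ)) with hq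
  have hq2 : exp (-((2*ε : ℝ):ℂ)) = q^2 := by rw [hq, ← exp_nat_mul]; push_cast; congr 1; ring
  have key := const_of_rec (K := fun n => O ε (q^n * a) * P ε (q^n * a) / P (2*ε) ((q^n * a)^2))
    (fun n => ?_) ?_
  · simpa using key
  · have ha' := (norm_q_pow_mul_le hε a n).trans_lt ha
    rw [← hq] at ha'
    have e1 : q^(n+1) * a = q * (q^n * a) := by ring
    have h2 : ‖(q^n * a)^2‖ < 1 := by rw [sq]; exact norm_mul_lt ha' ha'
    rw [e1, O_rec hε ha', P_rec hε ha', P_rec (by positivity) h2, hq2, ← hq, ← mul_pow,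
      div_eq_div_iff (mul_ne_zero (one_sub_ne h2) (P_ne _ _)) (P_ne _ _)]
    ring
  · have ta := q_pow_tendsto hε a
    rw [← hq] at ta
    obtain ⟨c, -, h⟩ := Ot_bound hε
    have tH : Tendsto (fun n : ℕ => O ε (q^n * a)) atTop (𝓝 (∑' p, Ot ε 0 p)) := by
      refine tendsto_tsum_of_dominated_convergence
        ((summable_geometric_of_lt_one (norm_nonneg _) ha).mul_left c) (fun p => ?_)
        (Eventually.of_forall fun n p => h _ _ (norm_q_pow_mul_le hε a n) p)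
      exact ((ta.pow _).const_mul _).div_const _
    have e : ∑' p, Ot ε 0 p = 1 := by
      rw [tsum_eq_single 0]
      · simp [Ot, qp]
      · intro n hn; simp [Ot, hn]
    rw [e] at tH
    have := (tH.mul (P_tendsto hε ta)).div
      (P_tendsto (ε := 2*ε) (by positivity) (by simpa using ta.pow 2)) one_ne_zero
    simpa [Pi.div_def] using this

lemma norm_exp_lt (hε : 0 < ε) {x : ℂ} (hx : 0 < x.re) : ‖exp (-(ε*x))‖ < 1 := by
  rw [norm_exp, Real.exp_lt_one_iff]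
  simp only [neg_re, mul_re, ofReal_re, ofReal_im, zero_mul, sub_zero]
  nlinarith

theorem H_exp (hε : 0 < ε) {x y : ℂ} (hx : 0 < x.re) (hy : 0 < y.re) :
    H ε (exp (-(ε*x))) (exp (-(ε*y))) = exp (Lq ε x + Lq ε y - Lq ε (x+y)) := by
  have h := H_eq hε (norm_exp_lt hε hx) (norm_exp_lt hε hy)
  rw [← exp_add, div_eq_one_iff_eq (P_ne _ _)] at h
  have e : -((ε:ℂ)*x) + -(ε*y) = -(ε*(x+y)) := by ring
  rw [e] at h
  simp only [P, exp_neg] at h
  rw [exp_sub, exp_add]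
  simp only [Lq, exp_neg]
  field_simp at h ⊢
  linear_combination h

theorem O_exp (hε : 0 < ε) {x : ℂ} (hx : 0 < x.re) :
    O ε (exp (-(ε*x))) = exp (Lq ε x - Lq (2*ε) x) := by
  have h := O_eq hε (norm_exp_lt hε hx)
  rw [← exp_nat_mul, div_eq_one_iff_eq (P_ne _ _)] at h
  have e : ((2:ℕ):ℂ) * -((ε:ℂ)*x) = -(((2*ε : ℝ):ℂ)*x) := by push_cast; ring
  rw [e] at h
  rw [exp_sub, Lq, Lq]
  simp only [P] at h
  rw [exp_neg (S _ _), exp_neg (S _ _)] at h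
  field_simp at h ⊢
  linear_combination h

end NahmCE
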